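import Mathlib

/-!
# Lattice points in Euclidean balls
-/

set_option autoImplicit false

namespace Pool.Agent.N524

open Finset
open scoped Classical

noncomputable section

variable {ι : Type} [Fintype ι]

/-- embedding of the integer lattice -/
def emb (u : ι → ℤ) : EuclideanSpace ℝ ι := WithLp.toLp 2 (fun i => (u i : ℝ))

omit [Fintype ι] in
theorem emb_apply (u : ι → ℤ) (i : ι) : (emb u).ofLp i = (u i : ℝ) := rfl

omit [Fintype ι] in
theorem emb_add (u v : ι → ℤ) : emb (u + v) = emb u + emb v := by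
  ext i
  simp [emb]

omit [Fintype ι] in
theorem emb_sub (u v : ι → ℤ) : emb (u - v) = emb u - emb v := by
  ext i
  simp [emb]

omit [Fintype ι] in
theorem emb_zsmul (n : ℤ) (u : ι → ℤ) : emb (n • u) = (n : ℝ) • emb u := by
  ext i
  simp [emb]

omit [Fintype ι] in
theorem emb_zero : emb (0 : ι → ℤ) = 0 := by
  ext i
  simp [emb]

theorem abs_le_emb (u : ι → ℤ) (i : ι) : |(u i : ℝ)| ≤ ‖emb u‖ := PiLp.norm_apply_le (emb u) i

theorem emb_le_sum (u : ι → ℤ) (t : ℝ) (ht : ∀ i, |(u i : ℝ)| ≤ t) (ht0 : 0 ≤ t) :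
    ‖emb u‖ ≤ Fintype.card ι * t := by
  have h1 : ‖emb u‖ ^ 2 ≤ (Fintype.card ι * t) ^ 2 := by
    rw [EuclideanSpace.norm_sq_eq]
    calc ∑ i, ‖(emb u).ofLp i‖ ^ 2 ≤ ∑ i : ι, t ^ 2 := by
          refine Finset.sum_le_sum fun i _ => ?_
          have : ‖(emb u).ofLp i‖ ≤ t := ht i
          gcongr
      _ = Fintype.card ι * t ^ 2 := by rw [Finset.sum_const, Finset.card_univ, nsmul_eq_mul]
      _ ≤ (Fintype.card ι * t) ^ 2 := by
          rw [mul_pow]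
          have : (Fintype.card ι : ℝ) ≤ (Fintype.card ι : ℝ) ^ 2 := by
            have : Fintype.card ι ≤ Fintype.card ι ^ 2 := Nat.le_self_pow two_ne_zero _
            exact_mod_cast this
          gcongr
  exact (sq_le_sq₀ (norm_nonneg _) (by positivity)).1 h1

/-- ball -/
def BR (ι : Type) [Fintype ι] (r : ℝ) : Finset (ι → ℤ) :=
  (Finset.Icc (fun _ => -⌊r⌋) (fun _ => ⌊r⌋)).filter (fun u => ‖emb u‖ ≤ r)

theorem mem_BR (r : ℝ) (u : ι → ℤ) : u ∈ BR ι r ↔ ‖emb u‖ ≤ r := by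
  rw [BR, Finset.mem_filter, Finset.mem_Icc]
  constructor
  · exact fun h => h.2
  · intro h
    refine ⟨⟨fun i => ?_, fun i => ?_⟩, h⟩
    · have h1 := (abs_le.1 ((abs_le_emb u i).trans h)).1
      have h2 : -u i ≤ ⌊r⌋ := Int.le_floor.2 (by push_cast; linarith)
      show -⌊r⌋ ≤ u i
      omega
    · have h1 := (abs_le.1 ((abs_le_emb u i).trans h)).2
      exact Int.le_floor.2 h1

theorem BR_bound {r : ℝ} {u : ι → ℤ} (h : u ∈ BR ι r) : ∀ i, -⌊r⌋ ≤ u i ∧ u i ≤ ⌊r⌋ := by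
  rw [BR, Finset.mem_filter, Finset.mem_Icc] at h
  exact fun i => ⟨h.1.1 i, h.1.2 i⟩

theorem BR_mono {r r' : ℝ} (h : r ≤ r') : BR ι r ⊆ BR ι r' := by
  intro u hu
  rw [mem_BR] at hu ⊢
  exact hu.trans h

theorem card_box (n : ℤ) (_hn : 0 ≤ n) :
    #(Finset.Icc (fun _ : ι => -n) (fun _ => n)) = (2 * n + 1).toNat ^ Fintype.card ι := by
  rw [Pi.card_Icc, Finset.prod_congr rfl (g := fun _ => (2 * n + 1).toNat)]
  · rw [Finset.prod_const, Finset.card_univ]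
  · intro i _
    rw [Int.card_Icc]
    congr 1
    ring

theorem card_box_le (r : ℝ) (hr : 1 ≤ r) :
    (#(Finset.Icc (fun _ : ι => -⌊r⌋) (fun _ => ⌊r⌋)) : ℝ) ≤ (3 * r) ^ Fintype.card ι := by
  have h0 : 0 ≤ ⌊r⌋ := Int.floor_nonneg.2 (by linarith)
  rw [card_box _ h0, Nat.cast_pow]
  have h1 : (((2 * ⌊r⌋ + 1).toNat : ℕ) : ℝ) = 2 * (⌊r⌋ : ℝ) + 1 := by
    have : (((2 * ⌊r⌋ + 1).toNat : ℕ) : ℤ) = 2 * ⌊r⌋ + 1 := Int.toNat_of_nonneg (by omega)
    exact_mod_cast this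
  rw [h1]
  have h2 := Int.floor_le r
  have h3 : (0 : ℝ) ≤ (⌊r⌋ : ℝ) := by exact_mod_cast h0
  gcongr
  linarith

theorem card_BR_le (r : ℝ) (hr : 1 ≤ r) : (#(BR ι r) : ℝ) ≤ 3 ^ Fintype.card ι * r ^ Fintype.card ι := by
  rw [← mul_pow]
  refine le_trans ?_ (card_box_le r hr)
  exact_mod_cast Finset.card_filter_le _ _

theorem le_card_BR [Nonempty ι] (r : ℝ) (hr : 0 ≤ r) :
    (1 / (Fintype.card ι : ℝ)) ^ Fintype.card ι * r ^ Fintype.card ι ≤ (#(BR ι r) : ℝ) := by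
  have hn : (0 : ℝ) < Fintype.card ι := by exact_mod_cast Fintype.card_pos
  set t : ℤ := ⌊r / Fintype.card ι⌋ with ht
  have ht0 : 0 ≤ t := Int.floor_nonneg.2 (by positivity)
  have ht0' : (0 : ℝ) ≤ (t : ℝ) := by exact_mod_cast ht0
  have h1 : Finset.Icc (fun _ : ι => -t) (fun _ => t) ⊆ BR ι r := by
    intro u hu
    rw [Finset.mem_Icc] at hu
    rw [mem_BR]
    have h2 : ∀ i, |(u i : ℝ)| ≤ t := by
      intro i
      rw [abs_le]
      constructor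
      · exact_mod_cast hu.1 i
      · exact_mod_cast hu.2 i
    refine (emb_le_sum u t h2 ht0').trans ?_
    have h3 : (t : ℝ) ≤ r / Fintype.card ι := Int.floor_le _
    rw [le_div_iff₀ hn] at h3
    linarith
  have h2 : (#(Finset.Icc (fun _ : ι => -t) (fun _ => t)) : ℝ) ≤ #(BR ι r) := by
    exact_mod_cast Finset.card_le_card h1
  refine le_trans ?_ h2
  rw [card_box _ ht0, Nat.cast_pow, ← mul_pow]
  have h3 : (((2 * t + 1).toNat : ℕ) : ℝ) = 2 * (t : ℝ) + 1 := by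
    have : (((2 * t + 1).toNat : ℕ) : ℤ) = 2 * t + 1 := Int.toNat_of_nonneg (by omega)
    exact_mod_cast this
  rw [h3]
  have h4 : r / Fintype.card ι < t + 1 := Int.lt_floor_add_one _
  gcongr
  rw [one_div, inv_mul_eq_div]
  linarith

/-- integer points near a given real point -/
theorem near (x : ι → ℝ) (ρ : ℝ) (hρ : 1 ≤ ρ) :
    ∃ T : Finset (ι → ℤ), ρ ^ Fintype.card ι ≤ (#T : ℝ) ∧ ∀ h ∈ T, ∀ i, |(h i : ℝ) - x i| ≤ ρ := by
  refine ⟨Finset.Icc (fun i => ⌈x i - ρ⌉) (fun i => ⌊x i + ρ⌋), ?_, ?_⟩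
  · rw [Pi.card_Icc, Nat.cast_prod]
    have h1 : ∀ i ∈ (Finset.univ : Finset ι), ρ ≤ ((#(Finset.Icc ⌈x i - ρ⌉ ⌊x i + ρ⌋) : ℕ) : ℝ) := by
      intro i _
      rw [Int.card_Icc]
      have h2 : ((⌊x i + ρ⌋ + 1 - ⌈x i - ρ⌉ : ℤ) : ℝ) ≤ (((⌊x i + ρ⌋ + 1 - ⌈x i - ρ⌉).toNat : ℕ) : ℝ) := by
        exact_mod_cast Int.self_le_toNat _
      refine le_trans ?_ h2
      push_cast
      have h3 := Int.lt_floor_add_one (x i + ρ)
      have h4 := Int.ceil_lt_add_one (x i - ρ)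
      linarith
    calc ρ ^ Fintype.card ι = ∏ _i : ι, ρ := by rw [Finset.prod_const, Finset.card_univ]
      _ ≤ _ := Finset.prod_le_prod (fun i _ => by linarith) h1
  · intro h hh i
    rw [Finset.mem_Icc] at hh
    have h1 : ⌈x i - ρ⌉ ≤ h i := hh.1 i
    have h2 : h i ≤ ⌊x i + ρ⌋ := hh.2 i
    rw [Int.ceil_le] at h1
    rw [Int.le_floor] at h2
    rw [abs_le]
    constructor <;> linarith

end

end Pool.Agent.N524
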