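import Mathlib

/-!
# Counting incidences in windows: the two geometric properties from basic facts on balls
-/

set_option autoImplicit false

namespace Pool.Agent.N524

open Finset
open scoped Classical

/-- Basic facts on balls and lines. -/
structure Bs {G G0 D : Type} (c : D → G → G0) (BR : ℝ → Finset G) (d : ℕ) (A a b B l ρ r0 : ℝ) : Prop where
  hA : 0 < A
  ha : 0 < a
  hb : 0 < b
  hB : 0 < B
  hl0 : 0 < l
  hl1 : l < 1
  hρ0 : 0 < ρ
  hρ1 : ρ ≤ 1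
  hr0 : 1 ≤ r0
  mono : ∀ r r', r ≤ r' → BR r ⊆ BR r'
  F1 : ∀ r, 1 ≤ r → ∀ τ u, (#{w ∈ BR r | c τ w = c τ u} : ℝ) ≤ A * r ^ d
  F2 : ∀ r, r0 ≤ r → ∀ u ∈ BR r, ∀ μ ν, μ ≠ ν →
    a * r ^ d ≤ (#{w ∈ BR (l * r) | c μ w = c μ u} : ℝ) ∨ a * r ^ d ≤ (#{w ∈ BR (l * r) | c ν w = c ν u} : ℝ)
  F3 : ∀ r, 0 ≤ r → ∀ u ∈ BR (ρ * r), ∀ u' ∈ BR (ρ * r), ∀ μ ν, μ ≠ ν →
    ∃ w ∈ BR r, c μ w = c μ u ∧ c ν w = c ν u'
  F4 : ∀ r, 0 ≤ r → b * r ^ (2 * d) ≤ (#(BR r) : ℝ)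
  F4' : ∀ r, 1 ≤ r → (#(BR r) : ℝ) ≤ B * r ^ (2 * d)
  F5 : ∀ μ ν, μ ≠ ν → ∀ w w', c μ w = c μ w' → c ν w = c ν w' → w = w'

variable {G G0 D : Type} {c : D → G → G0} {BR : ℝ → Finset G} {d : ℕ} {A a b B l ρ r0 : ℝ}

/-- double counting along the lines of direction `τ` -/
theorem dc_line (h : Bs c BR d A a b B l ρ r0) (τ : D) (r : ℝ) (hr : 1 ≤ r) (X Y : Finset G)
    (hX : X ⊆ BR r) (hXY : ∀ u ∈ X, a * r ^ d ≤ (#{w ∈ Y | c τ w = c τ u} : ℝ)) :
    (#X : ℝ) * (a * r ^ d) ≤ #Y * (A * r ^ d) := by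
  have h1 : (#X : ℝ) * (a * r ^ d) ≤ ∑ u ∈ X, (#{w ∈ Y | c τ w = c τ u} : ℝ) := by
    rw [← nsmul_eq_mul]
    exact Finset.card_nsmul_le_sum _ _ _ hXY
  have h2 : ∑ u ∈ X, #{w ∈ Y | c τ w = c τ u} = ∑ w ∈ Y, #{u ∈ X | c τ w = c τ u} := by
    simp_rw [Finset.card_filter]
    exact Finset.sum_comm
  have h3 : (∑ u ∈ X, (#{w ∈ Y | c τ w = c τ u} : ℝ)) = ∑ w ∈ Y, (#{u ∈ X | c τ w = c τ u} : ℝ) := by
    exact_mod_cast h2
  rw [h3] at h1
  refine h1.trans ?_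
  rw [← nsmul_eq_mul]
  refine Finset.sum_le_card_nsmul _ _ _ fun w _ => ?_
  refine le_trans ?_ (h.F1 r hr τ w)
  have : ({u ∈ X | c τ w = c τ u} : Finset G) ⊆ {u ∈ BR r | c τ u = c τ w} := by
    intro u hu
    obtain ⟨h4, h5⟩ := Finset.mem_filter.1 hu
    exact Finset.mem_filter.2 ⟨hX h4, h5.symm⟩
  exact_mod_cast Finset.card_le_card this

/-- near constancy on the inner ball -/
theorem inner_const (h : Bs c BR d A a b B l ρ r0) (μ ν : D) (hne : μ ≠ ν) (s : ℝ) (hs : 1 ≤ s)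
    (H : Finset G) (Y : Type) (f : G → Y)
    (hf : ∀ u ∈ H, ∀ u' ∈ H, (c μ u = c μ u' ∨ c ν u = c ν u') → f u = f u') :
    ∃ y : Y, (#{u ∈ BR (ρ * s) | u ∉ H ∨ f u ≠ y} : ℝ) ≤
      ((2 * B + A ^ 2) / (b * ρ ^ (2 * d))) * #(BR s \ H) := by
  set U := BR (ρ * s) with hU
  have hs0 : 0 < s := by linarith
  have hρs : ρ * s ≤ s := by nlinarith [h.hρ1]
  have hUs : U ⊆ BR s := h.mono _ _ hρs
  have hUc : b * (ρ * s) ^ (2 * d) ≤ (#U : ℝ) := h.F4 _ (by have := h.hρ0; positivity)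
  have hρ0 := h.hρ0
  have hb := h.hb
  have hUpos : (0 : ℝ) < #U := lt_of_lt_of_le (by positivity) hUc
  -- the intersection points
  have hw : ∀ p : G × G, ∃ w, p.1 ∈ U → p.2 ∈ U → w ∈ BR s ∧ c μ w = c μ p.1 ∧ c ν w = c ν p.2 := by
    intro p
    by_cases hp : p.1 ∈ U ∧ p.2 ∈ U
    · obtain ⟨w, h1, h2⟩ := h.F3 s hs0.le p.1 hp.1 p.2 hp.2 μ ν hne
      exact ⟨w, fun _ _ => ⟨h1, h2⟩⟩
    · exact ⟨p.1, fun h1 h2 => absurd ⟨h1, h2⟩ hp⟩
  choose w hw using hw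
  set Bad : Finset (G × G) := (U ×ˢ U).filter (fun p => ¬ (p.2 ∈ H ∧ f p.2 = f p.1)) with hBad
  have hBadsub : Bad ⊆ ((BR s \ H) ×ˢ U) ∪ ((U ×ˢ (BR s \ H)) ∪
      (U ×ˢ U).filter (fun p => w p ∈ BR s \ H)) := by
    intro p hp
    obtain ⟨h1, h2⟩ := Finset.mem_filter.1 hp
    obtain ⟨h3, h4⟩ := Finset.mem_product.1 h1
    obtain ⟨h5, h6, h7⟩ := hw p h3 h4
    simp only [Finset.mem_union, Finset.mem_product, Finset.mem_sdiff, Finset.mem_filter]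
    by_cases q1 : p.1 ∈ H
    · by_cases q2 : p.2 ∈ H
      · by_cases q3 : w p ∈ H
        · exfalso
          apply h2
          refine ⟨q2, ?_⟩
          rw [← hf (w p) q3 p.1 q1 (Or.inl h6), hf (w p) q3 p.2 q2 (Or.inr h7)]
        · exact Or.inr (Or.inr ⟨⟨h3, h4⟩, h5, q3⟩)
      · exact Or.inr (Or.inl ⟨h3, hUs h4, q2⟩)
    · exact Or.inl ⟨⟨hUs h3, q1⟩, h4⟩
  have hthird : (#((U ×ˢ U).filter (fun p => w p ∈ BR s \ H)) : ℝ) ≤ #(BR s \ H) * (A * s ^ d) ^ 2 := by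
    have h1 : #((U ×ˢ U).filter (fun p => w p ∈ BR s \ H)) ≤
        ∑ v ∈ BR s \ H, #(((U ×ˢ U).filter (fun p => w p ∈ BR s \ H)).filter (fun p => w p = v)) := by
      have h0 : ∀ p ∈ (U ×ˢ U).filter (fun p => w p ∈ BR s \ H), w p ∈ BR s \ H :=
        fun p hp => (Finset.mem_filter.1 hp).2
      exact (Finset.card_eq_sum_card_fiberwise h0).le
    have h2 : ∀ v ∈ BR s \ H, (#(((U ×ˢ U).filter (fun p => w p ∈ BR s \ H)).filter
        (fun p => w p = v)) : ℝ) ≤ (A * s ^ d) ^ 2 := by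
      intro v _
      have h3 : ((U ×ˢ U).filter (fun p => w p ∈ BR s \ H)).filter (fun p => w p = v) ⊆
          ({u ∈ BR s | c μ u = c μ v} : Finset G) ×ˢ ({u ∈ BR s | c ν u = c ν v} : Finset G) := by
        intro p hp
        obtain ⟨h4, h5⟩ := Finset.mem_filter.1 hp
        obtain ⟨h6, -⟩ := Finset.mem_filter.1 h4
        obtain ⟨h7, h8⟩ := Finset.mem_product.1 h6
        obtain ⟨-, h9, h10⟩ := hw p h7 h8
        rw [h5] at h9 h10
        exact Finset.mem_product.2 ⟨Finset.mem_filter.2 ⟨hUs h7, h9.symm⟩, Finset.mem_filter.2 ⟨hUs h8, h10.symm⟩⟩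
      have h4 : (#(((U ×ˢ U).filter (fun p => w p ∈ BR s \ H)).filter (fun p => w p = v)) : ℝ) ≤
          #({u ∈ BR s | c μ u = c μ v} : Finset G) * #({u ∈ BR s | c ν u = c ν v} : Finset G) := by
        have := Finset.card_le_card h3
        rw [Finset.card_product] at this
        exact_mod_cast this
      refine h4.trans ?_
      rw [pow_two]
      have := h.hA
      exact mul_le_mul (h.F1 s hs μ v) (h.F1 s hs ν v) (by positivity) (by positivity)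
    calc (#((U ×ˢ U).filter (fun p => w p ∈ BR s \ H)) : ℝ)
        ≤ ∑ v ∈ BR s \ H, (#(((U ×ˢ U).filter (fun p => w p ∈ BR s \ H)).filter (fun p => w p = v)) : ℝ) := by
          exact_mod_cast h1
      _ ≤ #(BR s \ H) • (A * s ^ d) ^ 2 := Finset.sum_le_card_nsmul _ _ _ h2
      _ = _ := by rw [nsmul_eq_mul]
  have hUB : (#U : ℝ) ≤ B * s ^ (2 * d) := by
    refine le_trans ?_ (h.F4' s hs)
    exact_mod_cast Finset.card_le_card hUs
  have hBadc : (#Bad : ℝ) ≤ (2 * B + A ^ 2) * s ^ (2 * d) * #(BR s \ H) := by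
    have h1 : #Bad ≤ #(BR s \ H) * #U + (#U * #(BR s \ H) + #((U ×ˢ U).filter (fun p => w p ∈ BR s \ H))) := by
      refine (Finset.card_le_card hBadsub).trans ((Finset.card_union_le _ _).trans ?_)
      rw [Finset.card_product]
      refine Nat.add_le_add_left ((Finset.card_union_le _ _).trans ?_) _
      rw [Finset.card_product]
    have h2 : (#Bad : ℝ) ≤ #(BR s \ H) * #U + (#U * #(BR s \ H) +
        #((U ×ˢ U).filter (fun p => w p ∈ BR s \ H))) := by exact_mod_cast h1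
    have h3 : (0 : ℝ) ≤ #(BR s \ H) := by positivity
    have h4 : (A * s ^ d) ^ 2 = A ^ 2 * s ^ (2 * d) := by ring
    rw [h4] at hthird
    calc (#Bad : ℝ) ≤ #(BR s \ H) * #U + (#U * #(BR s \ H) +
        #((U ×ˢ U).filter (fun p => w p ∈ BR s \ H))) := h2
      _ ≤ #(BR s \ H) * (B * s ^ (2 * d)) + ((B * s ^ (2 * d)) * #(BR s \ H) +
        #(BR s \ H) * (A ^ 2 * s ^ (2 * d))) := by gcongr
      _ = _ := by ring
  -- choose a good base point
  have hsum : ∑ u ∈ U, #{u' ∈ U | ¬ (u' ∈ H ∧ f u' = f u)} = #Bad := by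
    rw [hBad, Finset.card_filter, Finset.sum_product]
    refine Finset.sum_congr rfl fun u _ => ?_
    rw [Finset.card_filter]
  have hex : ∃ u ∈ U, (#{u' ∈ U | ¬ (u' ∈ H ∧ f u' = f u)} : ℝ) ≤ (#Bad : ℝ) / #U := by
    refine Finset.exists_le_of_sum_le (Finset.card_pos.1 (by exact_mod_cast hUpos)) ?_
    rw [Finset.sum_const, nsmul_eq_mul, mul_div_cancel₀ _ hUpos.ne']
    exact_mod_cast hsum.le
  obtain ⟨u0, hu0, hle⟩ := hex
  refine ⟨f u0, ?_⟩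
  have heq : ({u ∈ U | u ∉ H ∨ f u ≠ f u0} : Finset G) = {u' ∈ U | ¬ (u' ∈ H ∧ f u' = f u0)} := by
    ext u
    simp only [Finset.mem_filter]
    tauto
  rw [heq]
  refine hle.trans ?_
  rw [div_le_iff₀ hUpos, div_mul_eq_mul_div, div_mul_eq_mul_div, le_div_iff₀ (by positivity)]
  calc (#Bad : ℝ) * (b * ρ ^ (2 * d)) ≤ ((2 * B + A ^ 2) * s ^ (2 * d) * #(BR s \ H)) * (b * ρ ^ (2 * d)) := by
        gcongr
    _ = ((2 * B + A ^ 2) * #(BR s \ H)) * (b * (ρ * s) ^ (2 * d)) := by rw [mul_pow]; ring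
    _ ≤ ((2 * B + A ^ 2) * #(BR s \ H)) * #U := by
        have := h.hB
        gcongr

/-- one step outwards -/
theorem outer (h : Bs c BR d A a b B l ρ r0) (μ ν : D) (hne : μ ≠ ν) (s r : ℝ) (hr0 : r0 ≤ r) (hrs : r ≤ s)
    (H : Finset G) (Y : Type) (f : G → Y)
    (hf : ∀ u ∈ H, ∀ u' ∈ H, (c μ u = c μ u' ∨ c ν u = c ν u') → f u = f u') (y : Y) :
    (#{u ∈ BR r | u ∉ H ∨ f u ≠ y} : ℝ) ≤ #(BR s \ H) +
      2 * (A / a) * #{u ∈ BR (l * r) | u ∉ H ∨ f u ≠ y} := by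
  have hr1 : 1 ≤ r := h.hr0.trans hr0
  have ha := h.ha
  have hA := h.hA
  have key : ∀ τ, (τ = μ ∨ τ = ν) → (#{u ∈ BR r | (u ∈ H ∧ f u ≠ y) ∧
      a * r ^ d ≤ (#{w ∈ BR (l * r) | c τ w = c τ u} : ℝ)} : ℝ) ≤
      (A / a) * #{u ∈ BR (l * r) | u ∉ H ∨ f u ≠ y} := by
    intro τ hτ
    have h1 := dc_line h τ r hr1 ({u ∈ BR r | (u ∈ H ∧ f u ≠ y) ∧
      a * r ^ d ≤ (#{w ∈ BR (l * r) | c τ w = c τ u} : ℝ)} : Finset G)
      ({u ∈ BR (l * r) | u ∉ H ∨ f u ≠ y} : Finset G) (Finset.filter_subset _ _) (by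
        intro u hu
        obtain ⟨h2, ⟨h3, h4⟩, h5⟩ := Finset.mem_filter.1 hu
        refine h5.trans ?_
        have : ({w ∈ BR (l * r) | c τ w = c τ u} : Finset G) ⊆
            {w ∈ ({u ∈ BR (l * r) | u ∉ H ∨ f u ≠ y} : Finset G) | c τ w = c τ u} := by
          intro w hw
          obtain ⟨h6, h7⟩ := Finset.mem_filter.1 hw
          refine Finset.mem_filter.2 ⟨Finset.mem_filter.2 ⟨h6, ?_⟩, h7⟩
          by_cases hwH : w ∈ H
          · right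
            have : f w = f u := by
              apply hf w hwH u h3
              rcases hτ with h8 | h8
              · left; rw [← h8]; exact h7
              · right; rw [← h8]; exact h7
            rw [this]
            exact h4
          · left; exact hwH
        exact_mod_cast Finset.card_le_card this)
    have hrd : 0 < r ^ d := by positivity
    rw [div_mul_eq_mul_div, le_div_iff₀ ha]
    have h2 : ((#{u ∈ BR r | (u ∈ H ∧ f u ≠ y) ∧
      a * r ^ d ≤ (#{w ∈ BR (l * r) | c τ w = c τ u} : ℝ)} : ℝ) * a) * r ^ d ≤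
      (A * #{u ∈ BR (l * r) | u ∉ H ∨ f u ≠ y}) * r ^ d := by
      calc _ = _ := by rw [mul_assoc]
        _ ≤ _ := h1
        _ = _ := by ring
    exact le_of_mul_le_mul_right h2 hrd
  have hsub : ({u ∈ BR r | u ∉ H ∨ f u ≠ y} : Finset G) ⊆ (BR s \ H) ∪
      (({u ∈ BR r | (u ∈ H ∧ f u ≠ y) ∧ a * r ^ d ≤ (#{w ∈ BR (l * r) | c μ w = c μ u} : ℝ)} : Finset G) ∪
      ({u ∈ BR r | (u ∈ H ∧ f u ≠ y) ∧ a * r ^ d ≤ (#{w ∈ BR (l * r) | c ν w = c ν u} : ℝ)} : Finset G)) := by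
    intro u hu
    obtain ⟨h1, h2⟩ := Finset.mem_filter.1 hu
    simp only [Finset.mem_union, Finset.mem_sdiff, Finset.mem_filter]
    by_cases hH : u ∈ H
    · have h3 : f u ≠ y := h2.resolve_left (fun h => h hH)
      rcases h.F2 r hr0 u h1 μ ν hne with h4 | h4
      · exact Or.inr (Or.inl ⟨h1, ⟨hH, h3⟩, h4⟩)
      · exact Or.inr (Or.inr ⟨h1, ⟨hH, h3⟩, h4⟩)
    · exact Or.inl ⟨h.mono _ _ hrs h1, hH⟩
  have h1 := (Finset.card_le_card hsub).trans ((Finset.card_union_le _ _).trans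
    (Nat.add_le_add_left (Finset.card_union_le _ _) _))
  have h2 : (#{u ∈ BR r | u ∉ H ∨ f u ≠ y} : ℝ) ≤ #(BR s \ H) +
      (#{u ∈ BR r | (u ∈ H ∧ f u ≠ y) ∧ a * r ^ d ≤ (#{w ∈ BR (l * r) | c μ w = c μ u} : ℝ)} +
      #{u ∈ BR r | (u ∈ H ∧ f u ≠ y) ∧ a * r ^ d ≤ (#{w ∈ BR (l * r) | c ν w = c ν u} : ℝ)}) := by
    exact_mod_cast h1
  have h3 := key μ (Or.inl rfl)
  have h4 := key ν (Or.inr rfl)
  linarith

theorem geo1 (h : Bs c BR d A a b B l ρ r0) : ∃ C : ℝ, 0 < C ∧ ∃ s0 : ℝ, ∀ s, s0 ≤ s →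
    ∀ μ ν, μ ≠ ν → ∀ (H : Finset G) (Y : Type) (f : G → Y),
      (∀ u ∈ H, ∀ u' ∈ H, (c μ u = c μ u' ∨ c ν u = c ν u') → f u = f u') →
      ∃ y : Y, (#{u ∈ BR s | u ∉ H ∨ f u ≠ y} : ℝ) ≤ C * #(BR s \ H) := by
  have ha := h.ha
  have hA := h.hA
  have hb := h.hb
  have hB := h.hB
  have hρ0 := h.hρ0
  have hl0 := h.hl0
  obtain ⟨m, hm⟩ : ∃ m : ℕ, l ^ m < ρ := exists_pow_lt_of_lt_one h.hρ0 h.hl1
  set C0 : ℝ := (2 * B + A ^ 2) / (b * ρ ^ (2 * d)) with hC0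
  have hC0pos : 0 < C0 := by positivity
  have key : ∀ i : ℕ, ∃ Ci : ℝ, 0 < Ci ∧ (i ≤ m → ∀ s, r0 / l ^ m ≤ s →
      ∀ μ ν, μ ≠ ν → ∀ (H : Finset G) (Y : Type) (f : G → Y),
      (∀ u ∈ H, ∀ u' ∈ H, (c μ u = c μ u' ∨ c ν u = c ν u') → f u = f u') → ∀ y : Y,
      (#{u ∈ BR (ρ * s) | u ∉ H ∨ f u ≠ y} : ℝ) ≤ C0 * #(BR s \ H) →
      (#{u ∈ BR (l ^ (m - i) * s) | u ∉ H ∨ f u ≠ y} : ℝ) ≤ Ci * #(BR s \ H)) := by
    intro i
    induction i with
    | zero =>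
      refine ⟨C0, hC0pos, ?_⟩
      intro _ s hs μ ν _ H Y f _ y hy
      refine le_trans ?_ hy
      have hs0 : 0 ≤ s := by
        have : 0 < r0 / l ^ m := div_pos (by linarith [h.hr0]) (by positivity)
        linarith
      have h1 : BR (l ^ (m - 0) * s) ⊆ BR (ρ * s) := by
        apply h.mono
        rw [Nat.sub_zero]
        exact mul_le_mul_of_nonneg_right hm.le hs0
      exact_mod_cast Finset.card_le_card (Finset.filter_subset_filter _ h1)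
    | succ i ih =>
      obtain ⟨Ci, hCi, hi⟩ := ih
      refine ⟨1 + 2 * (A / a) * Ci, by positivity, ?_⟩
      intro him s hs μ ν hne H Y f hf y hy
      have h1 := hi (by omega) s hs μ ν hne H Y f hf y hy
      have hlm : 0 < l ^ m := by positivity
      have hs' : r0 ≤ l ^ m * s := by
        rw [div_le_iff₀ hlm] at hs
        linarith
      have hs0 : 0 ≤ s := by
        have : 0 < r0 / l ^ m := div_pos (by linarith [h.hr0]) (by positivity)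
        linarith
      have h2 : l ^ m * s ≤ l ^ (m - (i + 1)) * s := by
        apply mul_le_mul_of_nonneg_right _ hs0
        exact pow_le_pow_of_le_one hl0.le h.hl1.le (by omega)
      have h3 : l ^ (m - (i + 1)) * s ≤ s := by
        have : l ^ (m - (i + 1)) ≤ 1 := pow_le_one₀ hl0.le h.hl1.le
        nlinarith
      have h4 := outer h μ ν hne s (l ^ (m - (i + 1)) * s) (hs'.trans h2) h3 H Y f hf y
      have h5 : l * (l ^ (m - (i + 1)) * s) = l ^ (m - i) * s := by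
        rw [← mul_assoc, ← pow_succ']
        congr 2
        omega
      rw [h5] at h4
      have h6 : (2 * (A / a)) * (#{u ∈ BR (l ^ (m - i) * s) | u ∉ H ∨ f u ≠ y} : ℝ) ≤
          (2 * (A / a)) * (Ci * #(BR s \ H)) := by gcongr
      linarith
  obtain ⟨C, hC, hkey⟩ := key m
  refine ⟨C, hC, max 1 (r0 / l ^ m), ?_⟩
  intro s hs μ ν hne H Y f hf
  obtain ⟨y, hy⟩ := inner_const h μ ν hne s ((le_max_left _ _).trans hs) H Y f hf
  refine ⟨y, ?_⟩
  have := hkey le_rfl s ((le_max_right _ _).trans hs) μ ν hne H Y f hf y hy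
  rwa [Nat.sub_self, pow_zero, one_mul] at this

theorem geo2 [Fintype D] (h : Bs c BR d A a b B l ρ r0) : ∃ C : ℝ, 0 < C ∧ ∃ s0 : ℝ, ∀ s, s0 ≤ s →
    ∀ L : D → Set G0,
      (#{u ∈ BR s | 3 ≤ #{μ | c μ u ∈ L μ}} : ℝ) * #(BR s) ≤ C * (#{u ∈ BR s | ∃ μ, c μ u ∈ L μ} : ℝ) ^ 2 := by
  have ha := h.ha
  have hA := h.hA
  have hb := h.hb
  have hB := h.hB
  refine ⟨(Fintype.card (D × D) + 1) * (B / a ^ 2), by positivity, r0, ?_⟩
  intro s hs L
  have hs1 : 1 ≤ s := h.hr0.trans hs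
  set E : Finset G := {u ∈ BR s | ∃ μ, c μ u ∈ L μ} with hE
  set F : Finset G := {u ∈ BR s | 3 ≤ #{μ | c μ u ∈ L μ}} with hF
  let X : D × D → Finset G := fun p => {u ∈ BR s | p.1 ≠ p.2 ∧ (c p.1 u ∈ L p.1 ∧ c p.2 u ∈ L p.2) ∧
    (a * s ^ d ≤ (#{w ∈ BR (l * s) | c p.1 w = c p.1 u} : ℝ) ∧
      a * s ^ d ≤ (#{w ∈ BR (l * s) | c p.2 w = c p.2 u} : ℝ))}
  have hls : l * s ≤ s := by nlinarith [h.hl1]
  have hX : ∀ p, (#(X p) : ℝ) * (a * s ^ d) ^ 2 ≤ (#E : ℝ) ^ 2 := by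
    intro p
    by_cases hp : p.1 ≠ p.2
    · have h1 : (#(X p) : ℝ) * (a * s ^ d) ^ 2 ≤ ∑ u ∈ X p,
          (#(({w ∈ BR s | c p.1 w = c p.1 u} : Finset G) ×ˢ ({w ∈ BR s | c p.2 w = c p.2 u} : Finset G)) : ℝ) := by
        rw [← nsmul_eq_mul]
        refine Finset.card_nsmul_le_sum _ _ _ fun u hu => ?_
        obtain ⟨-, -, -, h2, h3⟩ := Finset.mem_filter.1 hu
        rw [Finset.card_product, Nat.cast_mul, pow_two]
        have h4 : ∀ q, (#{w ∈ BR (l * s) | c q w = c q u} : ℝ) ≤ #{w ∈ BR s | c q w = c q u} := by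
          intro q
          exact_mod_cast Finset.card_le_card (Finset.filter_subset_filter _ (h.mono _ _ hls))
        exact mul_le_mul (h2.trans (h4 _)) (h3.trans (h4 _)) (by positivity) (by positivity)
      have h2 : ∑ u ∈ X p, #(({w ∈ BR s | c p.1 w = c p.1 u} : Finset G) ×ˢ
          ({w ∈ BR s | c p.2 w = c p.2 u} : Finset G)) ≤ #(E ×ˢ E) := by
        rw [← Finset.card_biUnion]
        · refine Finset.card_le_card ?_
          intro q hq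
          obtain ⟨u, hu, hq⟩ := Finset.mem_biUnion.1 hq
          obtain ⟨-, -, ⟨h3, h4⟩, -⟩ := Finset.mem_filter.1 hu
          obtain ⟨h5, h6⟩ := Finset.mem_product.1 hq
          obtain ⟨h7, h8⟩ := Finset.mem_filter.1 h5
          obtain ⟨h9, h10⟩ := Finset.mem_filter.1 h6
          exact Finset.mem_product.2 ⟨Finset.mem_filter.2 ⟨h7, p.1, by rw [h8]; exact h3⟩,
            Finset.mem_filter.2 ⟨h9, p.2, by rw [h10]; exact h4⟩⟩
        · intro u hu u' hu' hne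
          rw [Function.onFun, Finset.disjoint_left]
          intro q hq hq'
          apply hne
          obtain ⟨h5, h6⟩ := Finset.mem_product.1 hq
          obtain ⟨h7, h8⟩ := Finset.mem_product.1 hq'
          have e1 := (Finset.mem_filter.1 h5).2
          have e2 := (Finset.mem_filter.1 h6).2
          have e3 := (Finset.mem_filter.1 h7).2
          have e4 := (Finset.mem_filter.1 h8).2
          exact h.F5 p.1 p.2 hp u u' (e1.symm.trans e3) (e2.symm.trans e4)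
      rw [Finset.card_product] at h2
      refine h1.trans ?_
      rw [pow_two]
      exact_mod_cast h2
    · have : X p = ∅ := by
        rw [Finset.filter_eq_empty_iff]
        rintro u _ ⟨h1, _⟩
        exact hp h1
      rw [this]
      simp only [Finset.card_empty, Nat.cast_zero, zero_mul]
      positivity
  have hFX : F ⊆ Finset.univ.biUnion X := by
    intro u hu
    obtain ⟨huB, hu3⟩ := Finset.mem_filter.1 hu
    -- at most one direction is short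
    set T : Finset D := {μ | c μ u ∈ L μ} with hT
    have h1 : #(T.filter (fun μ => ¬ a * s ^ d ≤ (#{w ∈ BR (l * s) | c μ w = c μ u} : ℝ))) ≤ 1 := by
      rw [Finset.card_le_one]
      intro μ hμ ν hν
      by_contra hne
      rcases h.F2 s hs u huB μ ν hne with h2 | h2
      · exact (Finset.mem_filter.1 hμ).2 h2
      · exact (Finset.mem_filter.1 hν).2 h2
    have h2 : 2 ≤ #(T.filter (fun μ => a * s ^ d ≤ (#{w ∈ BR (l * s) | c μ w = c μ u} : ℝ))) := by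
      have := Finset.card_filter_add_card_filter_not (s := T)
        (fun μ => a * s ^ d ≤ (#{w ∈ BR (l * s) | c μ w = c μ u} : ℝ))
      omega
    obtain ⟨μ, hμ, ν, hν, hne⟩ := Finset.one_lt_card.1 (lt_of_lt_of_le one_lt_two h2)
    obtain ⟨h3, h4⟩ := Finset.mem_filter.1 hμ
    obtain ⟨h5, h6⟩ := Finset.mem_filter.1 hν
    exact Finset.mem_biUnion.2 ⟨(μ, ν), Finset.mem_univ _, Finset.mem_filter.2 ⟨huB, hne,
      ⟨(Finset.mem_filter.1 h3).2, (Finset.mem_filter.1 h5).2⟩, h4, h6⟩⟩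
  have hsd : 0 < s ^ d := by positivity
  have hFc : (#F : ℝ) * (a * s ^ d) ^ 2 ≤ Fintype.card (D × D) * (#E : ℝ) ^ 2 := by
    have h1 : (#F : ℝ) ≤ ∑ p : D × D, (#(X p) : ℝ) := by
      exact_mod_cast (Finset.card_le_card hFX).trans Finset.card_biUnion_le
    calc (#F : ℝ) * (a * s ^ d) ^ 2 ≤ (∑ p : D × D, (#(X p) : ℝ)) * (a * s ^ d) ^ 2 := by gcongr
      _ = ∑ p : D × D, (#(X p) : ℝ) * (a * s ^ d) ^ 2 := by rw [Finset.sum_mul]
      _ ≤ ∑ p : D × D, (#E : ℝ) ^ 2 := Finset.sum_le_sum fun p _ => hX p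
      _ = _ := by rw [Finset.sum_const, Finset.card_univ, nsmul_eq_mul]
  have hWc := h.F4' s hs1
  have h1 : (#F : ℝ) * #(BR s) ≤ (#F : ℝ) * (B * s ^ (2 * d)) := by gcongr
  refine h1.trans ?_
  have h2 : (#F : ℝ) * (B * s ^ (2 * d)) = (B / a ^ 2) * ((#F : ℝ) * (a * s ^ d) ^ 2) := by
    field_simp
    ring
  rw [h2]
  calc (B / a ^ 2) * ((#F : ℝ) * (a * s ^ d) ^ 2) ≤ (B / a ^ 2) * (Fintype.card (D × D) * (#E : ℝ) ^ 2) := by
        gcongr
    _ ≤ (Fintype.card (D × D) + 1) * (B / a ^ 2) * (#E : ℝ) ^ 2 := by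
        have : 0 ≤ (B / a ^ 2) * (#E : ℝ) ^ 2 := by positivity
        nlinarith

end Pool.Agent.N524
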