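import Pool.Agent.N524.Ball
import Pool.Agent.N524.Geo

/-!
# The concrete configurations: verification of the basic facts
-/

set_option autoImplicit false

namespace Pool.Agent.N524

open Finset
open scoped Classical

noncomputable section

variable {d : ℕ}

/-- Points. -/
abbrev GG (d : ℕ) := Fin d ⊕ Fin d → ℤ

/-- the parameter of the line through `u` -/
def cc (M : (Fin d → ℤ) →+ (Fin d → ℤ)) : GG d →+ (Fin d → ℤ) where
  toFun u := (fun i => u (Sum.inr i)) - M (fun i => u (Sum.inl i))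
  map_zero' := by
    have : (fun i => (0 : GG d) (Sum.inl i)) = 0 := rfl
    rw [this, map_zero]
    rfl
  map_add' u v := by
    have : (fun i => (u + v) (Sum.inl i)) = (fun i => u (Sum.inl i)) + (fun i => v (Sum.inl i)) := rfl
    rw [this, map_add]
    funext i
    simp
    ring

theorem cc_apply (M : (Fin d → ℤ) →+ (Fin d → ℤ)) (u : GG d) :
    cc M u = (fun i => u (Sum.inr i)) - M (fun i => u (Sum.inl i)) := rfl

/-- the line through `0` -/
def tt (M : (Fin d → ℤ) →+ (Fin d → ℤ)) : (Fin d → ℤ) →+ GG d where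
  toFun h := Sum.elim h (M h)
  map_zero' := by
    rw [map_zero]
    funext i
    cases i <;> rfl
  map_add' u v := by
    rw [map_add]
    funext i
    cases i <;> rfl

theorem tt_inl (M : (Fin d → ℤ) →+ (Fin d → ℤ)) (h : Fin d → ℤ) (i : Fin d) : tt M h (Sum.inl i) = h i := rfl
theorem tt_inr (M : (Fin d → ℤ) →+ (Fin d → ℤ)) (h : Fin d → ℤ) (i : Fin d) : tt M h (Sum.inr i) = M h i := rfl

theorem cc_tt (M : (Fin d → ℤ) →+ (Fin d → ℤ)) (h : Fin d → ℤ) : cc M (tt M h) = 0 := by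
  rw [cc_apply]
  funext i
  simp [tt_inl, tt_inr]

theorem tt_inj (M : (Fin d → ℤ) →+ (Fin d → ℤ)) : Function.Injective (tt M) := by
  intro h h' e
  funext i
  have := congrFun e (Sum.inl i)
  exact this

/-- real extension of `tt` -/
def tr (M : (Fin d → ℤ) →+ (Fin d → ℤ)) : (Fin d → ℝ) →ₗ[ℝ] EuclideanSpace ℝ (Fin d ⊕ Fin d) :=
  Fintype.linearCombination ℝ (fun i => emb (tt M (Pi.single i 1)))

theorem tr_apply (M : (Fin d → ℤ) →+ (Fin d → ℤ)) (t : Fin d → ℝ) :
    tr M t = ∑ i, t i • emb (tt M (Pi.single i 1)) := rfl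

theorem emb_sum {ι : Type} {α : Type} (s : Finset α) (f : α → ι → ℤ) :
    emb (∑ i ∈ s, f i) = ∑ i ∈ s, emb (f i) := by
  induction s using Finset.induction_on with
  | empty => simp [emb_zero]
  | insert a s ha ih => rw [Finset.sum_insert ha, Finset.sum_insert ha, emb_add, ih]

theorem emb_tt (M : (Fin d → ℤ) →+ (Fin d → ℤ)) (h : Fin d → ℤ) :
    emb (tt M h) = tr M (fun i => (h i : ℝ)) := by
  have h1 : h = ∑ i, h i • (Pi.single i (1 : ℤ) : Fin d → ℤ) := by
    funext j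
    rw [Finset.sum_apply, Finset.sum_eq_single j]
    · simp
    · intro i _ hij
      simp [Ne.symm hij]
    · simp
  rw [tr_apply]
  conv_lhs => rw [h1]
  rw [map_sum, emb_sum]
  refine Finset.sum_congr rfl fun i _ => ?_
  rw [map_zsmul, emb_zsmul]

/-- decomposition along two directions -/
theorem decomp {M M' : (Fin d → ℤ) →+ (Fin d → ℤ)} (hs : Function.Surjective (M - M')) (u : GG d) :
    ∃ h h', u = tt M h + tt M' h' := by
  obtain ⟨h, hh⟩ := hs ((fun i => u (Sum.inr i)) - M' (fun i => u (Sum.inl i)))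
  refine ⟨h, (fun i => u (Sum.inl i)) - h, ?_⟩
  funext p
  cases p with
  | inl i => simp [tt_inl]
  | inr i =>
    have h1 := congrFun hh i
    simp only [AddMonoidHom.sub_apply, Pi.sub_apply] at h1
    simp only [Pi.add_apply, tt_inr, map_sub, Pi.sub_apply]
    linarith

theorem span_emb (U : Submodule ℝ (EuclideanSpace ℝ (Fin d ⊕ Fin d))) (h : ∀ u : GG d, emb u ∈ U) : U = ⊤ := by
  rw [eq_top_iff]
  intro v _
  have : v = ∑ p, v.ofLp p • emb (Pi.single p (1 : ℤ) : GG d) := by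
    ext q
    rw [WithLp.ofLp_sum, Finset.sum_apply, Finset.sum_eq_single q]
    · simp [emb]
    · intro p _ hpq
      simp [emb, Pi.single_apply, Ne.symm hpq]
    · simp
  rw [this]
  exact U.sum_mem fun p _ => U.smul_mem _ (h _)

theorem norm_tr (M : (Fin d → ℤ) →+ (Fin d → ℤ)) : ∃ K : ℝ, 0 < K ∧ ∀ t, ‖tr M t‖ ≤ K * ‖t‖ := by
  refine ⟨‖LinearMap.toContinuousLinearMap (tr M)‖ + 1, by positivity, fun t => ?_⟩
  have h1 := (LinearMap.toContinuousLinearMap (tr M)).le_opNorm t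
  have h2 : LinearMap.toContinuousLinearMap (tr M) t = tr M t := rfl
  rw [h2] at h1
  nlinarith [norm_nonneg t]

/-- the two-dimensional comparison -/
theorem two_bound {M M' : (Fin d → ℤ) →+ (Fin d → ℤ)} (hs : Function.Surjective (M - M')) :
    ∃ K : ℝ, 0 < K ∧ ∀ t t', ‖t‖ ≤ K * ‖tr M t + tr M' t'‖ := by
  let Ψ : ((Fin d → ℝ) × (Fin d → ℝ)) →ₗ[ℝ] EuclideanSpace ℝ (Fin d ⊕ Fin d) := (tr M).coprod (tr M')
  have hsurj : Function.Surjective Ψ := by
    rw [← LinearMap.range_eq_top]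
    apply span_emb
    intro u
    obtain ⟨h, h', e⟩ := decomp hs u
    refine ⟨(fun i => (h i : ℝ), fun i => (h' i : ℝ)), ?_⟩
    rw [LinearMap.coprod_apply, e, emb_add, emb_tt, emb_tt]
  have hinj : Function.Injective Ψ := by
    refine (LinearMap.injective_iff_surjective_of_finrank_eq_finrank ?_).2 hsurj
    simp
  obtain ⟨K, hK, hanti⟩ := Ψ.exists_antilipschitzWith (LinearMap.ker_eq_bot.2 hinj)
  refine ⟨K, hK, fun t t' => ?_⟩
  have h1 := hanti.le_mul_dist (t, t') 0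
  rw [map_zero, dist_zero_right, dist_zero_right] at h1
  refine (norm_fst_le (t, t')).trans ?_
  exact h1

/-- one of two projections is large -/
theorem proj_bound {M M' : (Fin d → ℤ) →+ (Fin d → ℤ)} (hs : Function.Surjective (M - M')) :
    ∃ κ : ℝ, 0 < κ ∧ ∀ v, κ * ‖v‖ ≤ ‖(LinearMap.range (tr M)).starProjection v‖ ∨
      κ * ‖v‖ ≤ ‖(LinearMap.range (tr M')).starProjection v‖ := by
  let U := LinearMap.range (tr M)
  let U' := LinearMap.range (tr M')
  let Φ : EuclideanSpace ℝ (Fin d ⊕ Fin d) →ₗ[ℝ]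
      (EuclideanSpace ℝ (Fin d ⊕ Fin d) × EuclideanSpace ℝ (Fin d ⊕ Fin d)) :=
    (U.starProjection : _ →ₗ[ℝ] _).prod (U'.starProjection : _ →ₗ[ℝ] _)
  have htop : U ⊔ U' = ⊤ := by
    apply span_emb
    intro u
    obtain ⟨h, h', e⟩ := decomp hs u
    rw [e, emb_add, emb_tt, emb_tt]
    exact Submodule.add_mem_sup ⟨_, rfl⟩ ⟨_, rfl⟩
  have hker : LinearMap.ker Φ = ⊥ := by
    rw [LinearMap.ker_eq_bot']
    intro v hv
    have h1 : U.starProjection v = 0 := congrArg Prod.fst hv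
    have h2 : U'.starProjection v = 0 := congrArg Prod.snd hv
    have h3 : v ∈ Uᗮ := by
      have := Submodule.sub_starProjection_mem_orthogonal (K := U) v
      rwa [h1, sub_zero] at this
    have h4 : v ∈ U'ᗮ := by
      have := Submodule.sub_starProjection_mem_orthogonal (K := U') v
      rwa [h2, sub_zero] at this
    have h5 : v ∈ (U ⊔ U')ᗮ := by
      rw [← Submodule.inf_orthogonal]
      exact ⟨h3, h4⟩
    rwa [htop, Submodule.top_orthogonal_eq_bot, Submodule.mem_bot] at h5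
  obtain ⟨K, hK, hanti⟩ := Φ.exists_antilipschitzWith hker
  have hK' : (0 : ℝ) < K := hK
  refine ⟨(K : ℝ)⁻¹, inv_pos.2 hK', fun v => ?_⟩
  have h1 := hanti.le_mul_dist v 0
  rw [map_zero, dist_zero_right, dist_zero_right] at h1
  have h2 : ‖Φ v‖ = max ‖U.starProjection v‖ ‖U'.starProjection v‖ := rfl
  rw [h2] at h1
  rw [inv_mul_le_iff₀ hK', inv_mul_le_iff₀ hK']
  rcases le_total ‖U.starProjection v‖ ‖U'.starProjection v‖ with h | h
  · right
    rwa [max_eq_right h] at h1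
  · left
    rwa [max_eq_left h] at h1

/-- moving inwards along a line -/
theorem inward (M : (Fin d → ℤ) →+ (Fin d → ℤ)) (K κ r : ℝ) (hK : 0 < K) (hκ : 0 < κ) (hκ1 : κ ≤ 1)
    (hKM : ∀ t, ‖tr M t‖ ≤ K * ‖t‖) (η : ℝ) (hη : 0 < η) (hη2 : K ^ 2 * η ^ 2 ≤ κ ^ 2 / 2) (hηr : 1 ≤ η * r)
    (l : ℝ) (hl0 : 0 < l) (hl : 1 - κ ^ 2 / 2 ≤ l ^ 2)
    (u : GG d) (hu : u ∈ BR (Fin d ⊕ Fin d) r)
    (hP : κ * ‖emb u‖ ≤ ‖(LinearMap.range (tr M)).starProjection (emb u)‖) :
    η ^ d * r ^ d ≤ (#{w ∈ BR (Fin d ⊕ Fin d) (l * r) | cc M w = cc M u} : ℝ) := by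
  have hr0 : 0 < r := by
    by_contra hcon
    push Not at hcon
    nlinarith
  rw [mem_BR] at hu
  set U := LinearMap.range (tr M) with hU
  obtain ⟨t, ht⟩ : ∃ t, tr M t = U.starProjection (emb u) := Submodule.starProjection_apply_mem U (emb u)
  obtain ⟨T, hTc, hT⟩ := near (fun i => - t i) (η * r) hηr
  have hpyth : ‖emb u - U.starProjection (emb u)‖ ^ 2 = ‖emb u‖ ^ 2 - ‖U.starProjection (emb u)‖ ^ 2 := by
    have h1 : inner ℝ (U.starProjection (emb u)) (emb u - U.starProjection (emb u)) = 0 := by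
      have := Submodule.sub_starProjection_mem_orthogonal (K := U) (emb u)
      exact this _ (Submodule.starProjection_apply_mem U (emb u))
    have h2 := norm_add_sq_eq_norm_sq_add_norm_sq_real h1
    rw [add_sub_cancel] at h2
    nlinarith
  have hin : ∀ h ∈ T, u + tt M h ∈ ({w ∈ BR (Fin d ⊕ Fin d) (l * r) | cc M w = cc M u} : Finset (GG d)) := by
    intro h hh
    refine Finset.mem_filter.2 ⟨?_, by rw [map_add, cc_tt, add_zero]⟩
    rw [mem_BR]
    have e1 : emb (u + tt M h) = tr M (fun i => (h i : ℝ) + t i) + (emb u - U.starProjection (emb u)) := by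
      rw [emb_add, emb_tt, ← ht]
      have : (fun i => (h i : ℝ) + t i) = (fun i => (h i : ℝ)) + t := rfl
      rw [this, map_add]
      abel
    have h3 : ‖tr M (fun i => (h i : ℝ) + t i)‖ ≤ K * (η * r) := by
      refine (hKM _).trans ?_
      gcongr
      rw [pi_norm_le_iff_of_nonneg (by positivity)]
      intro i
      have := hT h hh i
      rw [Real.norm_eq_abs]
      rwa [sub_neg_eq_add] at this
    have h4 : inner ℝ (tr M (fun i => (h i : ℝ) + t i)) (emb u - U.starProjection (emb u)) = 0 := by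
      have := Submodule.sub_starProjection_mem_orthogonal (K := U) (emb u)
      exact this _ ⟨_, rfl⟩
    have h5 := norm_add_sq_eq_norm_sq_add_norm_sq_real h4
    rw [← e1] at h5
    have h6 : ‖emb (u + tt M h)‖ ^ 2 ≤ (l * r) ^ 2 := by
      have h7 : ‖tr M (fun i => (h i : ℝ) + t i)‖ ^ 2 ≤ (K * (η * r)) ^ 2 := by gcongr
      have h8 : (κ * ‖emb u‖) ^ 2 ≤ ‖U.starProjection (emb u)‖ ^ 2 := by gcongr
      have h9 : ‖emb u‖ ^ 2 ≤ r ^ 2 := by gcongr
      have hle : ‖U.starProjection (emb u)‖ ^ 2 ≤ ‖emb u‖ ^ 2 := by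
        have : 0 ≤ ‖emb u - U.starProjection (emb u)‖ ^ 2 := by positivity
        linarith
      have hκ2 : κ ^ 2 ≤ 1 := pow_le_one₀ hκ.le hκ1
      calc ‖emb (u + tt M h)‖ ^ 2 = ‖tr M (fun i => (h i : ℝ) + t i)‖ ^ 2 +
            ‖emb u - U.starProjection (emb u)‖ ^ 2 := by rw [pow_two, h5]; ring
        _ ≤ (K * (η * r)) ^ 2 + (‖emb u‖ ^ 2 - (κ * ‖emb u‖) ^ 2) := by rw [hpyth]; linarith
        _ = (K ^ 2 * η ^ 2) * r ^ 2 + (1 - κ ^ 2) * ‖emb u‖ ^ 2 := by ring
        _ ≤ (κ ^ 2 / 2) * r ^ 2 + (1 - κ ^ 2) * r ^ 2 := by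
            have : 0 ≤ 1 - κ ^ 2 := by linarith
            gcongr
        _ = (1 - κ ^ 2 / 2) * r ^ 2 := by ring
        _ ≤ l ^ 2 * r ^ 2 := by gcongr
        _ = (l * r) ^ 2 := by ring
    exact (sq_le_sq₀ (norm_nonneg _) (by positivity)).1 h6
  have hc : #T ≤ #({w ∈ BR (Fin d ⊕ Fin d) (l * r) | cc M w = cc M u} : Finset (GG d)) := by
    refine Finset.card_le_card_of_injOn (fun h => u + tt M h) hin ?_
    intro h _ h' _ e
    exact tt_inj M (add_left_cancel e)
  rw [Fintype.card_fin] at hTc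
  rw [← mul_pow]
  refine hTc.trans ?_
  exact_mod_cast hc

end

end Pool.Agent.N524
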