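import Mathlib

/-!
# Point–direction configurations: definitions

`Cfg`: an abstract configuration of points (a group `G`), directions `D` and, for each direction `μ`, parallel
lines of direction `μ`, parametrised by the group `G0` through `c μ : G → G0`; together with windows `W s` having
the Szemerédi property `sz` and two geometric properties `geo`.
`Rl`: a realisation over `ℤ_[2]` of the incidence pattern of the configuration on a finite set of points.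
-/

set_option autoImplicit false

namespace Pool.Agent.N524

open Finset
open scoped Classical

noncomputable section

/-- An abstract configuration. -/
structure Cfg where
  G : Type
  G0 : Type
  D : Type
  [iG : AddCommGroup G]
  [iG0 : AddCommGroup G0]
  [fD : Fintype D]
  c : D → G →+ G0
  tf : ∀ (j : ℕ) (a : G0), 1 ≤ j → j • a = 0 → a = 0
  nt : ∀ μ, ∃ u, c μ u ≠ 0
  W : ℕ → Finset G
  sz : ∀ (S : Finset G) (δ : ℝ), 0 < δ → ∃ s0 : ℕ, ∀ s ≥ s0, ∀ E ⊆ W s, δ * #(W s) ≤ #E →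
    ∃ (a : G) (j : ℕ), 1 ≤ j ∧ ∀ w ∈ S, a + j • w ∈ E
  geo : ∃ C : ℝ, 0 < C ∧ ∃ s0 : ℕ, ∀ s ≥ s0, (W s).Nonempty ∧
    (∀ μ ν, μ ≠ ν → ∀ (H : Finset G) (Y : Type) (f : G → Y), H ⊆ W s →
      (∀ u ∈ H, ∀ u' ∈ H, (c μ u = c μ u' ∨ c ν u = c ν u') → f u = f u') →
      ∃ y : Y, (#{u ∈ W s | u ∉ H ∨ f u ≠ y} : ℝ) ≤ C * #(W s \ H)) ∧
    (∀ L : D → Set G0,
      (#{u ∈ W s | 3 ≤ #{μ | c μ u ∈ L μ}} : ℝ) * #(W s) ≤ C * (#{u ∈ W s | ∃ μ, c μ u ∈ L μ} : ℝ) ^ 2)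

attribute [instance] Cfg.iG Cfg.iG0 Cfg.fD

/-- Realisation over `ℤ_[2]` of the pattern on the points `S`, directions `B`. -/
def Rl (K : Cfg) (B : Finset K.D) {ι : Type} [Fintype ι] (S : Finset K.G)
    (x : K.G → ι → ℤ_[2]) (y : K.D → K.G0 → ι → ℤ_[2]) : Prop :=
  ∀ μ ∈ B, ∀ u ∈ S, ∀ u' ∈ S, (∑ i, x u i * y μ (K.c μ u') i = 0 ↔ K.c μ u = K.c μ u')

/-- Configurations with at least `R` directions have windows not realisable in dimension `k`. -/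
def TT (k : ℕ) : Prop :=
  ∃ R : ℕ, ∀ (K : Cfg) (B : Finset K.D), R ≤ #B → ∀ (ι : Type) [Fintype ι], Fintype.card ι = k →
    ∃ S : Finset K.G, ∀ x y, ¬ Rl K B (ι := ι) S x y

/-- Reduction modulo 2 of a vector. -/
def rd {ι : Type} (v : ι → ℤ_[2]) : ι → ZMod 2 := fun i => PadicInt.toZMod (v i)

/-- `ζ` is the vector of line classes of realisations on arbitrary finite sets. -/
def Gd (K : Cfg) (B : Finset K.D) {ι : Type} [Fintype ι] (ζ : K.D → ι → ZMod 2) : Prop :=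
  (∀ m ∈ B, ζ m ≠ 0) ∧ ∀ S : Finset K.G, ∃ x y, Rl K B S x y ∧
    ∀ m ∈ B, ∀ u ∈ S, rd (y m (K.c m u)) = ζ m

/-! ### Arithmetic of `ℤ_[2]` -/

theorem toZ_eq_zero (a : ℤ_[2]) : PadicInt.toZMod a = 0 ↔ ∃ b, a = 2 * b := by
  rw [← RingHom.mem_ker, PadicInt.ker_toZMod, PadicInt.maximalIdeal_eq_span_p, Ideal.mem_span_singleton]
  exact Iff.rfl

theorem toZ_surj (z : ZMod 2) : ∃ a : ℤ_[2], PadicInt.toZMod a = z :=
  ⟨(z.val : ℤ_[2]), by rw [map_natCast, ZMod.natCast_zmod_val]⟩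

theorem two_ne : (2 : ℤ_[2]) ≠ 0 := two_ne_zero

theorem dvd_pow_iff (a : ℤ_[2]) (n : ℕ) : (2 : ℤ_[2]) ^ n ∣ a ↔ ‖a‖ ≤ (2 : ℝ) ^ (-n : ℤ) := by
  have h := PadicInt.norm_le_pow_iff_mem_span_pow (p := 2) a n
  rw [Ideal.mem_span_singleton] at h
  exact_mod_cast h.symm

theorem eq_zero_of_dvd (a : ℤ_[2]) (h : ∀ n, (2 : ℤ_[2]) ^ n ∣ a) : a = 0 := by
  have h1 : ∀ n : ℕ, ‖a‖ ≤ (1 / 2 : ℝ) ^ n := by
    intro n
    have := (dvd_pow_iff a n).1 (h n)
    rwa [zpow_neg, zpow_natCast, ← inv_pow, ← one_div] at this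
  have h2 : ‖a‖ ≤ 0 := ge_of_tendsto' (tendsto_pow_atTop_nhds_zero_of_lt_one (by norm_num) (by norm_num)) h1
  exact norm_le_zero_iff.1 h2

/-- primitive part -/
theorem prim {ι : Type} (w : ι → ℤ_[2]) (hw : w ≠ 0) :
    ∃ (n : ℕ) (z : ι → ℤ_[2]), (∀ i, w i = 2 ^ n * z i) ∧ rd z ≠ 0 := by
  obtain ⟨i0, hi0⟩ := Function.ne_iff.1 hw
  have hex : ∃ n, ¬ ∀ i, (2 : ℤ_[2]) ^ n ∣ w i := by
    by_contra hcon
    push Not at hcon
    exact hi0 (eq_zero_of_dvd _ fun n => hcon n i0)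
  have h1 := Nat.find_spec hex
  have h0 : Nat.find hex ≠ 0 := by
    intro h
    rw [h] at h1
    exact h1 fun i => by simp
  obtain ⟨n, hn⟩ := Nat.exists_eq_succ_of_ne_zero h0
  have h2 := Nat.find_min hex (m := n) (by omega)
  push Not at h2
  choose z hz using h2
  refine ⟨n, z, hz, ?_⟩
  intro hr
  rw [hn] at h1
  apply h1
  intro i
  have h3 : PadicInt.toZMod (z i) = 0 := congrFun hr i
  obtain ⟨b, hb⟩ := (toZ_eq_zero _).1 h3
  refine ⟨b, ?_⟩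
  rw [hz i, hb, Nat.succ_eq_add_one, pow_succ, mul_assoc]

theorem pow_cancel {n : ℕ} {a b : ℤ_[2]} (h : (2 : ℤ_[2]) ^ n * a = 2 ^ n * b) : a = b :=
  mul_left_cancel₀ (pow_ne_zero _ two_ne) h

/-- finite pigeonhole for directed families -/
theorem dir {X : Type*} [Finite X] {G : Type*} (Φ : Finset G → X → Prop)
    (hm : ∀ S S' x, S ⊆ S' → Φ S' x → Φ S x) (h : ∀ S, ∃ x, Φ S x) : ∃ x, ∀ S, Φ S x := by
  by_contra hcon
  push Not at hcon
  choose S hS using hcon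
  have := Fintype.ofFinite X
  obtain ⟨x, hx⟩ := h (Finset.univ.biUnion S)
  exact hS x (hm _ _ x (Finset.subset_biUnion_of_mem S (Finset.mem_univ x)) hx)

theorem Rl_mono {K : Cfg} {B : Finset K.D} {ι : Type} [Fintype ι] {S S' : Finset K.G}
    {x : K.G → ι → ℤ_[2]} {y : K.D → K.G0 → ι → ℤ_[2]} (h : S ⊆ S') (hR : Rl K B S' x y) : Rl K B S x y :=
  fun μ hμ u hu u' hu' => hR μ hμ u (h hu) u' (h hu')

theorem c_hom (K : Cfg) (m : K.D) (a w : K.G) (j : ℕ) :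
    K.c m (a + j • w) = K.c m a + j • K.c m w := by
  rw [map_add, map_nsmul]

theorem c_hom_iff (K : Cfg) (m : K.D) (a w w' : K.G) (j : ℕ) (hj : 1 ≤ j) :
    K.c m (a + j • w) = K.c m (a + j • w') ↔ K.c m w = K.c m w' := by
  rw [c_hom, c_hom, add_right_inj]
  constructor
  · intro h
    have h1 : j • (K.c m w - K.c m w') = 0 := by rw [nsmul_sub, h, sub_self]
    exact sub_eq_zero.1 (K.tf j _ hj h1)
  · intro h
    rw [h]

/-- pull back of a realisation to a homothetic copy -/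
theorem Rl_hom {K : Cfg} {B : Finset K.D} {ι : Type} [Fintype ι] {S E : Finset K.G}
    {x : K.G → ι → ℤ_[2]} {y : K.D → K.G0 → ι → ℤ_[2]} {a : K.G} {j : ℕ} (hj : 1 ≤ j)
    (hE : ∀ w ∈ S, a + j • w ∈ E) (h : Rl K B E x y) :
    Rl K B S (fun w => x (a + j • w)) (fun m t => y m (K.c m a + j • t)) := by
  intro μ hμ u hu u' hu'
  have h1 := h μ hμ _ (hE u hu) _ (hE u' hu')
  rw [c_hom_iff K μ a u u' j hj] at h1
  rw [c_hom] at h1
  exact h1

end

end Pool.Agent.N524
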