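import Mathlib

/-!
# Sign patterns: factorisations, adding rows one at a time
-/

set_option autoImplicit false

namespace Pool.Agent.N524

open Finset
open scoped Classical

noncomputable section

variable {α β : Type} [Fintype α] [Fintype β]

/-- the pattern `A` has a rational realisation that factors through dimension `r` -/
def SF (A : Matrix α β SignType) (r : ℕ) : Prop :=
  ∃ (X : α → Fin r → ℚ) (Y : Fin r → β → ℚ), ∀ i j, SignType.sign (∑ l, X i l * Y l j) = A i j

omit [Fintype α] [Fintype β] in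
theorem SF_succ {A : Matrix α β SignType} {r : ℕ} (h : SF A r) : SF A (r + 1) := by
  obtain ⟨X, Y, h⟩ := h
  refine ⟨fun i => Fin.cons 0 (X i), Fin.cons (fun _ => 0) Y, fun i j => ?_⟩
  rw [Fin.sum_univ_succ]
  simp [h]

omit [Fintype α] [Fintype β] in
theorem SF_mono {A : Matrix α β SignType} {r r' : ℕ} (hr : r ≤ r') (h : SF A r) : SF A r' := by
  induction hr with
  | refl => exact h
  | step _ ih => exact SF_succ ih

omit [Fintype α] in
theorem SF_of_rank {A : Matrix α β SignType} (B : Matrix α β ℚ) (hB : ∀ i j, SignType.sign (B i j) = A i j)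
    (r : ℕ) (hr : B.rank ≤ r) : SF A r := by
  refine SF_mono hr ?_
  let V := LinearMap.range B.mulVecLin
  have hfr : Module.finrank ℚ V = B.rank := rfl
  have : Module.Finite ℚ V := inferInstance
  let bs := Module.finBasisOfFinrankEq ℚ V hfr
  have hcol : ∀ j, (fun i => B i j) ∈ V := by
    intro j
    refine ⟨Pi.single j 1, ?_⟩
    rw [Matrix.mulVecLin_apply, Matrix.mulVec_single_one]
    rfl
  refine ⟨fun i l => (bs l : α → ℚ) i, fun l j => bs.repr ⟨_, hcol j⟩ l, fun i j => ?_⟩
  rw [← hB i j]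
  congr 1
  have h1 := bs.sum_repr ⟨_, hcol j⟩
  have h2 := congrFun (congrArg (Subtype.val) h1) i
  rw [AddSubmonoidClass.coe_finsetSum, Finset.sum_apply] at h2
  refine Eq.trans ?_ h2
  refine Finset.sum_congr rfl fun l _ => ?_
  simp [mul_comm]

omit [Fintype α] in
theorem rank_of_SF {A : Matrix α β SignType} {r : ℕ} (h : SF A r) :
    ∃ B : Matrix α β ℚ, (∀ i j, SignType.sign (B i j) = A i j) ∧ B.rank ≤ r := by
  obtain ⟨X, Y, h⟩ := h
  refine ⟨Matrix.of X * Matrix.of Y, fun i j => ?_, ?_⟩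
  · rw [← h i j]
    rfl
  · refine (Matrix.rank_mul_le_left _ _).trans ?_
    refine (Matrix.rank_le_card_width (Matrix.of X)).trans ?_
    rw [Fintype.card_fin]

/-- rows outside `T` are put equal to zero -/
def rowPat (A : Matrix α β SignType) (T : Finset α) : Matrix α β SignType :=
  fun i j => if i ∈ T then A i j else 0

omit [Fintype α] [Fintype β] in
theorem SF_insert {A : Matrix α β SignType} {T : Finset α} {r : ℕ} (a : α) (ha : a ∉ T)
    (h : SF (rowPat A T) r) : SF (rowPat A (insert a T)) (r + 1) := by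
  obtain ⟨X, Y, h⟩ := h
  refine ⟨fun i => Fin.cons (if i = a then 1 else 0) (if i = a then 0 else X i),
    Fin.cons (fun j => ((A a j : ℤ) : ℚ)) Y, fun i j => ?_⟩
  rw [Fin.sum_univ_succ]
  simp only [Fin.cons_zero, Fin.cons_succ]
  by_cases hia : i = a
  · subst hia
    simp only [if_true, one_mul, Pi.zero_apply, zero_mul, Finset.sum_const_zero, add_zero, rowPat,
      Finset.mem_insert_self]
    cases A i j <;> simp
  · simp only [if_neg hia, zero_mul, zero_add]
    rw [h i j]
    simp [rowPat, hia]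

omit [Fintype α] [Fintype β] in
theorem SF_card {A : Matrix α β SignType} (T : Finset α) : SF (rowPat A T) (#T) := by
  induction T using Finset.induction_on with
  | empty => exact ⟨fun _ _ => 0, fun _ _ => 0, fun i j => by simp [rowPat]⟩
  | insert a T ha ih =>
    rw [Finset.card_insert_of_notMem ha]
    exact SF_insert a ha ih

omit [Fintype β] in
theorem exists_T {A : Matrix α β SignType} (k : ℕ) (hk : 1 ≤ k) (hA : ¬ SF A (k - 1)) (T0 : Finset α)
    (hT0 : #T0 ≤ k) : ∃ T, T0 ⊆ T ∧ SF (rowPat A T) k ∧ ¬ SF (rowPat A T) (k - 1) := by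
  have huniv : rowPat A Finset.univ = A := by
    funext i j
    simp [rowPat]
  by_cases h : SF A k
  · exact ⟨Finset.univ, Finset.subset_univ _, by rwa [huniv], by rwa [huniv]⟩
  · by_contra hcon
    push Not at hcon
    apply h
    have key : ∀ U : Finset α, SF (rowPat A (T0 ∪ U)) k := by
      intro U
      induction U using Finset.induction_on with
      | empty => rw [Finset.union_empty]; exact SF_mono hT0 (SF_card T0)
      | insert a U ha ih =>
        rw [Finset.union_insert]
        by_cases haT : a ∈ T0 ∪ U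
        · rwa [Finset.insert_eq_of_mem haT]
        · have h1 := hcon _ Finset.subset_union_left ih
          have h2 := SF_insert a haT h1
          rwa [Nat.sub_add_cancel hk] at h2
    have := key Finset.univ
    have hu : T0 ∪ Finset.univ = Finset.univ := Finset.union_eq_right.2 (Finset.subset_univ _)
    rwa [hu, huniv] at this

omit [Fintype α] in
/-- a real matrix with a triangular 3 × 3 submatrix has rank at least three -/
theorem rank_ge_three (B : Matrix α β ℝ) (a1 a2 a3 : α) (b1 b2 b3 : β) (h11 : B a1 b1 ≠ 0) (h22 : B a2 b2 ≠ 0)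
    (h33 : B a3 b3 ≠ 0) (h21 : B a2 b1 = 0) (h31 : B a3 b1 = 0) (h32 : B a3 b2 = 0) : 3 ≤ B.rank := by
  let S : Matrix (Fin 3) (Fin 3) ℝ := B.submatrix ![a1, a2, a3] ![b1, b2, b3]
  have hdet : S.det ≠ 0 := by
    rw [Matrix.det_fin_three]
    simp only [S, Matrix.submatrix_apply, Matrix.cons_val_zero, Matrix.cons_val_one, Matrix.cons_val]
    rw [h21, h31, h32]
    simp [h11, h22, h33]
  have h1 := Matrix.rank_of_det_ne_zero hdet
  rw [Fintype.card_fin] at h1
  rw [← h1]
  exact Matrix.rank_submatrix_le _ _ _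

/-- final assembly for arbitrary index types, then for `Fin` -/
theorem assemble (k : ℕ) (hk : 3 ≤ k) (B0 : Matrix α β ℝ) (hB0 : B0.rank ≤ 3)
    (hQ : ¬ SF (fun i j => SignType.sign (B0 i j) : Matrix α β SignType) (k - 1))
    (a1 a2 a3 : α) (b1 b2 b3 : β) (h11 : B0 a1 b1 ≠ 0) (h22 : B0 a2 b2 ≠ 0)
    (h33 : B0 a3 b3 ≠ 0) (h21 : B0 a2 b1 = 0) (h31 : B0 a3 b1 = 0) (h32 : B0 a3 b2 = 0) :
    ∃ m n : ℕ, ∃ A : Matrix (Fin m) (Fin n) SignType,
      (∃ B : Matrix (Fin m) (Fin n) ℝ, (∀ i j, SignType.sign (B i j) = A i j) ∧ B.rank = 3) ∧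
      (∀ B : Matrix (Fin m) (Fin n) ℝ, (∀ i j, SignType.sign (B i j) = A i j) → 3 ≤ B.rank) ∧
      (∃ B : Matrix (Fin m) (Fin n) ℚ, (∀ i j, SignType.sign (B i j) = A i j) ∧ B.rank = k) ∧
      (∀ B : Matrix (Fin m) (Fin n) ℚ, (∀ i j, SignType.sign (B i j) = A i j) → k ≤ B.rank) := by
  set A0 : Matrix α β SignType := fun i j => SignType.sign (B0 i j) with hA0
  obtain ⟨T, hT0, hSF, hnSF⟩ := exists_T k (by omega) hQ {a1, a2, a3} (Finset.card_le_three.trans hk)
  have ha1 : a1 ∈ T := hT0 (by simp)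
  have ha2 : a2 ∈ T := hT0 (by simp)
  have ha3 : a3 ∈ T := hT0 (by simp)
  set A := rowPat A0 T with hA
  -- lower bound for real matrices
  have hlow : ∀ B : Matrix α β ℝ, (∀ i j, SignType.sign (B i j) = A i j) → 3 ≤ B.rank := by
    intro B hB
    have hne : ∀ i ∈ T, ∀ j, B0 i j ≠ 0 → B i j ≠ 0 := by
      intro i hi j h0 h1
      have h2 := hB i j
      rw [h1, sign_zero, hA, rowPat, if_pos hi, hA0] at h2
      exact h0 (sign_eq_zero_iff.1 h2.symm)
    have heq : ∀ i ∈ T, ∀ j, B0 i j = 0 → B i j = 0 := by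
      intro i hi j h0
      have h2 := hB i j
      rw [hA, rowPat, if_pos hi, hA0] at h2
      simp only [h0, sign_zero] at h2
      exact sign_eq_zero_iff.1 h2
    exact rank_ge_three B a1 a2 a3 b1 b2 b3 (hne _ ha1 _ h11) (hne _ ha2 _ h22) (hne _ ha3 _ h33)
      (heq _ ha2 _ h21) (heq _ ha3 _ h31) (heq _ ha3 _ h32)
  -- the real matrix
  let B1 : Matrix α β ℝ := Matrix.diagonal (fun i => if i ∈ T then (1 : ℝ) else 0) * B0
  have hB1 : ∀ i j, SignType.sign (B1 i j) = A i j := by
    intro i j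
    simp only [B1, Matrix.diagonal_mul, hA, rowPat, hA0]
    by_cases hi : i ∈ T
    · simp [hi]
    · simp [hi]
  have hB1r : B1.rank = 3 := by
    refine le_antisymm ?_ (hlow B1 hB1)
    exact (Matrix.rank_mul_le_right _ _).trans hB0
  have hlowQ : ∀ B : Matrix α β ℚ, (∀ i j, SignType.sign (B i j) = A i j) → k ≤ B.rank := by
    intro B hB
    by_contra hcon
    exact hnSF (SF_of_rank B hB _ (by omega))
  obtain ⟨B2, hB2, hB2r⟩ := rank_of_SF hSF
  have hB2r' : B2.rank = k := le_antisymm hB2r (hlowQ B2 hB2)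
  let e := Fintype.equivFin α
  let f := Fintype.equivFin β
  refine ⟨Fintype.card α, Fintype.card β, A.submatrix e.symm f.symm, ⟨B1.submatrix e.symm f.symm, ?_, ?_⟩, ?_,
    ⟨B2.submatrix e.symm f.symm, ?_, ?_⟩, ?_⟩
  · intro i j
    exact hB1 _ _
  · rw [Matrix.rank_submatrix, hB1r]
  · intro B hB
    rw [← Matrix.rank_submatrix B e f]
    refine hlow _ fun i j => ?_
    rw [Matrix.submatrix_apply, hB, Matrix.submatrix_apply, e.symm_apply_apply, f.symm_apply_apply]
  · intro i j
    exact hB2 _ _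
  · rw [Matrix.rank_submatrix, hB2r']
  · intro B hB
    rw [← Matrix.rank_submatrix B e f]
    refine hlowQ _ fun i j => ?_
    rw [Matrix.submatrix_apply, hB, Matrix.submatrix_apply, e.symm_apply_apply, f.symm_apply_apply]

end

end Pool.Agent.N524
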