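import Mathlib

/-!
# Many directions whose differences are units
-/

set_option autoImplicit false

namespace Pool.Agent.N524

open Finset Polynomial

theorem next_root (R : ℕ) (r : ℕ → ℝ) (hint : ∀ i < R, IsIntegral ℤ (r i)) :
    ∃ x : ℝ, IsIntegral ℤ x ∧ (1 ≤ R → ∏ i ∈ range R, (x - r i) = 1) := by
  rcases Nat.eq_zero_or_pos R with rfl | hR
  · exact ⟨0, isIntegral_zero, fun h => absurd h (by omega)⟩
  · obtain ⟨m, hm, hmax⟩ := Finset.exists_max_image (range R) r ⟨0, Finset.mem_range.2 hR⟩
    have hcont : ContinuousOn (fun x : ℝ => ∏ i ∈ range R, (x - r i)) (Set.Icc (r m) (r m + 1)) := by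
      apply Continuous.continuousOn
      exact continuous_finsetProd _ fun i _ => continuous_id.sub continuous_const
    have hivt := intermediate_value_Icc (by linarith : r m ≤ r m + 1) hcont
    have h0 : ∏ i ∈ range R, (r m - r i) = 0 := Finset.prod_eq_zero hm (sub_self _)
    have h1 : 1 ≤ ∏ i ∈ range R, (r m + 1 - r i) := by
      have : ∏ i ∈ range R, (1 : ℝ) ≤ ∏ i ∈ range R, (r m + 1 - r i) := by
        refine Finset.prod_le_prod (fun _ _ => zero_le_one) fun i hi => ?_
        have := hmax i hi
        linarith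
      simpa using this
    obtain ⟨x, hx, hx1⟩ := hivt ⟨by simp only [h0]; norm_num, h1⟩
    have hx1' : ∏ i ∈ range R, (x - r i) = 1 := hx1
    refine ⟨x, ?_, fun _ => hx1'⟩
    let S := integralClosure ℤ ℝ
    have hS : ∀ i : ℕ, ∃ y : S, i < R → (y : ℝ) = r i := by
      intro i
      by_cases hi : i < R
      · exact ⟨⟨r i, hint i hi⟩, fun _ => rfl⟩
      · exact ⟨0, fun h => absurd h hi⟩
    choose y hy using hS
    have hmon : (∏ i ∈ range R, (X - C (y i)) - 1 : S[X]).Monic := by
      apply Monic.sub_of_left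
      · exact monic_prod_of_monic _ _ fun i _ => monic_X_sub_C _
      · rw [degree_prod_of_monic _ _ fun i _ => monic_X_sub_C _]
        simp only [degree_X_sub_C, degree_one, Finset.sum_const, Finset.card_range, nsmul_eq_mul, mul_one]
        exact_mod_cast hR
    have hxS : IsIntegral S x := by
      refine ⟨_, hmon, ?_⟩
      have h2 : Polynomial.eval₂ (algebraMap S ℝ) x (∏ i ∈ range R, (X - C (y i)) - 1 : S[X]) =
          ∏ i ∈ range R, (x - r i) - 1 := by
        rw [eval₂_sub, eval₂_finsetProd, eval₂_one]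
        congr 1
        refine Finset.prod_congr rfl fun i hi => ?_
        rw [eval₂_sub, eval₂_X, eval₂_C, ← hy i (Finset.mem_range.1 hi)]
        rfl
      rw [h2, hx1', sub_self]
    exact isIntegral_trans x hxS

theorem exists_seq (R : ℕ) : ∃ r : ℕ → ℝ, (∀ i < R, IsIntegral ℤ (r i)) ∧
    ∀ j < R, 1 ≤ j → ∏ i ∈ range j, (r j - r i) = 1 := by
  induction R with
  | zero => exact ⟨0, fun i h => absurd h (by omega), fun i h => absurd h (by omega)⟩
  | succ R ih =>
    obtain ⟨r, h1, h2⟩ := ih
    obtain ⟨x, hx, hx1⟩ := next_root R r h1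
    refine ⟨Function.update r R x, ?_, ?_⟩
    · intro i hi
      by_cases h : i = R
      · subst h; rw [Function.update_self]; exact hx
      · rw [Function.update_of_ne h]; exact h1 i (by omega)
    · intro j hj hj1
      by_cases h : j = R
      · subst h
        rw [← hx1 hj1]
        refine Finset.prod_congr rfl fun i hi => ?_
        rw [Function.update_self, Function.update_of_ne (by have := Finset.mem_range.1 hi; omega)]
      · rw [← h2 j (by omega) hj1]
        refine Finset.prod_congr rfl fun i hi => ?_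
        rw [Function.update_of_ne h, Function.update_of_ne (by have := Finset.mem_range.1 hi; omega)]

theorem exists_dirs (R : ℕ) : ∃ (d : ℕ) (M : Fin R → ((Fin d → ℤ) →+ (Fin d → ℤ))) (r : Fin R → ℝ)
    (φ : (Fin d → ℤ) →+ ℝ), 0 < d ∧ (∀ μ ν, μ ≠ ν → Function.Bijective (M μ - M ν)) ∧
    Function.Injective φ ∧ ∀ μ h, φ (M μ h) = r μ * φ h := by
  obtain ⟨r, hint, hprod⟩ := exists_seq R
  let A : Subalgebra ℤ ℝ := Algebra.adjoin ℤ (Set.range (fun i : Fin R => r i))
  have hfg : (Subalgebra.toSubmodule A).FG := by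
    apply fg_adjoin_of_finite (Set.finite_range _)
    rintro _ ⟨i, rfl⟩
    exact hint i i.2
  have hfin : Module.Finite ℤ A := Module.Finite.iff_fg.2 hfg
  have hfree : Module.Free ℤ A := inferInstance
  let b := Module.finBasis ℤ A
  let e : A ≃ₗ[ℤ] (Fin (Module.finrank ℤ A) → ℤ) := b.equivFun
  have hrA : ∀ i : Fin R, r i ∈ A := fun i => Algebra.subset_adjoin ⟨i, rfl⟩
  let rA : Fin R → A := fun i => ⟨r i, hrA i⟩
  have hunit : ∀ i j : Fin R, i ≠ j → IsUnit (rA i - rA j) := by
    have key : ∀ i j : Fin R, i < j → IsUnit (rA j - rA i) := by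
      intro i j hij
      have h1 : ∀ l : ℕ, ∃ y : A, l < R → (y : ℝ) = r l := by
        intro l
        by_cases hl : l < R
        · exact ⟨rA ⟨l, hl⟩, fun _ => rfl⟩
        · exact ⟨0, fun h => absurd h hl⟩
      choose y hy using h1
      have h2 : ∏ l ∈ range j, (rA j - y l) = 1 := by
        apply Subtype.ext
        have h3 := hprod j j.2 (by have : (i : ℕ) < j := hij; omega)
        rw [SubmonoidClass.coe_finsetProd]
        refine Eq.trans ?_ h3
        refine Finset.prod_congr rfl fun l hl => ?_
        have := Finset.mem_range.1 hl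
        have := j.2
        rw [← hy l (by omega)]
        rfl
      have h4 : rA i = y i := Subtype.ext (hy i i.2).symm
      rw [h4]
      exact isUnit_of_dvd_one (h2 ▸ Finset.dvd_prod_of_mem _ (Finset.mem_range.2 hij))
    intro i j hij
    rcases lt_or_gt_of_ne hij with h | h
    · rw [← neg_sub]
      exact (key i j h).neg
    · exact key j i h
  let mulL : A → (A →+ A) := fun x => AddMonoidHom.mulLeft x
  refine ⟨Module.finrank ℤ A, fun μ => (e.toLinearMap.toAddMonoidHom.comp (AddMonoidHom.mulLeft (rA μ))).comp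
    e.symm.toLinearMap.toAddMonoidHom, fun μ => r μ,
    (A.val.toLinearMap.toAddMonoidHom).comp e.symm.toLinearMap.toAddMonoidHom, ?_, ?_, ?_, ?_⟩
  · have : Nontrivial A := inferInstance
    exact Module.finrank_pos
  · intro μ ν hμν
    have h1 : ∀ h, ((e.toLinearMap.toAddMonoidHom.comp (AddMonoidHom.mulLeft (rA μ))).comp
        e.symm.toLinearMap.toAddMonoidHom - (e.toLinearMap.toAddMonoidHom.comp
        (AddMonoidHom.mulLeft (rA ν))).comp e.symm.toLinearMap.toAddMonoidHom) h =
        e ((rA μ - rA ν) * e.symm h) := by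
      intro h
      rw [sub_mul, map_sub]
      rfl
    obtain ⟨v, hv⟩ := hunit μ ν hμν
    constructor
    · intro h h' heq
      rw [h1, h1] at heq
      have h2 := e.injective heq
      rw [← hv] at h2
      exact e.symm.injective (v.isUnit.mul_left_cancel h2)
    · intro c
      refine ⟨e ((↑v⁻¹ : A) * e.symm c), ?_⟩
      rw [h1, e.symm_apply_apply, ← hv, ← mul_assoc, Units.mul_inv, one_mul, e.apply_symm_apply]
  · intro h h' heq
    exact e.symm.injective (Subtype.ext heq)
  · intro μ h
    show ((e.symm (e (rA μ * e.symm h)) : A) : ℝ) = r μ * ((e.symm h : A) : ℝ)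
    rw [e.symm_apply_apply]
    rfl

end Pool.Agent.N524
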