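import Pool.Agent.N524.Mk
import Pool.Agent.N524.Num
import Pool.Agent.N524.Fac

/-!
# Final assembly
-/

set_option autoImplicit false

namespace Pool.Agent.N524

open Finset
open scoped Classical

noncomputable section

/-- windows that are not realisable, in concrete terms -/
theorem window (k : ℕ) : ∃ R : ℕ, ∀ (n : ℕ), R ≤ n → ∀ (d : ℕ) (hd : 0 < d)
    (M : Fin n → ((Fin d → ℤ) →+ (Fin d → ℤ))), (∀ μ ν, μ ≠ ν → Function.Bijective (M μ - M ν)) →
    ∃ S : Finset (GG d), ∀ (x : GG d → Fin k → ℤ_[2]) (y : Fin n → (Fin d → ℤ) → Fin k → ℤ_[2]),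
      ¬ ∀ μ, ∀ u ∈ S, ∀ u' ∈ S, (∑ i, x u i * y μ (cc (M μ) u') i = 0 ↔ cc (M μ) u = cc (M μ) u') := by
  obtain ⟨R, hR⟩ := main_T k
  refine ⟨R, fun n hn d hd M hM => ?_⟩
  have hc : R ≤ #(Finset.univ : Finset (Fin n)) := by
    rw [Finset.card_univ, Fintype.card_fin]
    exact hn
  obtain ⟨S, hS⟩ := hR (mkCfg hd (Fin n) M hM) (Finset.univ : Finset (Fin n)) hc (Fin k) (Fintype.card_fin k)
  exact ⟨S, fun x y h => hS x y fun μ _ => h μ⟩

/-- clearing denominators -/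
theorem clear_den {n : ℕ} (v : Fin n → ℚ) : ∃ (N : ℤ) (w : Fin n → ℤ), N ≠ 0 ∧ ∀ l, (w l : ℚ) = N * v l := by
  refine ⟨∏ i, ((v i).den : ℤ), fun l => (v l).num * ∏ i ∈ Finset.univ.erase l, ((v i).den : ℤ), ?_, ?_⟩
  · rw [Finset.prod_ne_zero_iff]
    intro i _
    exact_mod_cast (v i).den_nz
  · intro l
    rw [← Finset.mul_prod_erase _ _ (Finset.mem_univ l)]
    push_cast
    have h1 : (v l) * ((v l).den : ℚ) = (v l).num := Rat.mul_den_eq_num (v l)
    rw [← h1]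
    ring

theorem final (k : ℕ) (hk : 4 ≤ k) : ∃ m n : ℕ, ∃ A : Matrix (Fin m) (Fin n) SignType,
      (∃ B : Matrix (Fin m) (Fin n) ℝ, (∀ i j, SignType.sign (B i j) = A i j) ∧ B.rank = 3) ∧
      (∀ B : Matrix (Fin m) (Fin n) ℝ, (∀ i j, SignType.sign (B i j) = A i j) → 3 ≤ B.rank) ∧
      (∃ B : Matrix (Fin m) (Fin n) ℚ, (∀ i j, SignType.sign (B i j) = A i j) ∧ B.rank = k) ∧
      (∀ B : Matrix (Fin m) (Fin n) ℚ, (∀ i j, SignType.sign (B i j) = A i j) → k ≤ B.rank) := by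
  obtain ⟨R, hR⟩ := window (k - 1)
  obtain ⟨d, M, r, φ, hd, hM, hφ, hφM⟩ := exists_dirs (R + 2)
  obtain ⟨S0, hS0⟩ := hR (R + 2) (by omega) d hd M hM
  let μ : Fin (R + 2) := ⟨0, by omega⟩
  let ν : Fin (R + 2) := ⟨1, by omega⟩
  have hμν : μ ≠ ν := by
    intro h
    have := congrArg Fin.val h
    simp [μ, ν] at this
  let h0 : Fin d → ℤ := fun _ => 1
  have hh0 : h0 ≠ 0 := by
    intro h
    have := congrFun h ⟨0, hd⟩
    simp [h0] at this
  have hcross : ∀ a b : Fin (R + 2), a ≠ b → cc (M a) (tt (M b) h0) ≠ 0 := by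
    intro a b hab h
    apply hh0
    apply (hM b a hab.symm).1
    rw [map_zero, AddMonoidHom.sub_apply]
    exact h
  set u1 : GG d := tt (M ν) h0 with hu1
  set u2 : GG d := tt (M μ) h0 with hu2
  set S : Finset (GG d) := S0 ∪ {0, u1, u2} with hS
  have h0S : (0 : GG d) ∈ S := Finset.mem_union_right _ (by simp)
  have h1S : u1 ∈ S := Finset.mem_union_right _ (by simp)
  have h2S : u2 ∈ S := Finset.mem_union_right _ (by simp)
  let B0 : Matrix S (Fin (R + 2) × S) ℝ := fun u p =>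
    φ (cc (M p.1) (u : GG d)) - φ (cc (M p.1) (p.2 : GG d))
  have hB0 : ∀ u p, B0 u p = φ (cc (M p.1) (u : GG d)) - φ (cc (M p.1) (p.2 : GG d)) := fun _ _ => rfl
  refine assemble k (by omega) B0 ?_ ?_ ⟨u1, h1S⟩ ⟨u2, h2S⟩ ⟨0, h0S⟩ (μ, ⟨0, h0S⟩) (ν, ⟨0, h0S⟩)
    (μ, ⟨u1, h1S⟩) ?_ ?_ ?_ ?_ ?_ ?_
  · -- rank at most three
    let X : Matrix S (Fin 3) ℝ := fun u =>
      ![φ (fun i => (u : GG d) (Sum.inr i)), φ (fun i => (u : GG d) (Sum.inl i)), 1]
    let Y : Matrix (Fin 3) (Fin (R + 2) × S) ℝ := fun l p =>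
      (![1, - r p.1, - φ (cc (M p.1) (p.2 : GG d))] : Fin 3 → ℝ) l
    have hXY : B0 = X * Y := by
      funext u p
      rw [Matrix.mul_apply, Fin.sum_univ_three]
      simp only [X, Y, Matrix.cons_val_zero, Matrix.cons_val_one, Matrix.cons_val]
      rw [hB0, cc_apply (M p.1) (u : GG d), map_sub, hφM]
      ring
    rw [hXY]
    refine (Matrix.rank_mul_le_left _ _).trans ((Matrix.rank_le_card_width X).trans ?_)
    rw [Fintype.card_fin]
  · -- no rational realisation of small rank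
    rintro ⟨X, Y, hXY⟩
    choose Nx wx hNx hwx using fun u : S => clear_den (X u)
    choose Ny wy hNy hwy using fun p : Fin (R + 2) × S => clear_den (fun l => Y l p)
    have hrep : ∀ (m : Fin (R + 2)) (t : Fin d → ℤ), ∃ u : S, (∃ v : S, cc (M m) (v : GG d) = t) →
        cc (M m) (u : GG d) = t := by
      intro m t
      by_cases h : ∃ v : S, cc (M m) (v : GG d) = t
      · obtain ⟨v, hv⟩ := h
        exact ⟨v, fun _ => hv⟩
      · exact ⟨⟨0, h0S⟩, fun h' => absurd h' h⟩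
    choose rep hrep using hrep
    refine hS0 (fun u l => if h : u ∈ S then ((wx ⟨u, h⟩ l : ℤ) : ℤ_[2]) else 0)
      (fun m t l => ((wy (m, rep m t) l : ℤ) : ℤ_[2])) ?_
    intro m u hu u' hu'
    have huS : u ∈ S := Finset.mem_union_left _ hu
    have hu'S : u' ∈ S := Finset.mem_union_left _ hu'
    have hrep' := hrep m (cc (M m) u') ⟨⟨u', hu'S⟩, rfl⟩
    set v : S := rep m (cc (M m) u') with hv
    have h1 : (∑ l, (if h : u ∈ S then ((wx ⟨u, h⟩ l : ℤ) : ℤ_[2]) else 0) * ((wy (m, v) l : ℤ) : ℤ_[2])) =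
        ((∑ l, wx ⟨u, huS⟩ l * wy (m, v) l : ℤ) : ℤ_[2]) := by
      push_cast
      refine Finset.sum_congr rfl fun l _ => ?_
      rw [dif_pos huS]
    have h2 : ((∑ l, wx ⟨u, huS⟩ l * wy (m, v) l : ℤ) : ℚ) =
        (Nx ⟨u, huS⟩ * Ny (m, v)) * ∑ l, X ⟨u, huS⟩ l * Y l (m, v) := by
      push_cast
      rw [Finset.mul_sum]
      refine Finset.sum_congr rfl fun l _ => ?_
      rw [hwx, hwy]
      ring
    have h3 := hXY ⟨u, huS⟩ (m, v)
    rw [h1]
    have h4 : (((∑ l, wx ⟨u, huS⟩ l * wy (m, v) l : ℤ) : ℤ_[2]) = 0) ↔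
        (∑ l, X ⟨u, huS⟩ l * Y l (m, v)) = 0 := by
      rw [Int.cast_eq_zero, ← Int.cast_eq_zero (α := ℚ), h2, mul_eq_zero]
      have : ((Nx ⟨u, huS⟩ : ℚ) * (Ny (m, v) : ℚ)) ≠ 0 :=
        mul_ne_zero (by exact_mod_cast hNx _) (by exact_mod_cast hNy _)
      simp [this]
    rw [h4]
    have h5 : (∑ l, X ⟨u, huS⟩ l * Y l (m, v)) = 0 ↔ B0 ⟨u, huS⟩ (m, v) = 0 := by
      rw [← sign_eq_zero_iff, h3, sign_eq_zero_iff]
    rw [h5, hB0, sub_eq_zero]
    constructor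
    · intro h
      have h6 := hφ h
      rw [hrep'] at h6
      exact h6
    · intro h
      show φ (cc (M m) u) = φ (cc (M m) (v : GG d))
      rw [hrep', h]
  · rw [hB0]
    simp only [map_zero, sub_zero]
    exact fun h => hcross μ ν hμν (hφ (by rw [h, map_zero]))
  · rw [hB0]
    simp only [map_zero, sub_zero]
    exact fun h => hcross ν μ hμν.symm (hφ (by rw [h, map_zero]))
  · rw [hB0]
    simp only [map_zero, zero_sub, neg_ne_zero]
    exact fun h => hcross μ ν hμν (hφ (by rw [h, map_zero]))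
  · rw [hB0]
    simp only [map_zero, sub_zero, hu2, cc_tt]
  · rw [hB0]
    simp only [sub_self]
  · rw [hB0]
    simp only [sub_self]

end

end Pool.Agent.N524
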