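import Pool.Agent.N524.Lin

/-!
# The induction: `TT k` for all `k`
-/

set_option autoImplicit false

namespace Pool.Agent.N524

open Finset Module
open scoped Classical

noncomputable section

/-- existence of a good vector of classes -/
theorem exists_Gd (K : Cfg) (B : Finset K.D) {ι : Type} [Fintype ι]
    (h : ∀ S : Finset K.G, ∃ (x : K.G → ι → ℤ_[2]) (y : K.D → K.G0 → ι → ℤ_[2]), Rl K B S x y) :
    ∃ ζ : K.D → ι → ZMod 2, Gd K B ζ := by
  choose um hum using K.nt
  have hgoal : ∀ S : Finset K.G, ∃ ζ : K.D → ι → ZMod 2, (∀ m ∈ B, ζ m ≠ 0) ∧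
      ∃ x y, Rl K B S x y ∧ ∀ m ∈ B, ∀ u ∈ S, rd (y m (K.c m u)) = ζ m := by
    intro S
    set Q : ℝ := ((Fintype.card (K.D → ι → ZMod 2) : ℕ) : ℝ) with hQ
    have hQ0 : 0 < Q := by rw [hQ]; exact_mod_cast Fintype.card_pos
    obtain ⟨C, hC, s1, hgeo⟩ := K.geo
    obtain ⟨s2, hs2⟩ := K.sz S (1 / Q) (by positivity)
    set s : ℕ := max s1 s2 with hs
    have hs1' : s1 ≤ s := le_max_left _ _
    have hs2' : s2 ≤ s := le_max_right _ _
    obtain ⟨hW, -, -⟩ := hgeo s hs1'
    set W := K.W s with hWdef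
    have hWpos : (0 : ℝ) < #W := by exact_mod_cast hW.card_pos
    set W' : Finset K.G := W ∪ (W ×ˢ (Finset.univ : Finset K.D)).image (fun p => p.1 + um p.2) with hW'
    obtain ⟨x, y, hR⟩ := h W'
    have hWW' : W ⊆ W' := Finset.subset_union_left
    have hy0 : ∀ m ∈ B, ∀ u ∈ W, y m (K.c m u) ≠ 0 := by
      intro m hm u hu h0
      have hu' : u + um m ∈ W' := by
        rw [hW']
        exact Finset.mem_union_right _ (Finset.mem_image.2
          ⟨(u, m), Finset.mem_product.2 ⟨hu, Finset.mem_univ _⟩, rfl⟩)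
      have h1 := (hR m hm _ hu' u (hWW' hu)).1 (by rw [h0]; simp)
      rw [map_add, add_eq_left] at h1
      exact hum m h1
    have hz : ∀ (m : K.D) (t : K.G0), ∃ (a : ℕ) (z : ι → ℤ_[2]), y m t ≠ 0 →
        (∀ i, y m t i = 2 ^ a * z i) ∧ rd z ≠ 0 := by
      intro m t
      by_cases hmt : y m t ≠ 0
      · obtain ⟨a, z, h1, h2⟩ := prim _ hmt
        exact ⟨a, z, fun _ => ⟨h1, h2⟩⟩
      · exact ⟨0, 0, fun h1 => absurd h1 hmt⟩
    choose ae z hz using hz
    obtain ⟨κ, _, hκ⟩ := Finset.exists_le_card_fiber_of_nsmul_le_card_of_maps_to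
      (s := W) (t := (Finset.univ : Finset (K.D → ι → ZMod 2)))
      (f := fun u m => rd (z m (K.c m u))) (b := (#W : ℝ) / Q) (fun _ _ => Finset.mem_univ _)
      Finset.univ_nonempty (by
        rw [Finset.card_univ, nsmul_eq_mul]
        show Q * _ ≤ _
        rw [mul_div_cancel₀ _ hQ0.ne'])
    set E' : Finset K.G := {u ∈ W | (fun m => rd (z m (K.c m u))) = κ} with hE'
    have hE'c : 1 / Q * #W ≤ #E' := by
      refine le_trans (le_of_eq ?_) hκ
      rw [one_div, inv_mul_eq_div]
    obtain ⟨a, j, hj, hw⟩ := hs2 s hs2' E' (Finset.filter_subset _ _) hE'c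
    have hE'ne : E'.Nonempty := by
      rw [← Finset.card_pos]
      have : (0 : ℝ) < #E' := lt_of_lt_of_le (by positivity) hE'c
      exact_mod_cast this
    obtain ⟨u0, hu0⟩ := hE'ne
    have hspec : ∀ u ∈ E', u ∈ W ∧ ∀ m, rd (z m (K.c m u)) = κ m := by
      intro u hu
      obtain ⟨h1, h2⟩ := Finset.mem_filter.1 hu
      exact ⟨h1, fun m => congrFun h2 m⟩
    refine ⟨κ, ?_, fun w => x (a + j • w), fun m t => z m (K.c m a + j • t), ?_, ?_⟩
    · intro m hm
      obtain ⟨h1, h2⟩ := hspec u0 hu0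
      rw [← h2 m]
      exact (hz m _ (hy0 m hm u0 h1)).2
    · have hR' : Rl K B W x z := by
        intro μ hμ u hu u' hu'
        rw [← hR μ hμ u (hWW' hu) u' (hWW' hu')]
        have h1 := (hz μ _ (hy0 μ hμ u' hu')).1
        have h2 : ∑ i, x u i * y μ (K.c μ u') i = 2 ^ (ae μ (K.c μ u')) * ∑ i, x u i * z μ (K.c μ u') i := by
          rw [Finset.mul_sum]
          refine Finset.sum_congr rfl fun i _ => ?_
          rw [h1 i]
          ring
        rw [h2]
        constructor
        · intro h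
          rw [h, mul_zero]
        · intro h
          exact (mul_eq_zero.1 h).resolve_left (pow_ne_zero _ two_ne)
      exact Rl_hom hj (fun w hw' => (hspec _ (hw w hw')).1) hR'
    · intro m hm u hu
      show rd (z m (K.c m a + j • K.c m u)) = κ m
      rw [← c_hom]
      exact (hspec _ (hw u hu)).2 m
  obtain ⟨ζ, hζ⟩ := dir (X := K.D → ι → ZMod 2) (G := K.G) _ (by
    rintro S S' ζ hSS ⟨h1, x, y, h6, h7⟩
    exact ⟨h1, x, y, Rl_mono hSS h6, fun m hm u hu => h7 m hm u (hSS hu)⟩) hgoal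
  exact ⟨ζ, (hζ ∅).1, fun S => (hζ S).2⟩

/-- the final contradiction: the classes of the lines cannot span -/
theorem no_full (K : Cfg) (B : Finset K.D) {ι : Type} [Fintype ι] [Nonempty ι] (ζ : K.D → ι → ZMod 2)
    (hζ : Gd K B ζ) (s : ℕ) (hs : 1 ≤ s) (h : Fintype.card ι ≤ finrank (ZMod 2) (Ns B ζ s)) : False := by
  have htop : Ns B ζ s = ⊤ := by
    apply Submodule.eq_top_of_finrank_eq
    refine le_antisymm (Submodule.finrank_le _) ?_
    rw [Module.finrank_fintype_fun_eq_card]
    exact h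
  have hle : Ns B ζ s ≤ Submodule.span (ZMod 2) (ζ '' (B : Set K.D)) := by
    refine Submodule.span_mono fun θ hθ => ?_
    have h1 : s ≤ #{m ∈ B | ζ m = θ} := hθ
    obtain ⟨m, hm⟩ : ({m ∈ B | ζ m = θ} : Finset K.D).Nonempty := by
      rw [← Finset.card_pos]; omega
    obtain ⟨h2, h3⟩ := Finset.mem_filter.1 hm
    exact ⟨m, h2, h3⟩
  rw [htop] at hle
  have hBne : B.Nonempty := by
    by_contra hB
    rw [Finset.not_nonempty_iff_eq_empty] at hB
    rw [hB] at hle
    simp only [Finset.coe_empty, Set.image_empty, Submodule.span_empty] at hle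
    have h1 : (1 : ι → ZMod 2) ∈ (⊥ : Submodule (ZMod 2) (ι → ZMod 2)) := hle Submodule.mem_top
    rw [Submodule.mem_bot] at h1
    obtain ⟨i⟩ := ‹Nonempty ι›
    exact one_ne_zero (congrFun h1 i)
  obtain ⟨m, hm⟩ := hBne
  obtain ⟨u, hu⟩ := K.nt m
  obtain ⟨x, y, hR, hy⟩ := hζ.2 {0, u}
  have hx0 : x 0 ≠ 0 := by
    intro h0
    have h1 := (hR m hm 0 (by simp) u (by simp)).1 (by rw [h0]; simp)
    rw [map_zero] at h1
    exact hu h1.symm
  obtain ⟨n, z, hz, hz0⟩ := prim _ hx0
  apply hz0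
  let φ : (ι → ZMod 2) →ₗ[ZMod 2] ZMod 2 := ∑ i, rd z i • LinearMap.proj i
  have hφ : ∀ v, φ v = ∑ i, rd z i * v i := by
    intro v
    simp [φ]
  have h1 : ∀ m ∈ B, φ (ζ m) = 0 := by
    intro m hm
    have h2 := (hR m hm 0 (by simp) 0 (by simp)).2 rfl
    have h3 : ∑ i, z i * y m (K.c m 0) i = 0 := by
      have h4 : (2 : ℤ_[2]) ^ n * ∑ i, z i * y m (K.c m 0) i = 0 := by
        rw [← h2, Finset.mul_sum]
        refine Finset.sum_congr rfl fun i _ => ?_
        rw [hz i]
        ring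
      exact (mul_eq_zero.1 h4).resolve_left (pow_ne_zero _ two_ne)
    have h5 : ∑ i, PadicInt.toZMod (z i * y m (K.c m 0) i) = 0 := by
      rw [← map_sum, h3, map_zero]
    rw [hφ, ← h5]
    refine Finset.sum_congr rfl fun i _ => ?_
    rw [map_mul, ← hy m hm 0 (by simp)]
    rfl
  have h2 : ∀ v, φ v = 0 := by
    intro v
    have hv := hle (Submodule.mem_top (x := v))
    induction hv using Submodule.span_induction with
    | mem θ hθ =>
      obtain ⟨m, hm, rfl⟩ := hθ
      exact h1 m hm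
    | zero => exact map_zero _
    | add v w _ _ hv hw => rw [map_add, hv, hw, add_zero]
    | smul r v _ hv => rw [map_smul, hv, smul_zero]
  funext i
  have h3 := h2 (Pi.single i 1)
  rw [hφ, Finset.sum_eq_single i] at h3
  · simpa using h3
  · intro l _ hl
    simp [hl]
  · intro h
    exact absurd (Finset.mem_univ i) h

/-- Auxiliary statement. -/
def PP (k n : ℕ) : Prop :=
  ∃ s : ℕ, 1 ≤ s ∧ ∀ (K : Cfg) (B : Finset K.D) (ι : Type) [Fintype ι], Fintype.card ι = k →
    ∀ ζ : K.D → ι → ZMod 2, Gd K B ζ → n ≤ finrank (ZMod 2) (Ns B ζ s) → False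

theorem PP_top (k : ℕ) (hk : 1 ≤ k) : PP k k := by
  refine ⟨1, le_refl _, ?_⟩
  intro K B ι _ hι ζ hζ hn
  have : Nonempty ι := by
    rw [← Fintype.card_pos_iff]
    omega
  exact no_full K B ζ hζ 1 le_rfl (by rw [hι]; exact hn)

theorem PP_step (k n : ℕ) (hn : 1 ≤ n) (hTn : TT n) (h : PP k (n + 1)) : PP k n := by
  obtain ⟨t, ht1, ht⟩ := h
  obtain ⟨R, hRn⟩ := hTn
  set q : ℕ := 2 ^ k with hq
  set β : ℕ := q * t with hβ
  have key : ∀ j : ℕ, ∃ s : ℕ, t ≤ s ∧ ∀ (K : Cfg) (B : Finset K.D) (ι : Type) [Fintype ι],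
      Fintype.card ι = k → ∀ ζ : K.D → ι → ZMod 2, Gd K B ζ → n ≤ finrank (ZMod 2) (Ns B ζ s) →
      β + 1 ≤ #{m ∈ B | ζ m ∉ Ns B ζ s} + j → False := by
    intro j
    induction j with
    | zero =>
      refine ⟨t, le_rfl, ?_⟩
      intro K B ι _ hι ζ hζ _ hb
      have hcard : Fintype.card (ι → ZMod 2) = q := by
        rw [Fintype.card_fun, ZMod.card, hι]
      obtain ⟨θ, _, hθ⟩ := Finset.exists_lt_card_fiber_of_mul_lt_card_of_maps_to
        (s := {m ∈ B | ζ m ∉ Ns B ζ t}) (t := (Finset.univ : Finset (ι → ZMod 2))) (f := ζ) (n := t)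
        (fun _ _ => Finset.mem_univ _) (by rw [Finset.card_univ, hcard]; omega)
      obtain ⟨m, hm⟩ : ({x ∈ ({m ∈ B | ζ m ∉ Ns B ζ t} : Finset K.D) | ζ x = θ} : Finset K.D).Nonempty := by
        rw [← Finset.card_pos]; omega
      obtain ⟨h1, h2⟩ := Finset.mem_filter.1 hm
      apply (Finset.mem_filter.1 h1).2
      refine Submodule.subset_span ?_
      show t ≤ #{x ∈ B | ζ x = ζ m}
      rw [h2]
      refine hθ.le.trans (Finset.card_le_card ?_)
      intro x hx
      obtain ⟨h3, h4⟩ := Finset.mem_filter.1 hx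
      exact Finset.mem_filter.2 ⟨(Finset.mem_filter.1 h3).1, h4⟩
    | succ j ih =>
      obtain ⟨s, hts, hs⟩ := ih
      refine ⟨q * s + 2 + R + t, by omega, ?_⟩
      intro K B ι _ hι ζ hζ hfr hb
      have hcard : Fintype.card (ι → ZMod 2) = q := by
        rw [Fintype.card_fun, ZMod.card, hι]
      have hup : ∀ (ζ : K.D → ι → ZMod 2), Gd K B ζ → ∀ s, t ≤ s → n ≤ finrank (ZMod 2) (Ns B ζ s) →
          finrank (ZMod 2) (Ns B ζ s) = n := by
        intro ζ hζ s hts hle
        by_contra hne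
        refine ht K B ι hι ζ hζ ?_
        have := Submodule.finrank_mono (Ns_anti B ζ hts)
        omega
      have hfr' := hup ζ hζ _ (by omega) hfr
      obtain ⟨ζ', hζ', h1, h2⟩ := stepB K B ζ hζ (q * s + 2 + R + t) s (ht1.trans hts)
        (by rw [hcard]; omega) (by
          intro J _ hJ
          refine hRn K _ ?_ J (by rw [hJ, hfr'])
          -- there is a class of large multiplicity
          by_contra hcon
          have h3 : Ns B ζ (q * s + 2 + R + t) = ⊥ := by
            rw [Ns, Submodule.span_eq_bot]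
            intro θ hθ
            exfalso
            apply hcon
            have hθ' : q * s + 2 + R + t ≤ #{m ∈ B | ζ m = θ} := hθ
            have h4 : #{m ∈ B | ζ m = θ} ≤ #{m ∈ B | ζ m ∈ Ns B ζ (q * s + 2 + R + t)} := by
              apply Finset.card_le_card
              intro m hm
              obtain ⟨h5, h6⟩ := Finset.mem_filter.1 hm
              refine Finset.mem_filter.2 ⟨h5, ?_⟩
              rw [h6]
              exact Submodule.subset_span hθ
            omega
          rw [h3, finrank_bot] at hfr'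
          omega)
      have h3 : n ≤ finrank (ZMod 2) (Ns B ζ' s) := by omega
      have h4 := hup ζ' hζ' s hts h3
      have h5 := h2 (by rw [h4, hfr'])
      exact hs K B ι hι ζ' hζ' h3 (by omega)
  obtain ⟨s, hts, hs⟩ := key (β + 1)
  exact ⟨s, ht1.trans hts, fun K B ι _ hι ζ hζ hn => hs K B ι hι ζ hζ hn (by omega)⟩

theorem TT_zero : TT 0 := by
  refine ⟨1, ?_⟩
  intro K B hB ι _ hι
  obtain ⟨m, hm⟩ : B.Nonempty := by rw [← Finset.card_pos]; omega
  obtain ⟨u, hu⟩ := K.nt m
  refine ⟨{0, u}, ?_⟩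
  intro x y hR
  have : IsEmpty ι := Fintype.card_eq_zero_iff.1 hι
  have h1 := (hR m hm 0 (by simp) u (by simp)).1 (by simp)
  rw [map_zero] at h1
  exact hu h1.symm

theorem main_T (k : ℕ) : TT k := by
  induction k using Nat.strong_induction_on with
  | _ k ih =>
    rcases Nat.eq_zero_or_pos k with rfl | hk
    · exact TT_zero
    · have hP : ∀ j, j < k → PP k (k - j) := by
        intro j
        induction j with
        | zero => intro _; exact PP_top k hk
        | succ j ihj =>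
          intro hj
          have h1 := ihj (by omega)
          refine PP_step k (k - (j + 1)) (by omega) (ih _ (by omega)) ?_
          have : k - (j + 1) + 1 = k - j := by omega
          rw [this]
          exact h1
      have hP1 : PP k 1 := by
        have := hP (k - 1) (by omega)
        rwa [show k - (k - 1) = 1 by omega] at this
      obtain ⟨t, ht1, ht⟩ := hP1
      refine ⟨2 ^ k * t + 1, ?_⟩
      intro K B hB ι _ hι
      by_contra hcon
      push Not at hcon
      obtain ⟨ζ, hζ⟩ := exists_Gd K B hcon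
      refine ht K B ι hι ζ hζ ?_
      have hcard : Fintype.card (ι → ZMod 2) = 2 ^ k := by
        rw [Fintype.card_fun, ZMod.card, hι]
      obtain ⟨θ, _, hθ⟩ := Finset.exists_lt_card_fiber_of_mul_lt_card_of_maps_to
        (s := B) (t := (Finset.univ : Finset (ι → ZMod 2))) (f := ζ) (n := t)
        (fun _ _ => Finset.mem_univ _) (by rw [Finset.card_univ, hcard]; omega)
      obtain ⟨m, hm⟩ : ({x ∈ B | ζ x = θ} : Finset K.D).Nonempty := by
        rw [← Finset.card_pos]; omega
      obtain ⟨h1, h2⟩ := Finset.mem_filter.1 hm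
      rw [Nat.one_le_iff_ne_zero]
      intro h0
      have h3 : Ns B ζ t = ⊥ := Submodule.finrank_eq_zero.1 h0
      have h4 : θ ∈ Ns B ζ t := Submodule.subset_span hθ.le
      rw [h3, Submodule.mem_bot] at h4
      exact hζ.1 m h1 (h2.trans h4)

end

end Pool.Agent.N524
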