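import Pool.Agent.N524.StepB

/-!
# Linear algebra over `ZMod 2`: graphs over coordinate subspaces, and the combinatorial step
-/

set_option autoImplicit false

namespace Pool.Agent.N524

open Finset Module
open scoped Classical

noncomputable section

variable {ι : Type} [Fintype ι]

/-- every subspace is a graph over a coordinate subspace -/
theorem exists_graph {κ : Type} [Field κ] (N : Submodule κ (ι → κ)) :
    ∃ (I : Finset ι) (A0 : ι → ι → κ), (∀ v, v ∈ N ↔ ∀ j ∉ I, v j = ∑ i ∈ I, A0 j i * v i) ∧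
      #I = finrank κ N := by
  let P : Finset ι → Prop := fun I => ∀ v ∈ N, (∀ i ∈ I, v i = 0) → v = 0
  obtain ⟨I, hI, hmin⟩ := Finset.exists_min_image (Finset.univ.filter P) Finset.card
    ⟨Finset.univ, Finset.mem_filter.2 ⟨Finset.mem_univ _, fun v _ h => funext fun i => h i (Finset.mem_univ _)⟩⟩
  have hPI : P I := (Finset.mem_filter.1 hI).2
  have h1 : ∀ i : ι, ∃ w ∈ N, i ∈ I → (w i = 1 ∧ ∀ l ∈ I, l ≠ i → w l = 0) := by
    intro i
    by_cases hi : i ∈ I
    · have h2 : ¬ P (I.erase i) := by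
        intro hP
        have h3 := hmin _ (Finset.mem_filter.2 ⟨Finset.mem_univ _, hP⟩)
        rw [Finset.card_erase_of_mem hi] at h3
        have := Finset.card_pos.2 ⟨i, hi⟩
        omega
      simp only [P] at h2
      push Not at h2
      obtain ⟨v, hv, h0, hne⟩ := h2
      have hvi : v i ≠ 0 := by
        intro h
        apply hne
        apply hPI v hv
        intro l hl
        by_cases hli : l = i
        · rw [hli, h]
        · exact h0 l (Finset.mem_erase.2 ⟨hli, hl⟩)
      refine ⟨(v i)⁻¹ • v, N.smul_mem _ hv, fun _ => ⟨?_, fun l hl hli => ?_⟩⟩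
      · simp [hvi]
      · simp [h0 l (Finset.mem_erase.2 ⟨hli, hl⟩)]
    · exact ⟨0, N.zero_mem, fun h => absurd h hi⟩
  choose w hwN hw using h1
  have hsum : ∀ (c : ι → κ), ∀ l ∈ I, (∑ i ∈ I, c i • w i) l = c l := by
    intro c l hl
    rw [Finset.sum_apply, Finset.sum_eq_single l]
    · simp [(hw l hl).1]
    · intro i hi hil
      simp [(hw i hi).2 l hl (Ne.symm hil)]
    · intro h
      exact absurd hl h
  have hsumN : ∀ (c : ι → κ), ∑ i ∈ I, c i • w i ∈ N :=
    fun c => N.sum_mem fun i _ => N.smul_mem _ (hwN i)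
  have hrep : ∀ v ∈ N, v = ∑ i ∈ I, v i • w i := by
    intro v hv
    rw [← sub_eq_zero]
    apply hPI _ (N.sub_mem hv (hsumN v))
    intro l hl
    rw [Pi.sub_apply, hsum v l hl, sub_self]
  refine ⟨I, fun j i => w i j, ?_, ?_⟩
  · intro v
    constructor
    · intro hv j _
      conv_lhs => rw [hrep v hv]
      rw [Finset.sum_apply]
      refine Finset.sum_congr rfl fun i _ => ?_
      simp [mul_comm]
    · intro h
      have : v = ∑ i ∈ I, v i • w i := by
        funext j
        by_cases hj : j ∈ I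
        · rw [hsum v j hj]
        · rw [h j hj, Finset.sum_apply]
          refine Finset.sum_congr rfl fun i _ => ?_
          simp [mul_comm]
      rw [this]
      exact hsumN v
  · have e : N ≃ₗ[κ] (I → κ) := by
      refine LinearEquiv.ofBijective ((LinearMap.funLeft κ κ (Subtype.val : I → ι)).domRestrict N) ⟨?_, ?_⟩
      · rw [← LinearMap.ker_eq_bot, LinearMap.ker_eq_bot']
        rintro ⟨v, hv⟩ h
        apply Subtype.ext
        apply hPI v hv
        intro i hi
        exact congrFun h ⟨i, hi⟩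
      · intro c
        refine ⟨⟨∑ i ∈ I, (fun i => if h : i ∈ I then c ⟨i, h⟩ else 0) i • w i, hsumN _⟩, ?_⟩
        funext ⟨l, hl⟩
        show (∑ i ∈ I, (fun i => if h : i ∈ I then c ⟨i, h⟩ else 0) i • w i) l = _
        rw [hsum _ l hl]
        simp [hl]
    rw [e.finrank_eq, Module.finrank_fintype_fun_eq_card, Fintype.card_coe]

/-- span of the classes of multiplicity at least `s` -/
def Ns {D : Type} (B : Finset D) (ζ : D → ι → ZMod 2) (s : ℕ) : Submodule (ZMod 2) (ι → ZMod 2) :=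
  Submodule.span (ZMod 2) {θ | s ≤ #{m ∈ B | ζ m = θ}}

theorem Ns_anti {D : Type} (B : Finset D) (ζ : D → ι → ZMod 2) {s t : ℕ} (h : s ≤ t) :
    Ns B ζ t ≤ Ns B ζ s := Submodule.span_mono fun _ hθ => h.trans hθ

theorem stepB (K : Cfg) (B : Finset K.D) (ζ : K.D → ι → ZMod 2) (hζ : Gd K B ζ) (s σ : ℕ) (hσ : 1 ≤ σ)
    (hs : Fintype.card (ι → ZMod 2) * σ + 2 ≤ s)
    (hT : ∀ (J : Type) [Fintype J], Fintype.card J = finrank (ZMod 2) (Ns B ζ s) →
      ∃ S0 : Finset K.G, ∀ x y, ¬ Rl K {m ∈ B | ζ m ∈ Ns B ζ s} (ι := J) S0 x y) :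
    ∃ ζ' : K.D → ι → ZMod 2, Gd K B ζ' ∧
      finrank (ZMod 2) (Ns B ζ s) ≤ finrank (ZMod 2) (Ns B ζ' σ) ∧
      (finrank (ZMod 2) (Ns B ζ' σ) = finrank (ZMod 2) (Ns B ζ s) →
        #{m ∈ B | ζ m ∉ Ns B ζ s} + 1 ≤ #{m ∈ B | ζ' m ∉ Ns B ζ' σ}) := by
  set N := Ns B ζ s with hNdef
  obtain ⟨I, A0, hN, hI⟩ := exists_graph N
  obtain ⟨ζ', hG, hout, hin, htwo, hχ⟩ := stepA K B ζ hζ N I A0 hN
    (by
      refine Submodule.span_le.2 fun θ hθ => ?_
      have hθ' : s ≤ #{m ∈ B | ζ m = θ} := hθ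
      exact Submodule.subset_span ⟨Submodule.subset_span hθ, by omega⟩)
    (hT I (by rw [Fintype.card_coe]; exact hI))
  refine ⟨ζ', hG, ?_⟩
  set N' := Ns B ζ' σ with hN'def
  let f : N' →ₗ[ZMod 2] (I → ZMod 2) := (LinearMap.funLeft (ZMod 2) (ZMod 2) (Subtype.val : I → ι)).domRestrict N'
  have hf : ∀ (v : N') (i : ι) (hi : i ∈ I), f v ⟨i, hi⟩ = (v : ι → ZMod 2) i := fun _ _ _ => rfl
  -- every vector of N has the same coordinates in I as some vector in N'
  have hlift : ∀ v ∈ N, ∃ v' ∈ N', ∀ i ∈ I, v' i = v i := by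
    intro v hv
    rw [hNdef, Ns] at hv
    induction hv using Submodule.span_induction with
    | mem θ hθ =>
      have hθs : s ≤ #{m ∈ B | ζ m = θ} := hθ
      have hθN : θ ∈ N := Submodule.subset_span hθ
      set X : Finset K.D := {m ∈ B | ζ m = θ} \ {m ∈ B | ζ m ∈ N ∧ ∀ i ∈ I, ζ' m i = 0} with hX
      have hXc : Fintype.card (ι → ZMod 2) * σ ≤ #X := by
        have := Finset.le_card_sdiff {m ∈ B | ζ m ∈ N ∧ ∀ i ∈ I, ζ' m i = 0} {m ∈ B | ζ m = θ}
        rw [← hX] at this
        omega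
      obtain ⟨θ1, _, hθ1⟩ := Finset.exists_le_card_fiber_of_mul_le_card_of_maps_to (s := X)
        (t := (Finset.univ : Finset (ι → ZMod 2))) (f := ζ') (n := σ) (fun _ _ => Finset.mem_univ _)
        Finset.univ_nonempty (by rw [Finset.card_univ]; exact hXc)
      refine ⟨θ1, Submodule.subset_span ?_, ?_⟩
      · show σ ≤ #{m ∈ B | ζ' m = θ1}
        refine hθ1.trans (Finset.card_le_card ?_)
        intro m hm
        obtain ⟨h1, h2⟩ := Finset.mem_filter.1 hm
        exact Finset.mem_filter.2 ⟨(Finset.mem_filter.1 (Finset.mem_sdiff.1 h1).1).1, h2⟩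
      · obtain ⟨m, hm⟩ : ({x ∈ X | ζ' x = θ1} : Finset K.D).Nonempty := by
          rw [← Finset.card_pos]; omega
        obtain ⟨h1, h2⟩ := Finset.mem_filter.1 hm
        obtain ⟨h3, h4⟩ := Finset.mem_sdiff.1 h1
        obtain ⟨h5, h6⟩ := Finset.mem_filter.1 h3
        have h7 : ζ m ∈ N := by rw [h6]; exact hθN
        rcases hin m h5 h7 with h8 | h8
        · intro i hi
          rw [← h2, h8 i hi, h6]
        · exact absurd (Finset.mem_filter.2 ⟨h5, h7, h8⟩) h4
    | zero => exact ⟨0, N'.zero_mem, fun _ _ => rfl⟩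
    | add v w _ _ hv hw =>
      obtain ⟨v', hv', h1⟩ := hv
      obtain ⟨w', hw', h2⟩ := hw
      exact ⟨v' + w', N'.add_mem hv' hw', fun i hi => by simp [h1 i hi, h2 i hi]⟩
    | smul r v _ hv =>
      obtain ⟨v', hv', h1⟩ := hv
      exact ⟨r • v', N'.smul_mem r hv', fun i hi => by simp [h1 i hi]⟩
  have hsurj : Function.Surjective f := by
    intro c
    let v : ι → ZMod 2 := fun j => if h : j ∈ I then c ⟨j, h⟩ else ∑ i : I, A0 j i * c i
    have hv : v ∈ N := by
      rw [hN]
      intro j hj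
      simp only [v, dif_neg hj]
      rw [← Finset.sum_coe_sort I]
      refine Finset.sum_congr rfl fun i _ => ?_
      simp
    obtain ⟨v', hv', h1⟩ := hlift v hv
    refine ⟨⟨v', hv'⟩, ?_⟩
    funext ⟨i, hi⟩
    rw [hf]
    show v' i = _
    rw [h1 i hi]
    simp [v, hi]
  have hfr : finrank (ZMod 2) (I → ZMod 2) = finrank (ZMod 2) N := by
    rw [Module.finrank_fintype_fun_eq_card, Fintype.card_coe, hI]
  refine ⟨?_, ?_⟩
  · rw [← hfr]
    exact LinearMap.finrank_le_finrank_of_surjective hsurj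
  · intro heq
    have hinj : Function.Injective f :=
      (LinearMap.injective_iff_surjective_of_finrank_eq_finrank (heq.trans hfr.symm)).2 hsurj
    have hinj0 : ∀ v ∈ N', (∀ i ∈ I, v i = 0) → v = 0 := by
      intro v hv h0
      have : (⟨v, hv⟩ : N') = 0 := by
        apply hinj
        rw [map_zero]
        funext ⟨i, hi⟩
        exact h0 i hi
      exact congrArg Subtype.val this
    obtain ⟨m0, hm0B, hm0N, hm0⟩ : ∃ m0 ∈ B, ζ m0 ∈ N ∧ ζ' m0 ∉ N' := by
      by_contra hcon
      push Not at hcon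
      apply hχ
      have h1 : ∀ i : ι, ∃ v ∈ N', ∀ l ∈ I, v l = if l = i then 1 else 0 := by
        intro i
        obtain ⟨⟨v, hv⟩, h⟩ := hsurj (fun l => if (l : ι) = i then 1 else 0)
        exact ⟨v, hv, fun l hl => congrFun h ⟨l, hl⟩⟩
      choose ev hev1 hev2 using h1
      refine ⟨fun j i => ev i j, fun m hm hmN j _ => ?_⟩
      have h2 : ζ' m = ∑ i ∈ I, ζ' m i • ev i := by
        rw [← sub_eq_zero]
        apply hinj0 _ (N'.sub_mem (hcon m hm hmN) (N'.sum_mem fun i _ => N'.smul_mem _ (hev1 i)))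
        intro l hl
        rw [Pi.sub_apply, Finset.sum_apply, Finset.sum_eq_single l]
        · simp [hev2 l l hl]
        · intro i _ hil
          simp [hev2 i l hl, Ne.symm hil]
        · intro h
          exact absurd hl h
      conv_lhs => rw [h2]
      rw [Finset.sum_apply]
      refine Finset.sum_congr rfl fun i _ => ?_
      simp [mul_comm]
    have hsub : insert m0 ({m ∈ B | ζ m ∉ N} : Finset K.D) ⊆ {m ∈ B | ζ' m ∉ N'} := by
      intro m hm
      rcases Finset.mem_insert.1 hm with h | h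
      · rw [h]
        exact Finset.mem_filter.2 ⟨hm0B, hm0⟩
      · obtain ⟨h1, h2⟩ := Finset.mem_filter.1 h
        refine Finset.mem_filter.2 ⟨h1, fun h3 => hG.1 m h1 ?_⟩
        exact hinj0 _ h3 (hout m h1 h2)
    have h2 := Finset.card_le_card hsub
    have h3 : m0 ∉ ({m ∈ B | ζ m ∉ N} : Finset K.D) := by
      intro h
      exact (Finset.mem_filter.1 h).2 hm0N
    rwa [Finset.card_insert_of_notMem h3] at h2

end

end Pool.Agent.N524
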