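import Mathlib
import Pool.Agent.Helper868.DHJ

/-!
# Szemerédi's theorem for windows in an abelian group, from density Hales–Jewett
-/

set_option autoImplicit false

namespace Pool.Agent.N524

open Finset
open scoped Classical
open Pool.Agent.Helper868.DHJ (DensityHJ LineFree pt density_hales_jewett)

theorem szem_abs {G : Type} [AddCommGroup G] (W : ℕ → Finset G) (C : ℝ) (hC : 0 < C)
    (hmono : ∀ s t, s ≤ t → W s ⊆ W t)
    (hsub : ∀ v : G, ∃ K : ℕ, ∀ s, ∀ u ∈ W s, u - v ∈ W (s + K))
    (hgr : ∀ K : ℕ, ∃ s0, ∀ s ≥ s0, (#(W (s + K)) : ℝ) ≤ C * #(W s))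
    (hne : ∀ s, (W s).Nonempty)
    (S : Finset G) (δ : ℝ) (hδ : 0 < δ) : ∃ s0 : ℕ, ∀ s ≥ s0, ∀ E ⊆ W s, δ * #(W s) ≤ #E →
      ∃ (a : G) (j : ℕ), 1 ≤ j ∧ ∀ w ∈ S, a + j • w ∈ E := by
  rcases S.eq_empty_or_nonempty with rfl | hS
  · exact ⟨0, fun s _ E _ _ => ⟨0, 1, le_rfl, by simp⟩⟩
  have : Nonempty S := hS.to_subtype
  obtain ⟨N, hN⟩ := density_hales_jewett S (δ / C) (by positivity)
  let X := Fin (N + 1) → S
  let φ : X → G := fun x => ∑ n, (x n : G)
  choose Kf hKf using hsub
  set K : ℕ := (Finset.univ : Finset X).sup (fun x => Kf (φ x)) with hK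
  have hKsub : ∀ x : X, ∀ s, ∀ u ∈ W s, u - φ x ∈ W (s + K) := by
    intro x s u hu
    refine hmono _ _ ?_ (hKf (φ x) s u hu)
    have : Kf (φ x) ≤ K := Finset.le_sup (f := fun x => Kf (φ x)) (Finset.mem_univ x)
    omega
  obtain ⟨s0, hs0⟩ := hgr K
  refine ⟨s0, ?_⟩
  intro s hs E hE hEc
  have hcardX : (0 : ℝ) < Fintype.card X := by exact_mod_cast Fintype.card_pos
  have hex : ∃ g : G, δ / C ≤ Pool.Agent.Helper868.DHJ.dens {x : X | g + φ x ∈ E} := by
    by_contra hcon
    push Not at hcon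
    have h1 : ∀ g : G, (#{x : X | g + φ x ∈ E} : ℝ) < δ / C * Fintype.card X := by
      intro g
      have h2 := hcon g
      unfold Pool.Agent.Helper868.DHJ.dens at h2
      rw [Pool.Agent.Helper868.DHJ.av_eq_sum, div_lt_iff₀ hcardX] at h2
      refine lt_of_le_of_lt (le_of_eq ?_) h2
      rw [Finset.card_filter, Nat.cast_sum]
      refine Finset.sum_congr rfl fun x _ => ?_
      by_cases hx : g + φ x ∈ E
      · rw [if_pos hx, Pool.Agent.Helper868.DHJ.ind_mem (by exact hx)]; simp
      · rw [if_neg hx, Pool.Agent.Helper868.DHJ.ind_not_mem (by exact hx)]; simp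
    have h3 : ∑ g ∈ W (s + K), #{x : X | g + φ x ∈ E} = Fintype.card X * #E := by
      have h4 : ∀ g, #{x : X | g + φ x ∈ E} = ∑ x : X, if g + φ x ∈ E then 1 else 0 := by
        intro g
        rw [Finset.card_filter]
      simp_rw [h4]
      rw [Finset.sum_comm]
      have h5 : ∀ x : X, ∑ g ∈ W (s + K), (if g + φ x ∈ E then 1 else 0) = #E := by
        intro x
        rw [← Finset.card_filter]
        refine Finset.card_bij (fun g _ => g + φ x) ?_ ?_ ?_
        · intro g hg
          exact (Finset.mem_filter.1 hg).2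
        · intro g _ g' _ h
          exact add_right_cancel h
        · intro u hu
          refine ⟨u - φ x, Finset.mem_filter.2 ⟨hKsub x s u (hE hu), by simpa using hu⟩, by simp⟩
      simp_rw [h5]
      rw [Finset.sum_const, Finset.card_univ, smul_eq_mul]
    have h6 : (∑ g ∈ W (s + K), (#{x : X | g + φ x ∈ E} : ℝ)) < ∑ g ∈ W (s + K), δ / C * Fintype.card X :=
      Finset.sum_lt_sum_of_nonempty (hne _) fun g _ => h1 g
    rw [Finset.sum_const, nsmul_eq_mul] at h6
    have h7 : (∑ g ∈ W (s + K), (#{x : X | g + φ x ∈ E} : ℝ)) = Fintype.card X * #E := by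
      exact_mod_cast h3
    rw [h7] at h6
    have h8 := hs0 s hs
    have h9 : (#(W (s + K)) : ℝ) * (δ / C * Fintype.card X) ≤ Fintype.card X * #E := by
      calc (#(W (s + K)) : ℝ) * (δ / C * Fintype.card X)
          ≤ (C * #(W s)) * (δ / C * Fintype.card X) := by gcongr
        _ = Fintype.card X * (δ * #(W s)) := by field_simp
        _ ≤ Fintype.card X * #E := by gcongr
    linarith
  obtain ⟨g, hg⟩ := hex
  have hnot : ¬ LineFree {x : X | g + φ x ∈ E} := by
    intro hlf
    have := hN (Fin (N + 1)) (by simp) _ hlf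
    linarith
  unfold LineFree at hnot
  push Not at hnot
  obtain ⟨u, ⟨i0, hi0⟩, hu⟩ := hnot
  refine ⟨g + ∑ i ∈ Finset.univ.filter (fun i => ¬ u i = none), (((u i).getD (Classical.arbitrary S) : S) : G),
    #(Finset.univ.filter fun i => u i = none), Finset.card_pos.2 ⟨i0, by simp [hi0]⟩, ?_⟩
  intro w hw
  have h1 : g + φ (pt u ⟨w, hw⟩) ∈ E := hu ⟨w, hw⟩
  have h2 : φ (pt u ⟨w, hw⟩) = ∑ i ∈ Finset.univ.filter (fun i => ¬ u i = none),
      (((u i).getD (Classical.arbitrary S) : S) : G) + #(Finset.univ.filter fun i => u i = none) • w := by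
    simp only [φ]
    rw [← Finset.sum_filter_add_sum_filter_not Finset.univ (fun i => u i = none), add_comm]
    congr 1
    · refine Finset.sum_congr rfl fun i hi => ?_
      simp only [Finset.mem_filter, Finset.mem_univ, true_and] at hi
      cases h : u i with
      | none => exact absurd h hi
      | some a => simp [pt, h]
    · rw [← Finset.sum_const]
      refine Finset.sum_congr rfl fun i hi => ?_
      simp only [Finset.mem_filter, Finset.mem_univ, true_and] at hi
      simp [pt, hi]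
  rw [h2, ← add_assoc] at h1
  exact h1

end Pool.Agent.N524
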