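import Pool.Agent.N524.Conc
import Pool.Agent.N524.Szem
import Pool.Agent.N524.Ind

/-!
# The concrete configurations as instances of `Cfg`
-/

set_option autoImplicit false

namespace Pool.Agent.N524

open Finset
open scoped Classical

noncomputable section

/-- uniform upper constants on a finite type -/
theorem unif_up {X : Type*} [Finite X] (P : X → ℝ → Prop) (hm : ∀ x a b, a ≤ b → P x a → P x b)
    (h : ∀ x, ∃ a, 0 < a ∧ P x a) : ∃ a, 0 < a ∧ ∀ x, P x a := by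
  have := Fintype.ofFinite X
  choose a ha hP using h
  refine ⟨1 + ∑ x, a x, ?_, fun x => hm x (a x) _ ?_ (hP x)⟩
  · have : 0 ≤ ∑ x, a x := Finset.sum_nonneg fun x _ => (ha x).le
    linarith
  · have : a x ≤ ∑ x, a x := Finset.single_le_sum (fun x _ => (ha x).le) (Finset.mem_univ x)
    linarith

theorem unif_down {X : Type*} [Finite X] (P : X → ℝ → Prop) (hm : ∀ x a b, 0 < a → a ≤ b → P x b → P x a)
    (h : ∀ x, ∃ a, 0 < a ∧ P x a) : ∃ a, 0 < a ∧ a ≤ 1 ∧ ∀ x, P x a := by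
  have := Fintype.ofFinite X
  choose a ha hP using h
  have h0 : 0 ≤ ∑ x, (a x)⁻¹ := Finset.sum_nonneg fun x _ => (inv_pos.2 (ha x)).le
  refine ⟨(1 + ∑ x, (a x)⁻¹)⁻¹, by positivity, ?_, fun x => hm x _ (a x) (by positivity) ?_ (hP x)⟩
  · exact inv_le_one_of_one_le₀ (by linarith)
  · have h1 : (a x)⁻¹ ≤ ∑ x, (a x)⁻¹ :=
      Finset.single_le_sum (f := fun x => (a x)⁻¹) (fun x _ => (inv_pos.2 (ha x)).le) (Finset.mem_univ x)
    rw [inv_le_comm₀ (by positivity) (ha x)]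
    linarith

variable {d : ℕ}

theorem line_card (M : (Fin d → ℤ) →+ (Fin d → ℤ)) (r : ℝ) (hr : 1 ≤ r) (u : GG d) :
    (#{w ∈ BR (Fin d ⊕ Fin d) r | cc M w = cc M u} : ℝ) ≤ 3 ^ d * r ^ d := by
  have h1 := card_box_le (ι := Fin d) r hr
  rw [Fintype.card_fin, mul_pow] at h1
  refine le_trans ?_ h1
  have h2 : #{w ∈ BR (Fin d ⊕ Fin d) r | cc M w = cc M u} ≤
      #(Finset.Icc (fun _ : Fin d => -⌊r⌋) (fun _ => ⌊r⌋)) := by
    refine Finset.card_le_card_of_injOn (fun w i => w (Sum.inl i)) ?_ ?_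
    · intro w hw
      have h3 := BR_bound (Finset.mem_filter.1 hw).1
      show (fun i => w (Sum.inl i)) ∈ Finset.Icc (fun _ : Fin d => -⌊r⌋) (fun _ => ⌊r⌋)
      rw [Finset.mem_Icc]
      exact ⟨fun i => (h3 (Sum.inl i)).1, fun i => (h3 (Sum.inl i)).2⟩
    · intro w hw w' hw' e
      have h3 := (Finset.mem_filter.1 hw).2
      have h4 := (Finset.mem_filter.1 hw').2
      have e' : (fun i => w (Sum.inl i)) = (fun i => w' (Sum.inl i)) := e
      have h5 := h3.trans h4.symm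
      rw [cc_apply, cc_apply, e'] at h5
      have h6 := sub_left_injective h5
      funext p
      cases p with
      | inl i => exact congrFun e' i
      | inr i => exact congrFun h6 i
  have h3 : (#{w ∈ BR (Fin d ⊕ Fin d) r | cc M w = cc M u} : ℝ) ≤
      #(Finset.Icc (fun _ : Fin d => -⌊r⌋) (fun _ => ⌊r⌋)) := by exact_mod_cast h2
  refine h3.trans (le_of_eq ?_)
  congr!

/-- the basic facts for the concrete configuration -/
theorem exists_Bs (hd : 0 < d) (D : Type) [Finite D] (M : D → ((Fin d → ℤ) →+ (Fin d → ℤ)))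
    (hM : ∀ μ ν, μ ≠ ν → Function.Bijective (M μ - M ν)) :
    ∃ A a b B l ρ r0, Bs (fun τ => ⇑(cc (M τ))) (BR (Fin d ⊕ Fin d)) d A a b B l ρ r0 := by
  have hne : Nonempty (Fin d ⊕ Fin d) := ⟨Sum.inl ⟨0, hd⟩⟩
  obtain ⟨K, hK, hKM⟩ := unif_up (fun τ K => ∀ t, ‖tr (M τ) t‖ ≤ K * ‖t‖)
    (fun τ a b hab h t => (h t).trans (mul_le_mul_of_nonneg_right hab (norm_nonneg _)))
    (fun τ => norm_tr (M τ))
  obtain ⟨K2, hK2, hKM2⟩ := unif_up (fun (p : D × D) K => p.1 ≠ p.2 → ∀ t t',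
      ‖t‖ ≤ K * ‖tr (M p.1) t + tr (M p.2) t'‖)
    (fun p a b hab h hp t t' => (h hp t t').trans (mul_le_mul_of_nonneg_right hab (norm_nonneg _)))
    (fun p => by
      by_cases hp : p.1 ≠ p.2
      · obtain ⟨K, hK, h⟩ := two_bound (hM _ _ hp).2
        exact ⟨K, hK, fun _ => h⟩
      · exact ⟨1, one_pos, fun h => absurd h hp⟩)
  obtain ⟨κ, hκ, hκ1, hKM3⟩ := unif_down (fun (p : D × D) κ => p.1 ≠ p.2 → ∀ v,
      κ * ‖v‖ ≤ ‖(LinearMap.range (tr (M p.1))).starProjection v‖ ∨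
      κ * ‖v‖ ≤ ‖(LinearMap.range (tr (M p.2))).starProjection v‖)
    (fun p a b _ hab h hp v => by
      rcases h hp v with h | h
      · exact Or.inl ((mul_le_mul_of_nonneg_right hab (norm_nonneg _)).trans h)
      · exact Or.inr ((mul_le_mul_of_nonneg_right hab (norm_nonneg _)).trans h))
    (fun p => by
      by_cases hp : p.1 ≠ p.2
      · obtain ⟨K, hK, h⟩ := proj_bound (hM _ _ hp).2
        exact ⟨K, hK, fun _ => h⟩
      · exact ⟨1, one_pos, fun h => absurd h hp⟩)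
  set η : ℝ := κ / (2 * K) with hη
  have hη0 : 0 < η := by positivity
  have hη2 : K ^ 2 * η ^ 2 ≤ κ ^ 2 / 2 := by
    rw [hη]
    have : K ^ 2 * (κ / (2 * K)) ^ 2 = κ ^ 2 / 4 := by field_simp; norm_num
    rw [this]
    have : 0 < κ ^ 2 := by positivity
    linarith
  set l : ℝ := 1 - κ ^ 2 / 4 with hl
  have hκ2 : κ ^ 2 ≤ 1 := pow_le_one₀ hκ.le hκ1
  have hκ20 : 0 < κ ^ 2 := by positivity
  have hl0 : 0 < l := by rw [hl]; linarith
  have hl1 : l < 1 := by rw [hl]; linarith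
  have hl2 : 1 - κ ^ 2 / 2 ≤ l ^ 2 := by
    rw [hl]
    nlinarith [sq_nonneg (κ ^ 2)]
  set ρ : ℝ := 1 / (1 + 2 * K * K2) with hρ
  have hρ0 : 0 < ρ := by positivity
  have hcard : Fintype.card (Fin d ⊕ Fin d) = 2 * d := by
    rw [Fintype.card_sum, Fintype.card_fin]; ring
  refine ⟨3 ^ d, η ^ d, (1 / ((2 * d : ℕ) : ℝ)) ^ (2 * d), 3 ^ (2 * d), l, ρ, max 1 (1 / η), ?_⟩
  have hd' : (0 : ℝ) < ((2 * d : ℕ) : ℝ) := by exact_mod_cast (by omega : 0 < 2 * d)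
  refine ⟨by positivity, by positivity, by positivity, by positivity, hl0, hl1, hρ0, ?_, le_max_left _ _,
    fun r r' h => BR_mono h, ?_, ?_, ?_, ?_, ?_, ?_⟩
  · rw [hρ, div_le_one (by positivity)]
    have : 0 < 2 * K * K2 := by positivity
    linarith
  · intro r hr τ u
    convert line_card (M τ) r hr u
  · intro r hr u hu μ ν hμν
    have h1 : 1 ≤ η * r := by
      have := (le_max_right _ _).trans hr
      rw [div_le_iff₀ hη0] at this
      linarith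
    rcases hKM3 (μ, ν) hμν (emb u) with h | h
    · left
      convert inward (M μ) K κ r hK hκ hκ1 (hKM μ) η hη0 hη2 h1 l hl0 hl2 u hu h
    · right
      convert inward (M ν) K κ r hK hκ hκ1 (hKM ν) η hη0 hη2 h1 l hl0 hl2 u hu h
  · intro r hr u hu u' hu' μ ν hμν
    obtain ⟨h, h', e⟩ := decomp (hM μ ν hμν).2 (u - u')
    rw [mem_BR] at hu hu'
    refine ⟨u - tt (M μ) h, ?_, ?_, ?_⟩
    · rw [mem_BR, emb_sub]
      have h1 : ‖(fun i => (h i : ℝ))‖ ≤ K2 * ‖emb (u - u')‖ := by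
        rw [e, emb_add, emb_tt, emb_tt]
        exact hKM2 (μ, ν) hμν _ _
      have h2 : ‖emb (u - u')‖ ≤ 2 * (ρ * r) := by
        rw [emb_sub]
        refine (norm_sub_le _ _).trans ?_
        linarith
      have h3 : ‖emb (tt (M μ) h)‖ ≤ K * (K2 * (2 * (ρ * r))) := by
        rw [emb_tt]
        refine (hKM μ _).trans ?_
        gcongr
        exact h1.trans (by gcongr)
      refine (norm_sub_le _ _).trans ?_
      calc ‖emb u‖ + ‖emb (tt (M μ) h)‖ ≤ ρ * r + K * (K2 * (2 * (ρ * r))) := by gcongr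
        _ = (ρ * (1 + 2 * K * K2)) * r := by ring
        _ = r := by
            rw [hρ, one_div, inv_mul_cancel₀ (by positivity), one_mul]
    · show cc (M μ) (u - tt (M μ) h) = cc (M μ) u
      rw [map_sub, cc_tt, sub_zero]
    · show cc (M ν) (u - tt (M μ) h) = cc (M ν) u'
      have h4 : u - tt (M μ) h = u' + tt (M ν) h' := by
        rw [sub_eq_iff_eq_add] at e ⊢
        rw [e]
        abel
      rw [h4, map_add, cc_tt, add_zero]
  · intro r hr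
    have := le_card_BR (ι := Fin d ⊕ Fin d) r hr
    rwa [hcard] at this
  · intro r hr
    have := card_BR_le (ι := Fin d ⊕ Fin d) r hr
    rwa [hcard] at this
  · intro μ ν hμν w w' h1 h2
    have e1 : cc (M μ) (w - w') = 0 := by rw [map_sub]; exact sub_eq_zero.2 h1
    have e2 : cc (M ν) (w - w') = 0 := by rw [map_sub]; exact sub_eq_zero.2 h2
    rw [cc_apply, sub_eq_zero] at e1 e2
    have e3 : (M μ - M ν) (fun i => (w - w') (Sum.inl i)) = 0 := by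
      rw [AddMonoidHom.sub_apply, ← e1, ← e2, sub_self]
    have e4 : (fun i => (w - w') (Sum.inl i)) = 0 := by
      apply (hM μ ν hμν).1
      rw [e3, map_zero]
    rw [e4, map_zero] at e1
    rw [← sub_eq_zero]
    funext p
    cases p with
    | inl i => exact congrFun e4 i
    | inr i => exact congrFun e1 i

/-- the concrete configuration -/
theorem exists_sz (hd : 0 < d) :
    ∀ (S : Finset (GG d)) (δ : ℝ), 0 < δ → ∃ s0 : ℕ, ∀ s ≥ s0, ∀ E ⊆ BR (Fin d ⊕ Fin d) (s : ℕ),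
      δ * #(BR (Fin d ⊕ Fin d) (s : ℕ)) ≤ #E →
      ∃ (a : GG d) (j : ℕ), 1 ≤ j ∧ ∀ w ∈ S, a + j • w ∈ E := by
  have hne : Nonempty (Fin d ⊕ Fin d) := ⟨Sum.inl ⟨0, hd⟩⟩
  set n : ℕ := Fintype.card (Fin d ⊕ Fin d) with hn
  have hn0 : (0 : ℝ) < n := by rw [hn]; exact_mod_cast Fintype.card_pos
  have hb : 0 < (1 / (n : ℝ)) ^ n := by positivity
  refine szem_abs (fun s : ℕ => BR (Fin d ⊕ Fin d) (s : ℝ)) (6 ^ n / (1 / (n : ℝ)) ^ n) (by positivity)
    ?_ ?_ ?_ ?_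
  · intro s t h
    exact BR_mono (by exact_mod_cast h)
  · intro v
    refine ⟨⌈‖emb v‖⌉₊, fun s u hu => ?_⟩
    rw [mem_BR] at hu ⊢
    rw [emb_sub]
    refine (norm_sub_le _ _).trans ?_
    push_cast
    have := Nat.le_ceil ‖emb v‖
    linarith
  · intro K
    refine ⟨K + 1, fun s hs => ?_⟩
    have hs1 : (1 : ℝ) ≤ s := by exact_mod_cast (by omega : 1 ≤ s)
    have hsK : ((s + K : ℕ) : ℝ) ≤ 2 * s := by
      have : s + K ≤ 2 * s := by omega
      exact_mod_cast this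
    have h1 := card_BR_le (ι := Fin d ⊕ Fin d) ((s + K : ℕ) : ℝ) (by push_cast; linarith [Nat.cast_nonneg (α := ℝ) K])
    have h2 := le_card_BR (ι := Fin d ⊕ Fin d) (s : ℝ) (by linarith)
    rw [← hn] at h1 h2
    rw [div_mul_eq_mul_div, le_div_iff₀ hb]
    calc (#(BR (Fin d ⊕ Fin d) ((s + K : ℕ) : ℝ)) : ℝ) * (1 / (n : ℝ)) ^ n
        ≤ (3 ^ n * ((s + K : ℕ) : ℝ) ^ n) * (1 / (n : ℝ)) ^ n := by gcongr
      _ ≤ (3 ^ n * (2 * s) ^ n) * (1 / (n : ℝ)) ^ n := by gcongr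
      _ = 6 ^ n * ((1 / (n : ℝ)) ^ n * (s : ℝ) ^ n) := by
          rw [mul_pow]
          have : (6 : ℝ) ^ n = 3 ^ n * 2 ^ n := by rw [← mul_pow]; norm_num
          rw [this]
          ring
      _ ≤ 6 ^ n * #(BR (Fin d ⊕ Fin d) (s : ℝ)) := by gcongr
  · intro s
    refine ⟨0, ?_⟩
    rw [mem_BR, emb_zero, norm_zero]
    positivity

theorem geo_of_Bs {G G0 D : Type} [Fintype D] (c : D → G → G0) (BR : ℝ → Finset G) {d : ℕ}
    {A a b B l ρ r0 : ℝ} (hBs : Bs c BR d A a b B l ρ r0) (hne : ∀ s : ℕ, (BR (s : ℝ)).Nonempty) :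
    ∃ C : ℝ, 0 < C ∧ ∃ s0 : ℕ, ∀ s ≥ s0, (BR ((s : ℕ) : ℝ)).Nonempty ∧
    (∀ μ ν, μ ≠ ν → ∀ (H : Finset G) (Y : Type) (f : G → Y), H ⊆ BR ((s : ℕ) : ℝ) →
      (∀ u ∈ H, ∀ u' ∈ H, (c μ u = c μ u' ∨ c ν u = c ν u') → f u = f u') →
      ∃ y : Y, (#{u ∈ BR ((s : ℕ) : ℝ) | u ∉ H ∨ f u ≠ y} : ℝ) ≤
        C * #(BR ((s : ℕ) : ℝ) \ H)) ∧
    (∀ L : D → Set G0,
      (#{u ∈ BR ((s : ℕ) : ℝ) | 3 ≤ #{μ | c μ u ∈ L μ}} : ℝ) *
        #(BR ((s : ℕ) : ℝ)) ≤
        C * (#{u ∈ BR ((s : ℕ) : ℝ) | ∃ μ, c μ u ∈ L μ} : ℝ) ^ 2) := by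
  obtain ⟨C1, hC1, s1, h1⟩ := geo1 hBs
  obtain ⟨C2, hC2, s2, h2⟩ := geo2 hBs
  refine ⟨C1 + C2, by positivity, ⌈max s1 s2⌉₊, ?_⟩
  intro s hs
  have hs' : max s1 s2 ≤ (s : ℝ) := (Nat.le_ceil _).trans (by exact_mod_cast hs)
  refine ⟨hne s, ?_, ?_⟩
  · intro μ ν hμν H Y f _ hf
    obtain ⟨y, hy⟩ := h1 s ((le_max_left _ _).trans hs') μ ν hμν H Y f hf
    refine ⟨y, hy.trans ?_⟩
    gcongr
    linarith
  · intro L
    refine (h2 s ((le_max_right _ _).trans hs') L).trans ?_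
    gcongr
    linarith

/-- the configuration -/
def mkCfg (hd : 0 < d) (D : Type) [Fintype D] (M : D → ((Fin d → ℤ) →+ (Fin d → ℤ)))
    (hM : ∀ μ ν, μ ≠ ν → Function.Bijective (M μ - M ν)) : Cfg where
  G := GG d
  G0 := Fin d → ℤ
  D := D
  c := fun μ => cc (M μ)
  tf := by
    intro j a hj h
    funext i
    have h1 := congrFun h i
    simp only [Pi.smul_apply, Pi.zero_apply, nsmul_eq_mul, mul_eq_zero, Nat.cast_eq_zero] at h1
    rcases h1 with h1 | h1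
    · omega
    · exact h1
  nt := by
    intro μ
    refine ⟨Sum.elim 0 (fun _ => 1), ?_⟩
    intro h
    have h1 := congrFun h ⟨0, hd⟩
    rw [cc_apply] at h1
    have h2 : (fun i => (Sum.elim (0 : Fin d → ℤ) (fun _ => (1 : ℤ)) : GG d) (Sum.inl i)) = 0 := rfl
    rw [h2, map_zero] at h1
    simp at h1
  W := fun s => BR (Fin d ⊕ Fin d) (s : ℝ)
  sz := exists_sz hd
  geo := by
    obtain ⟨A, a, b, B, l, ρ, r0, hBs⟩ := exists_Bs hd D M hM
    exact geo_of_Bs _ _ hBs (fun s => ⟨0, by rw [mem_BR, emb_zero, norm_zero]; positivity⟩)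

end

end Pool.Agent.N524
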