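import Pool.Agent.N524.Tw

/-!
# The main step

From a good vector of classes `ζ` and a subspace `N` (a graph over the coordinates `I`) spanned by classes of
multiplicity at least two one obtains, by zooming at the critical level, a new good vector of classes.
-/

set_option autoImplicit false

namespace Pool.Agent.N524

open Finset
open scoped Classical

noncomputable section

variable {ι : Type} [Fintype ι]

omit [Fintype ι] in
theorem nf_mono {e e' : ℕ} (h : e ≤ e') {I : Finset ι} {A : ι → ι → ℤ_[2]} {y : ι → ℤ_[2]}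
    (hn : nf e' I A y) : nf e I A y := fun j hj => (pow_dvd_pow _ h).trans (hn j hj)

omit [Fintype ι] in
theorem isClosed_nf (e : ℕ) (I : Finset ι) (y : ι → ℤ_[2]) :
    IsClosed {A : ι → ι → ℤ_[2] | nf e I A y} := by
  have h1 : {A : ι → ι → ℤ_[2] | nf e I A y} =
      ⋂ j : ι, ⋂ _ : j ∉ I, {A : ι → ι → ℤ_[2] | ‖bl I A y j‖ ≤ (2 : ℝ) ^ (-e : ℤ)} := by
    ext A
    simp only [nf, Set.mem_ofPred_eq, Set.mem_iInter, dvd_pow_iff]
  rw [h1]
  refine isClosed_iInter fun j => isClosed_iInter fun _ => ?_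
  refine isClosed_le ?_ continuous_const
  refine Continuous.norm ?_
  unfold bl
  refine continuous_const.sub (continuous_finsetSum _ fun l _ => ?_)
  exact (continuous_apply_apply j l).mul continuous_const

/-- the critical level is finite -/
theorem fin_level (K : Cfg) (BN : Finset K.D) (I : Finset ι) (W S0 : Finset K.G)
    (x : K.G → ι → ℤ_[2]) (y : K.D → K.G0 → ι → ℤ_[2]) (hR : Rl K BN W x y)
    (hT : ∀ x y, ¬ Rl K BN (ι := I) S0 x y)
    (hS : ∀ E ⊆ W, (1 / 2 : ℝ) * #W ≤ #E → ∃ (a : K.G) (j : ℕ), 1 ≤ j ∧ ∀ w ∈ S0, a + j • w ∈ E)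
    (hV : ∀ e : ℕ, ∃ A : ι → ι → ℤ_[2],
      (#{u ∈ W | ∃ m ∈ BN, ¬ nf (e + 1) I A (y m (K.c m u))} : ℝ) ≤ 1 / 2 * #W) : False := by
  have h1 : ∃ X ⊆ W, (1 / 2 : ℝ) * #W ≤ #X ∧ ∀ e : ℕ, ∃ A : ι → ι → ℤ_[2],
      ∀ u ∈ X, ∀ m ∈ BN, nf (e + 1) I A (y m (K.c m u)) := by
    by_contra hcon
    push Not at hcon
    have hc2 : ∀ X : Finset K.G, ∃ e : ℕ, X ⊆ W → (1 / 2 : ℝ) * #W ≤ #X → ∀ A : ι → ι → ℤ_[2],
        ∃ u ∈ X, ∃ m ∈ BN, ¬ nf (e + 1) I A (y m (K.c m u)) := by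
      intro X
      by_cases hX : X ⊆ W ∧ (1 / 2 : ℝ) * #W ≤ #X
      · obtain ⟨e, he⟩ := hcon X hX.1 hX.2
        exact ⟨e, fun _ _ => he⟩
      · refine ⟨0, fun h1 h2 => absurd ⟨h1, h2⟩ hX⟩
    choose e he using hc2
    set E := W.powerset.sup e with hE
    obtain ⟨A, hA⟩ := hV E
    set X := W.filter (fun u => ¬ ∃ m ∈ BN, ¬ nf (E + 1) I A (y m (K.c m u))) with hX
    have hXW : X ⊆ W := Finset.filter_subset _ _
    have hcard : (1 / 2 : ℝ) * #W ≤ #X := by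
      have := Finset.card_filter_add_card_filter_not (s := W)
        (fun u => ∃ m ∈ BN, ¬ nf (E + 1) I A (y m (K.c m u)))
      have h2 : (#{u ∈ W | ∃ m ∈ BN, ¬ nf (E + 1) I A (y m (K.c m u))} : ℝ) + #X = #W := by
        exact_mod_cast this
      linarith
    obtain ⟨u, hu, m, hm, hnf⟩ := he X hXW hcard A
    apply hnf
    rw [hX, Finset.mem_filter] at hu
    have h3 := hu.2
    push Not at h3
    have hle : e X ≤ E := Finset.le_sup (Finset.mem_powerset.2 hXW)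
    exact nf_mono (by omega) (h3 m hm)
  obtain ⟨X, hXW, hXc, hX⟩ := h1
  have h2 : (⋂ e : ℕ, {A : ι → ι → ℤ_[2] | ∀ u ∈ X, ∀ m ∈ BN, nf (e + 1) I A (y m (K.c m u))}).Nonempty := by
    have hcl : ∀ e : ℕ, IsClosed {A : ι → ι → ℤ_[2] | ∀ u ∈ X, ∀ m ∈ BN,
        nf (e + 1) I A (y m (K.c m u))} := by
      intro e
      have : {A : ι → ι → ℤ_[2] | ∀ u ∈ X, ∀ m ∈ BN, nf (e + 1) I A (y m (K.c m u))} =
          ⋂ u : K.G, ⋂ _ : u ∈ X, ⋂ m : K.D, ⋂ _ : m ∈ BN,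
            {A : ι → ι → ℤ_[2] | nf (e + 1) I A (y m (K.c m u))} := by
        ext A
        simp
      rw [this]
      exact isClosed_iInter fun u => isClosed_iInter fun _ => isClosed_iInter fun m =>
        isClosed_iInter fun _ => isClosed_nf _ _ _
    refine IsCompact.nonempty_iInter_of_sequence_nonempty_isCompact_isClosed _ ?_ ?_ ?_ hcl
    · intro e A hA u hu m hm
      exact nf_mono (by omega) (hA u hu m hm)
    · intro e
      obtain ⟨A, hA⟩ := hX e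
      exact ⟨A, hA⟩
    · exact (hcl 0).isCompact
  obtain ⟨A, hA⟩ := h2
  have h0 : ∀ u ∈ X, ∀ m ∈ BN, ∀ j ∉ I, bl I A (y m (K.c m u)) j = 0 := by
    intro u hu m hm j hj
    apply eq_zero_of_dvd
    intro n
    have := Set.mem_iInter.1 hA n u hu m hm j hj
    exact (pow_dvd_pow _ (Nat.le_succ n)).trans this
  obtain ⟨a, j, hj, hw⟩ := hS X hXW hXc
  have hR2 := Rl_hom hj (fun w hw' => hXW (hw w hw')) hR
  refine hT (fun w i => x (a + j • w) i + ∑ l ∈ Iᶜ, A l i * x (a + j • w) l)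
    (fun m t i => y m (K.c m a + j • t) i) ?_
  intro μ hμ u hu u' hu'
  rw [← hR2 μ hμ u hu u' hu', ← sum_dual I A]
  rw [Finset.sum_coe_sort I (fun i => (x (a + j • u) i + ∑ l ∈ Iᶜ, A l i * x (a + j • u) l) *
    y μ (K.c μ a + j • K.c μ u') i)]
  rw [Finset.sum_eq_zero (s := Iᶜ), add_zero]
  intro l hl
  show x (a + j • u) l * bl I A (y μ (K.c μ a + j • K.c μ u')) l = 0
  rw [← c_hom, h0 _ (hw u' hu') μ hμ l (Finset.mem_compl.1 hl), mul_zero]

/-- raising the level when almost all points are perfect -/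
theorem raise (K : Cfg) (B : Finset K.D) (W : Finset K.G)
    (y z : K.D → K.G0 → ι → ℤ_[2]) (ζ : K.D → ι → ZMod 2) (N : Submodule (ZMod 2) (ι → ZMod 2))
    (I : Finset ι) (A0 : ι → ι → ZMod 2)
    (hspan : N ≤ Submodule.span (ZMod 2) {θ | θ ∈ N ∧ 2 ≤ #{m ∈ B | ζ m = θ}})
    (hy : ∀ m ∈ B, ∀ u ∈ W, rd (y m (K.c m u)) = ζ m)
    (e : ℕ) (he : 1 ≤ e) (A : ι → ι → ℤ_[2]) (hA : ∀ j ∉ I, ∀ i ∈ I, PadicInt.toZMod (A j i) = A0 j i)
    (hz1 : ∀ m ∈ B, ∀ u ∈ W, rd (z m (K.c m u)) ≠ 0)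
    (hz2 : ∀ m ∈ B, ∀ u ∈ W, nf e I A (y m (K.c m u)) →
      (∀ i ∈ I, z m (K.c m u) i = y m (K.c m u) i) ∧
      ∀ j ∉ I, bl I A (y m (K.c m u)) j = 2 ^ e * z m (K.c m u) j)
    (hz3 : ∀ m ∈ B, ∀ u ∈ W, ¬ nf e I A (y m (K.c m u)) → ∀ i ∈ I, rd (z m (K.c m u)) i = 0)
    (C : ℝ) (hC : 0 < C)
    (hgeo : ∀ μ ν, μ ≠ ν → ∀ (H : Finset K.G) (Y : Type) (f : K.G → Y), H ⊆ W →
      (∀ u ∈ H, ∀ u' ∈ H, (K.c μ u = K.c μ u' ∨ K.c ν u = K.c ν u') → f u = f u') →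
      ∃ y : Y, (#{u ∈ W | u ∉ H ∨ f u ≠ y} : ℝ) ≤ C * #(W \ H))
    (hW : W.Nonempty) (δ : ℝ) (hδ : δ < 1)
    (hnp : (#{u ∈ W | ¬ ∃ χ : ι → ι → ZMod 2, ∀ m ∈ B, ζ m ∈ N → ∀ j ∉ I,
      rd (z m (K.c m u)) j = ∑ i ∈ I, χ j i * rd (z m (K.c m u)) i} : ℝ) *
      (C * Fintype.card (ι → ZMod 2) + 1) ≤ δ * #W) :
    ∃ A' : ι → ι → ℤ_[2], (∀ j ∉ I, ∀ i ∈ I, PadicInt.toZMod (A' j i) = A0 j i) ∧
      (#{u ∈ W | ∃ m ∈ B, ζ m ∈ N ∧ ¬ nf (e + 1) I A' (y m (K.c m u))} : ℝ) ≤ δ * #W := by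
  rcases isEmpty_or_nonempty K.D with hD | hD
  · refine ⟨A, hA, ?_⟩
    have h0 : (0 : ℝ) ≤ δ * #W := le_trans (by positivity) hnp
    refine le_trans (le_of_eq ?_) h0
    rw [Nat.cast_eq_zero, Finset.card_eq_zero, Finset.filter_eq_empty_iff]
    rintro u _ ⟨m, _⟩
    exact hD.elim m
  set H : Finset K.G := {u ∈ W | ∃ χ : ι → ι → ZMod 2, ∀ m ∈ B, ζ m ∈ N → ∀ j ∉ I,
      rd (z m (K.c m u)) j = ∑ i ∈ I, χ j i * rd (z m (K.c m u)) i} with hH
  have hHW : H ⊆ W := Finset.filter_subset _ _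
  have hWH : (#(W \ H) : ℝ) * (C * Fintype.card (ι → ZMod 2) + 1) ≤ δ * #W := by
    refine le_trans (le_of_eq ?_) hnp
    congr 2
    congr 1
    ext u
    simp only [hH, Finset.mem_sdiff, Finset.mem_filter, not_and]
    constructor
    · rintro ⟨h1, h2⟩
      exact ⟨h1, h2 h1⟩
    · rintro ⟨h1, h2⟩
      exact ⟨h1, fun _ => h2⟩
  -- lines through a perfect point do not fail
  have hper : ∀ u ∈ W, ∀ χ : ι → ι → ZMod 2, (∀ m ∈ B, ζ m ∈ N → ∀ j ∉ I,
      rd (z m (K.c m u)) j = ∑ i ∈ I, χ j i * rd (z m (K.c m u)) i) → ∀ m ∈ B, ζ m ∈ N →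
      nf e I A (y m (K.c m u)) ∧ (∀ i ∈ I, rd (z m (K.c m u)) i = ζ m i) := by
    intro u hu χ hχ m hm hmN
    have hn : nf e I A (y m (K.c m u)) := by
      by_contra hn
      apply hz1 m hm u hu
      have h3 := hz3 m hm u hu hn
      funext i
      by_cases hi : i ∈ I
      · exact h3 i hi
      · rw [hχ m hm hmN i hi]
        exact Finset.sum_eq_zero fun l hl => by rw [h3 l hl, mul_zero]
    refine ⟨hn, fun i hi => ?_⟩
    rw [← hy m hm u hu]
    show PadicInt.toZMod (z m (K.c m u) i) = PadicInt.toZMod (y m (K.c m u) i)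
    rw [(hz2 m hm u hu hn).1 i hi]
  set Θ : Finset (ι → ZMod 2) := Finset.univ.filter (fun θ => θ ∈ N ∧ 2 ≤ #{m ∈ B | ζ m = θ}) with hΘ
  have h1 : ∀ θ : ι → ZMod 2, ∃ (μ : K.D) (yθ : ι → ZMod 2), θ ∈ Θ → μ ∈ B ∧ ζ μ = θ ∧
      (#{u ∈ W | u ∉ H ∨ rd (z μ (K.c μ u)) ≠ yθ} : ℝ) ≤ C * #(W \ H) := by
    intro θ
    by_cases hθ : θ ∈ Θ
    · have h2 := (Finset.mem_filter.1 hθ).2
      obtain ⟨μ, hμ, ν, hν, hne⟩ := Finset.one_lt_card.1 (lt_of_lt_of_le one_lt_two h2.2)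
      rw [Finset.mem_filter] at hμ hν
      obtain ⟨yθ, hyθ⟩ := hgeo μ ν hne H (ι → ZMod 2) (fun u => rd (z μ (K.c μ u))) hHW (by
        intro u hu u' hu' h
        rcases h with h | h
        · simp only [h]
        · have key : ∀ w ∈ H, rd (z μ (K.c μ w)) = rd (z ν (K.c ν w)) := by
            intro w hw
            obtain ⟨hwW, χ, hχ⟩ := Finset.mem_filter.1 hw
            have hμN : ζ μ ∈ N := by rw [hμ.2]; exact h2.1
            have hνN : ζ ν ∈ N := by rw [hν.2]; exact h2.1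
            have p1 := hper w hwW χ hχ μ hμ.1 hμN
            have p2 := hper w hwW χ hχ ν hν.1 hνN
            funext i
            by_cases hi : i ∈ I
            · rw [p1.2 i hi, p2.2 i hi, hμ.2, hν.2]
            · rw [hχ μ hμ.1 hμN i hi, hχ ν hν.1 hνN i hi]
              refine Finset.sum_congr rfl fun l hl => ?_
              rw [p1.2 l hl, p2.2 l hl, hμ.2, hν.2]
          show rd (z μ (K.c μ u)) = rd (z μ (K.c μ u'))
          rw [key u hu, key u' hu', h])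
      exact ⟨μ, yθ, fun _ => ⟨hμ.1, hμ.2, by convert hyθ⟩⟩
    · obtain ⟨μ⟩ := hD
      exact ⟨μ, 0, fun h => absurd h hθ⟩
  choose μ yθ hμ using h1
  set Bad : Finset K.G := (W \ H) ∪ Θ.biUnion (fun θ => {u ∈ W | u ∉ H ∨ rd (z (μ θ) (K.c (μ θ) u)) ≠ yθ θ})
    with hBad
  have hBadc : (#Bad : ℝ) ≤ δ * #W := by
    have h2 : (#Bad : ℝ) ≤ #(W \ H) + ∑ θ ∈ Θ, C * #(W \ H) := by
      have h3 : #Bad ≤ #(W \ H) + ∑ θ ∈ Θ, #{u ∈ W | u ∉ H ∨ rd (z (μ θ) (K.c (μ θ) u)) ≠ yθ θ} :=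
        (Finset.card_union_le _ _).trans (Nat.add_le_add_left Finset.card_biUnion_le _)
      have h4 : (#Bad : ℝ) ≤ #(W \ H) +
          ∑ θ ∈ Θ, (#{u ∈ W | u ∉ H ∨ rd (z (μ θ) (K.c (μ θ) u)) ≠ yθ θ} : ℝ) := by
        exact_mod_cast h3
      refine h4.trans ?_
      gcongr with θ hθ
      exact (hμ θ hθ).2.2
    rw [Finset.sum_const, nsmul_eq_mul] at h2
    have h5 : (#Θ : ℝ) ≤ Fintype.card (ι → ZMod 2) := by
      exact_mod_cast Finset.card_le_univ Θ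
    have h6 : (0 : ℝ) ≤ C * #(W \ H) := by positivity
    nlinarith [mul_le_mul_of_nonneg_right h5 h6]
  have hWpos : (0 : ℝ) < #W := by exact_mod_cast hW.card_pos
  obtain ⟨u0, hu0W, hu0⟩ : ∃ u0 ∈ W, u0 ∉ Bad := by
    by_contra hcon
    push Not at hcon
    have : (#W : ℝ) ≤ #Bad := by exact_mod_cast Finset.card_le_card hcon
    nlinarith
  have hnotbad : ∀ u ∈ W, u ∉ Bad → u ∈ H ∧ ∀ θ ∈ Θ, rd (z (μ θ) (K.c (μ θ) u)) = yθ θ := by
    intro u hu hub
    rw [hBad, Finset.mem_union, not_or] at hub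
    constructor
    · by_contra h
      exact hub.1 (Finset.mem_sdiff.2 ⟨hu, h⟩)
    · intro θ hθ
      by_contra h
      exact hub.2 (Finset.mem_biUnion.2 ⟨θ, hθ, Finset.mem_filter.2 ⟨hu, Or.inr h⟩⟩)
  obtain ⟨hu0H, hu0θ⟩ := hnotbad u0 hu0W hu0
  obtain ⟨_, χ, hχ⟩ := Finset.mem_filter.1 hu0H
  choose lift hlift using toZ_surj
  refine ⟨fun j i => A j i + 2 ^ e * lift (χ j i), ?_, ?_⟩
  · intro j hj i hi
    rw [map_add, toZ_two_pow_mul he, add_zero, hA j hj i hi]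
  · refine le_trans ?_ hBadc
    have hsub : {u ∈ W | ∃ m ∈ B, ζ m ∈ N ∧ ¬ nf (e + 1) I (fun j i => A j i + 2 ^ e * lift (χ j i))
        (y m (K.c m u))} ⊆ Bad := by
      intro u hu
      by_contra hub
      obtain ⟨huW, m, hm, hmN, hnf⟩ := Finset.mem_filter.1 hu
      obtain ⟨huH, huθ⟩ := hnotbad u huW hub
      obtain ⟨_, χu, hχu⟩ := Finset.mem_filter.1 huH
      have hagree : ∀ v ∈ N, ∀ j ∉ I, ∑ i ∈ I, χu j i * v i = ∑ i ∈ I, χ j i * v i := by
        intro v hv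
        have hv2 := hspan hv
        clear hv
        induction hv2 using Submodule.span_induction with
        | mem θ hθ =>
          intro j hj
          have hθ' : θ ∈ Θ := Finset.mem_filter.2 ⟨Finset.mem_univ _, hθ⟩
          have hμN : ζ (μ θ) ∈ N := by rw [(hμ θ hθ').2.1]; exact hθ.1
          have p1 := hper u huW χu hχu (μ θ) (hμ θ hθ').1 hμN
          have p2 := hper u0 hu0W χ hχ (μ θ) (hμ θ hθ').1 hμN
          have q1 := hχu (μ θ) (hμ θ hθ').1 hμN j hj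
          have q2 := hχ (μ θ) (hμ θ hθ').1 hμN j hj
          rw [huθ θ hθ'] at q1
          rw [hu0θ θ hθ'] at q2
          rw [q1] at q2
          have e1 : ∀ i ∈ I, yθ θ i = θ i := by
            intro i hi
            rw [← huθ θ hθ', p1.2 i hi, (hμ θ hθ').2.1]
          calc ∑ i ∈ I, χu j i * θ i = ∑ i ∈ I, χu j i * yθ θ i :=
                Finset.sum_congr rfl fun i hi => by rw [e1 i hi]
            _ = ∑ i ∈ I, χ j i * yθ θ i := q2
            _ = ∑ i ∈ I, χ j i * θ i := Finset.sum_congr rfl fun i hi => by rw [e1 i hi]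
        | zero => intro j _; simp
        | add v w _ _ hv hw =>
          intro j hj
          simp only [Pi.add_apply, mul_add, Finset.sum_add_distrib, hv j hj, hw j hj]
        | smul r v _ hv =>
          intro j hj
          simp only [Pi.smul_apply, smul_eq_mul]
          simp only [mul_left_comm _ r, ← Finset.mul_sum]
          rw [hv j hj]
      apply hnf
      intro j hj
      obtain ⟨hn, hzI⟩ := hper u huW χu hχu m hm hmN
      obtain ⟨z1, z2⟩ := hz2 m hm u huW hn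
      have e1 : bl I (fun j i => A j i + 2 ^ e * lift (χ j i)) (y m (K.c m u)) j =
          2 ^ e * (z m (K.c m u) j - ∑ l ∈ I, lift (χ j l) * z m (K.c m u) l) := by
        have e2 := z2 j hj
        unfold bl at e2 ⊢
        simp only [add_mul, Finset.sum_add_distrib]
        rw [← sub_sub, e2, mul_sub, Finset.mul_sum]
        congr 1
        refine Finset.sum_congr rfl fun l hl => ?_
        rw [z1 l hl]
        ring
      rw [e1]
      have e3 : PadicInt.toZMod (z m (K.c m u) j - ∑ l ∈ I, lift (χ j l) * z m (K.c m u) l) = 0 := by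
        rw [map_sub, map_sum, sub_eq_zero]
        have e4 := hχu m hm hmN j hj
        have e5 : PadicInt.toZMod (z m (K.c m u) j) = rd (z m (K.c m u)) j := rfl
        rw [e5, e4]
        have e6 := hagree (ζ m) hmN j hj
        calc ∑ i ∈ I, χu j i * rd (z m (K.c m u)) i = ∑ i ∈ I, χu j i * ζ m i :=
              Finset.sum_congr rfl fun i hi => by rw [hzI i hi]
          _ = ∑ i ∈ I, χ j i * ζ m i := e6
          _ = ∑ i ∈ I, PadicInt.toZMod (lift (χ j i) * z m (K.c m u) i) := by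
              refine Finset.sum_congr rfl fun i hi => ?_
              rw [map_mul, hlift, ← hzI i hi]
              rfl
      obtain ⟨b, hb⟩ := (toZ_eq_zero _).1 e3
      rw [hb]
      exact ⟨b, by ring⟩
    exact_mod_cast Finset.card_le_card hsub

end

end Pool.Agent.N524
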