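import Pool.Agent.N524.StepA

set_option autoImplicit false

namespace Pool.Agent.N524

open Finset
open scoped Classical

noncomputable section

variable {ι : Type} [Fintype ι]

theorem stepA (K : Cfg) (B : Finset K.D) (ζ : K.D → ι → ZMod 2) (hζ : Gd K B ζ)
    (N : Submodule (ZMod 2) (ι → ZMod 2)) (I : Finset ι) (A0 : ι → ι → ZMod 2)
    (hN : ∀ v, v ∈ N ↔ ∀ j ∉ I, v j = ∑ i ∈ I, A0 j i * v i)
    (hspan : N ≤ Submodule.span (ZMod 2) {θ | θ ∈ N ∧ 2 ≤ #{m ∈ B | ζ m = θ}})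
    (hT : ∃ S0 : Finset K.G, ∀ x y, ¬ Rl K {m ∈ B | ζ m ∈ N} (ι := I) S0 x y) :
    ∃ ζ' : K.D → ι → ZMod 2, Gd K B ζ' ∧
      (∀ m ∈ B, ζ m ∉ N → ∀ i ∈ I, ζ' m i = 0) ∧
      (∀ m ∈ B, ζ m ∈ N → (∀ i ∈ I, ζ' m i = ζ m i) ∨ (∀ i ∈ I, ζ' m i = 0)) ∧
      #{m ∈ B | ζ m ∈ N ∧ ∀ i ∈ I, ζ' m i = 0} ≤ 2 ∧
      ¬ ∃ χ : ι → ι → ZMod 2, ∀ m ∈ B, ζ m ∈ N → ∀ j ∉ I, ζ' m j = ∑ i ∈ I, χ j i * ζ' m i := by
  have hgoal : ∀ S : Finset K.G, ∃ ζ' : K.D → ι → ZMod 2, (∀ m ∈ B, ζ' m ≠ 0) ∧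
      (∀ m ∈ B, ζ m ∉ N → ∀ i ∈ I, ζ' m i = 0) ∧
      (∀ m ∈ B, ζ m ∈ N → (∀ i ∈ I, ζ' m i = ζ m i) ∨ (∀ i ∈ I, ζ' m i = 0)) ∧
      #{m ∈ B | ζ m ∈ N ∧ ∀ i ∈ I, ζ' m i = 0} ≤ 2 ∧
      (¬ ∃ χ : ι → ι → ZMod 2, ∀ m ∈ B, ζ m ∈ N → ∀ j ∉ I, ζ' m j = ∑ i ∈ I, χ j i * ζ' m i) ∧
      ∃ x y, Rl K B S x y ∧ ∀ m ∈ B, ∀ u ∈ S, rd (y m (K.c m u)) = ζ' m := by
    intro S
    set BN : Finset K.D := {m ∈ B | ζ m ∈ N} with hBN
    obtain ⟨S0, hS0⟩ := hT
    obtain ⟨C, hC, s1, hgeo⟩ := K.geo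
    set q : ℝ := ((Fintype.card (ι → ZMod 2) : ℕ) : ℝ) with hq
    set Q : ℝ := ((Fintype.card (K.D → ι → ZMod 2) : ℕ) : ℝ) with hQ
    have hq0 : 0 < q := by rw [hq]; exact_mod_cast Fintype.card_pos
    have hQ0 : 0 < Q := by rw [hQ]; exact_mod_cast Fintype.card_pos
    set δ : ℝ := min (1 / 2) (1 / (2 * C)) with hδ
    have hδ0 : 0 < δ := by rw [hδ]; positivity
    have hδ1 : δ ≤ 1 / 2 := min_le_left _ _
    have hδ2 : C * δ ≤ 1 / 2 := by
      have : δ ≤ 1 / (2 * C) := min_le_right _ _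
      calc C * δ ≤ C * (1 / (2 * C)) := by gcongr
        _ = 1 / 2 := by field_simp
    set δ1 : ℝ := δ / (C * q + 1) with hδ1'
    have hδ10 : 0 < δ1 := by positivity
    obtain ⟨s2, hs2⟩ := K.sz S (δ1 / (2 * Q)) (by positivity)
    obtain ⟨s3, hs3⟩ := K.sz S0 (1 / 2) (by norm_num)
    set s : ℕ := max s1 (max s2 s3) with hs
    have hs1' : s1 ≤ s := le_max_left _ _
    have hs2' : s2 ≤ s := (le_max_left _ _).trans (le_max_right _ _)
    have hs3' : s3 ≤ s := (le_max_right _ _).trans (le_max_right _ _)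
    obtain ⟨hW, hgeo1, hgeo2⟩ := hgeo s hs1'
    set W := K.W s with hWdef
    have hWpos : (0 : ℝ) < #W := by exact_mod_cast hW.card_pos
    obtain ⟨x, y, hR, hy⟩ := hζ.2 W
    choose lift hlift using toZ_surj
    -- valid levels
    let Valid : ℕ → Prop := fun e => ∃ A : ι → ι → ℤ_[2],
      (∀ j ∉ I, ∀ i ∈ I, PadicInt.toZMod (A j i) = A0 j i) ∧
      (#{u ∈ W | ∃ m ∈ B, ζ m ∈ N ∧ ¬ nf e I A (y m (K.c m u))} : ℝ) ≤ δ * #W
    -- a nonfailing line at level ≥ 1 has class in N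
    have hnfN : ∀ e, 1 ≤ e → ∀ A : ι → ι → ℤ_[2],
        (∀ j ∉ I, ∀ i ∈ I, PadicInt.toZMod (A j i) = A0 j i) → ∀ v : ι → ℤ_[2],
        (nf e I A v → rd v ∈ N) := by
      intro e he A hA v hn
      rw [hN]
      intro j hj
      obtain ⟨t, ht⟩ := hn j hj
      have h1 := rd_bl I A v j
      rw [ht, toZ_two_pow_mul he] at h1
      rw [sub_eq_zero.1 h1.symm]
      exact Finset.sum_congr rfl fun i hi => by rw [hA j hj i hi]
    have hV1 : Valid 1 := by
      refine ⟨fun j i => lift (A0 j i), fun j _ i _ => hlift _, ?_⟩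
      refine le_trans (le_of_eq ?_) (by positivity : (0 : ℝ) ≤ δ * #W)
      rw [Nat.cast_eq_zero, Finset.card_eq_zero, Finset.filter_eq_empty_iff]
      rintro u hu ⟨m, hm, hmN, hn⟩
      apply hn
      intro j hj
      have h1 := rd_bl I (fun j i => lift (A0 j i)) (y m (K.c m u)) j
      rw [hy m hm u hu] at h1
      simp only [hlift] at h1
      rw [(hN _).1 hmN j hj, sub_self, toZ_eq_zero] at h1
      obtain ⟨b, hb⟩ := h1
      exact ⟨b, by rw [hb]; ring⟩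
    have hVfin : ¬ ∀ e, Valid (e + 1) := by
      intro hall
      refine fin_level K BN I W S0 x y (fun μ hμ => hR μ (Finset.mem_filter.1 hμ).1) hS0
        (fun E hE hc => hs3 s hs3' E hE hc) ?_
      intro e
      obtain ⟨A, hA, hc⟩ := hall e
      refine ⟨A, ?_⟩
      have h1 : ({u ∈ W | ∃ m ∈ BN, ¬ nf (e + 1) I A (y m (K.c m u))} : Finset K.G) =
          {u ∈ W | ∃ m ∈ B, ζ m ∈ N ∧ ¬ nf (e + 1) I A (y m (K.c m u))} := by
        ext u
        simp only [hBN, Finset.mem_filter, and_assoc]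
      rw [h1]
      refine hc.trans ?_
      gcongr
    obtain ⟨e, he1, hVe, hVe1⟩ : ∃ e, 1 ≤ e ∧ Valid e ∧ ¬ Valid (e + 1) := by
      by_contra hcon
      push Not at hcon
      apply hVfin
      intro e
      induction e with
      | zero => exact hV1
      | succ n ih => exact hcon (n + 1) (by omega) ih
    obtain ⟨A, hA, hFl⟩ := hVe
    -- new vectors
    have hz : ∀ (m : K.D) (t : K.G0), ∃ (a : ℕ) (z : ι → ℤ_[2]), m ∈ B → rd (y m t) = ζ m →
        ((∀ i, tw e I A (y m t) i = 2 ^ a * z i) ∧ rd z ≠ 0 ∧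
        (nf e I A (y m t) → (∀ i ∈ I, z i = y m t i) ∧ ∀ j ∉ I, bl I A (y m t) j = 2 ^ e * z j) ∧
        (¬ nf e I A (y m t) → ∀ i ∈ I, rd z i = 0)) := by
      intro m t
      by_cases hmt : m ∈ B ∧ rd (y m t) = ζ m
      · obtain ⟨a, z, hz⟩ := classify e he1 I A (y m t) (by rw [hmt.2]; exact hζ.1 m hmt.1) (by
          intro hn
          have h1 := hnfN e he1 A hA _ hn
          by_contra hcon
          push Not at hcon
          apply hζ.1 m hmt.1
          rw [← hmt.2]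
          funext i
          by_cases hi : i ∈ I
          · exact hcon i hi
          · rw [(hN _).1 h1 i hi]
            exact Finset.sum_eq_zero fun l hl => by rw [hcon l hl, mul_zero])
        exact ⟨a, z, fun _ _ => hz⟩
      · exact ⟨0, 0, fun h1 h2 => absurd ⟨h1, h2⟩ hmt⟩
    choose ae z hz using hz
    have hz0 : ∀ m ∈ B, ∀ u ∈ W, (∀ i, tw e I A (y m (K.c m u)) i = 2 ^ (ae m (K.c m u)) * z m (K.c m u) i) :=
      fun m hm u hu => (hz m (K.c m u) hm (hy m hm u hu)).1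
    have hz1 : ∀ m ∈ B, ∀ u ∈ W, rd (z m (K.c m u)) ≠ 0 :=
      fun m hm u hu => (hz m (K.c m u) hm (hy m hm u hu)).2.1
    have hz2 := fun m hm u hu => (hz m (K.c m u) hm (hy m hm u hu)).2.2.1
    have hz3 := fun m hm u hu => (hz m (K.c m u) hm (hy m hm u hu)).2.2.2
    set Np : Finset K.G := {u ∈ W | ¬ ∃ χ : ι → ι → ZMod 2, ∀ m ∈ B, ζ m ∈ N → ∀ j ∉ I,
      rd (z m (K.c m u)) j = ∑ i ∈ I, χ j i * rd (z m (K.c m u)) i} with hNp
    have hNpc : δ1 * #W < #Np := by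
      by_contra hcon
      push Not at hcon
      apply hVe1
      refine raise K B W y z ζ N I A0 hspan hy e he1 A hA hz1 hz2 hz3 C hC hgeo1 hW δ
        (by linarith) ?_
      have h1 : δ1 * (C * q + 1) = δ := by
        rw [hδ1']
        field_simp
      calc (#Np : ℝ) * (C * q + 1) ≤ (δ1 * #W) * (C * q + 1) := by gcongr
        _ = δ1 * (C * q + 1) * #W := by ring
        _ = δ * #W := by rw [h1]
    -- failing points
    set Fl : Finset K.G := {u ∈ W | ∃ m ∈ B, ζ m ∈ N ∧ ¬ nf e I A (y m (K.c m u))} with hFldef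
    have hFlNp : Fl ⊆ Np := by
      intro u hu
      obtain ⟨huW, m, hm, hmN, hn⟩ := Finset.mem_filter.1 hu
      refine Finset.mem_filter.2 ⟨huW, ?_⟩
      rintro ⟨χ, hχ⟩
      apply hz1 m hm u huW
      have h3 := hz3 m hm u huW hn
      funext i
      by_cases hi : i ∈ I
      · exact h3 i hi
      · rw [hχ m hm hmN i hi]
        exact Finset.sum_eq_zero fun l hl => by rw [h3 l hl, mul_zero]
    obtain ⟨L, hL⟩ : ∃ L : K.D → Set K.G0, ∀ m t, t ∈ L m ↔ (m ∈ BN ∧ ¬ nf e I A (y m t)) :=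
      ⟨fun m => {t : K.G0 | m ∈ BN ∧ ¬ nf e I A (y m t)}, fun _ _ => Iff.rfl⟩
    set F3 : Finset K.G := {u ∈ W | 3 ≤ #{m : K.D | K.c m u ∈ L m}} with hF3
    have hF3c : (#F3 : ℝ) ≤ #Fl / 2 := by
      have h1 := hgeo2 L
      have h2 : ({u ∈ W | ∃ m, K.c m u ∈ L m} : Finset K.G) = Fl := by
        ext u
        simp only [hFldef, hBN, Finset.mem_filter, hL, and_assoc]
      rw [h2] at h1
      have h3 : (#F3 : ℝ) * #W ≤ C * (#Fl : ℝ) ^ 2 := h1
      have h4 : C * (#Fl : ℝ) ^ 2 ≤ (#Fl / 2) * #W := by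
        have h5 : (#Fl : ℝ) ≤ δ * #W := hFl
        have h6 : (0 : ℝ) ≤ #Fl := by positivity
        calc C * (#Fl : ℝ) ^ 2 = C * #Fl * #Fl := by ring
          _ ≤ C * (δ * #W) * #Fl := by gcongr
          _ = (C * δ) * (#W * #Fl) := by ring
          _ ≤ 1 / 2 * (#W * #Fl) := by gcongr
          _ = _ := by ring
      exact le_of_mul_le_mul_right (h3.trans h4) hWpos
    set E : Finset K.G := Np \ F3 with hE
    have hEc : δ1 / 2 * #W < #E := by
      have h1 : #Np ≤ #E + #F3 := by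
        rw [hE]
        have := Finset.le_card_sdiff F3 Np
        omega
      have h1' : (#Np : ℝ) ≤ #E + #F3 := by exact_mod_cast h1
      have h2 : (#Fl : ℝ) ≤ #Np := by exact_mod_cast Finset.card_le_card hFlNp
      linarith
    have hEW : E ⊆ W := Finset.sdiff_subset.trans (Finset.filter_subset _ _)
    -- pigeonhole on colours
    obtain ⟨κ, _, hκ⟩ := Finset.exists_le_card_fiber_of_nsmul_le_card_of_maps_to
      (s := E) (t := (Finset.univ : Finset (K.D → ι → ZMod 2)))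
      (f := fun u m => rd (z m (K.c m u))) (b := (#E : ℝ) / Q) (fun _ _ => Finset.mem_univ _)
      Finset.univ_nonempty (by
        rw [Finset.card_univ, nsmul_eq_mul]
        show Q * _ ≤ _
        rw [mul_div_cancel₀ _ hQ0.ne'])
    set E' : Finset K.G := {u ∈ E | (fun m => rd (z m (K.c m u))) = κ} with hE'
    have hE'c : δ1 / (2 * Q) * #W ≤ #E' := by
      refine le_trans ?_ hκ
      rw [div_mul_eq_mul_div, div_le_div_iff₀ (by positivity) hQ0]
      nlinarith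
    obtain ⟨a, j, hj, hw⟩ := hs2 s hs2' E' ((Finset.filter_subset _ _).trans hEW) hE'c
    have hE'ne : E'.Nonempty := by
      rw [← Finset.card_pos]
      have : (0 : ℝ) < #E' := lt_of_lt_of_le (by positivity) hE'c
      exact_mod_cast this
    obtain ⟨u0, hu0⟩ := hE'ne
    have hE'spec : ∀ u ∈ E', u ∈ W ∧ u ∈ Np ∧ u ∉ F3 ∧ ∀ m, rd (z m (K.c m u)) = κ m := by
      intro u hu
      obtain ⟨h1, h2⟩ := Finset.mem_filter.1 hu
      have h3 := Finset.mem_sdiff.1 h1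
      exact ⟨hEW h1, h3.1, h3.2, fun m => congrFun h2 m⟩
    obtain ⟨hu0W, hu0Np, hu0F3, hu0κ⟩ := hE'spec u0 hu0
    have hcase : ∀ m ∈ B, ζ m ∈ N → nf e I A (y m (K.c m u0)) → ∀ i ∈ I, κ m i = ζ m i := by
      intro m hm _ hn i hi
      rw [← hu0κ m, ← hy m hm u0 hu0W]
      show PadicInt.toZMod _ = PadicInt.toZMod _
      rw [(hz2 m hm u0 hu0W hn).1 i hi]
    refine ⟨κ, ?_, ?_, ?_, ?_, ?_, fun w => tx e I A (x (a + j • w)), fun m t => z m (K.c m a + j • t), ?_, ?_⟩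
    · intro m hm
      rw [← hu0κ m]
      exact hz1 m hm u0 hu0W
    · intro m hm hmN i hi
      rw [← hu0κ m]
      refine hz3 m hm u0 hu0W ?_ i hi
      intro hn
      apply hmN
      rw [← hy m hm u0 hu0W]
      exact hnfN e he1 A hA _ hn
    · intro m hm hmN
      by_cases hn : nf e I A (y m (K.c m u0))
      · exact Or.inl (hcase m hm hmN hn)
      · right
        intro i hi
        rw [← hu0κ m]
        exact hz3 m hm u0 hu0W hn i hi
    · have h1 : #{m : K.D | K.c m u0 ∈ L m} ≤ 2 := by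
        by_contra hcon
        exact hu0F3 (Finset.mem_filter.2 ⟨hu0W, by omega⟩)
      refine le_trans (Finset.card_le_card ?_) h1
      intro m hm
      obtain ⟨hmB, hmN, hmI⟩ := Finset.mem_filter.1 hm
      refine Finset.mem_filter.2 ⟨Finset.mem_univ _, (hL _ _).2 ⟨Finset.mem_filter.2 ⟨hmB, hmN⟩, ?_⟩⟩
      intro hn
      apply hζ.1 m hmB
      have h2 := hcase m hmB hmN hn
      have h3 : ∀ i ∈ I, ζ m i = 0 := fun i hi => by rw [← h2 i hi, hmI i hi]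
      funext i
      by_cases hi : i ∈ I
      · exact h3 i hi
      · rw [(hN _).1 hmN i hi]
        exact Finset.sum_eq_zero fun l hl => by rw [h3 l hl, mul_zero]
    · rintro ⟨χ, hχ⟩
      refine (Finset.mem_filter.1 hu0Np).2 ⟨χ, fun m hm hmN j hj => ?_⟩
      rw [hu0κ m]
      exact hχ m hm hmN j hj
    · have hR' : Rl K B W (fun u => tx e I A (x u)) z := by
        intro μ hμ u hu u' hu'
        rw [tw_zero_iff e _ I A (x u) _ _ (hz0 μ hμ u' hu')]
        exact hR μ hμ u hu u' hu'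
      exact Rl_hom hj (fun w hw' => (hE'spec _ (hw w hw')).1) hR'
    · intro m hm u hu
      show rd (z m (K.c m a + j • K.c m u)) = κ m
      rw [← c_hom]
      exact (hE'spec _ (hw u hu)).2.2.2 m
  obtain ⟨ζ', hζ'⟩ := dir (X := K.D → ι → ZMod 2) (G := K.G) _ (by
    rintro S S' ζ' hSS ⟨h1, h2, h3, h4, h5, x, y, h6, h7⟩
    exact ⟨h1, h2, h3, h4, h5, x, y, Rl_mono hSS h6, fun m hm u hu => h7 m hm u (hSS hu)⟩) hgoal
  obtain ⟨h1, h2, h3, h4, h5, _⟩ := hζ' ∅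
  exact ⟨ζ', ⟨h1, fun S => (hζ' S).2.2.2.2.2⟩, h2, h3, h4, h5⟩

end

end Pool.Agent.N524
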