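import Pool.Agent.N524.Def

/-!
# Changing the lattice

`tw e I A y`: the coordinates of `y` with respect to the lattice `{y : y'' ≡ A y' mod 2^e}` (up to a power of 2).
-/

set_option autoImplicit false

namespace Pool.Agent.N524

open Finset
open scoped Classical

noncomputable section

variable {ι : Type} [Fintype ι]

/-- second block -/
def bl (I : Finset ι) (A : ι → ι → ℤ_[2]) (y : ι → ℤ_[2]) (j : ι) : ℤ_[2] := y j - ∑ l ∈ I, A j l * y l

def tw (e : ℕ) (I : Finset ι) (A : ι → ι → ℤ_[2]) (y : ι → ℤ_[2]) : ι → ℤ_[2] :=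
  fun i => if i ∈ I then 2 ^ e * y i else bl I A y i

def tx (e : ℕ) (I : Finset ι) (A : ι → ι → ℤ_[2]) (x : ι → ℤ_[2]) : ι → ℤ_[2] :=
  fun i => if i ∈ I then x i + ∑ j ∈ Iᶜ, A j i * x j else 2 ^ e * x i

/-- non failing at level `e` -/
def nf (e : ℕ) (I : Finset ι) (A : ι → ι → ℤ_[2]) (y : ι → ℤ_[2]) : Prop :=
  ∀ j ∉ I, (2 : ℤ_[2]) ^ e ∣ bl I A y j

theorem sum_dual (I : Finset ι) (A : ι → ι → ℤ_[2]) (x y : ι → ℤ_[2]) :
    ∑ i ∈ I, (x i + ∑ j ∈ Iᶜ, A j i * x j) * y i + ∑ j ∈ Iᶜ, x j * bl I A y j = ∑ i, x i * y i := by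
  have h1 : ∑ i ∈ I, (∑ j ∈ Iᶜ, A j i * x j) * y i = ∑ j ∈ Iᶜ, x j * ∑ l ∈ I, A j l * y l := by
    simp_rw [Finset.sum_mul, Finset.mul_sum]
    rw [Finset.sum_comm]
    refine Finset.sum_congr rfl fun j _ => Finset.sum_congr rfl fun i _ => by ring
  rw [← Finset.sum_add_sum_compl I]
  simp_rw [bl, add_mul, mul_sub]
  rw [Finset.sum_add_distrib, Finset.sum_sub_distrib, h1]
  ring

theorem tx_tw (e : ℕ) (I : Finset ι) (A : ι → ι → ℤ_[2]) (x y : ι → ℤ_[2]) :
    ∑ i, tx e I A x i * tw e I A y i = 2 ^ e * ∑ i, x i * y i := by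
  rw [← sum_dual I A x y, ← Finset.sum_add_sum_compl I, mul_add, Finset.mul_sum, Finset.mul_sum]
  congr 1
  · refine Finset.sum_congr rfl fun i hi => ?_
    simp only [tx, tw, if_pos hi]
    ring
  · refine Finset.sum_congr rfl fun i hi => ?_
    rw [Finset.mem_compl] at hi
    simp only [tx, tw, if_neg hi]
    ring

omit [Fintype ι] in
theorem rd_bl (I : Finset ι) (A : ι → ι → ℤ_[2]) (y : ι → ℤ_[2]) (j : ι) :
    PadicInt.toZMod (bl I A y j) = rd y j - ∑ l ∈ I, PadicInt.toZMod (A j l) * rd y l := by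
  simp [bl, rd, map_sub, map_sum, map_mul]

theorem toZ_two_pow_mul {e : ℕ} (he : 1 ≤ e) (a : ℤ_[2]) : PadicInt.toZMod ((2 : ℤ_[2]) ^ e * a) = 0 := by
  rw [toZ_eq_zero]
  obtain ⟨n, rfl⟩ : ∃ n, e = n + 1 := ⟨e - 1, by omega⟩
  exact ⟨2 ^ n * a, by ring⟩

/-- classification of the new class of a line -/
theorem classify (e : ℕ) (he : 1 ≤ e) (I : Finset ι) (A : ι → ι → ℤ_[2]) (y : ι → ℤ_[2]) (hy : rd y ≠ 0)
    (hI : nf e I A y → ∃ i ∈ I, rd y i ≠ 0) :
    ∃ (a : ℕ) (z : ι → ℤ_[2]), (∀ i, tw e I A y i = 2 ^ a * z i) ∧ rd z ≠ 0 ∧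
      (nf e I A y → (∀ i ∈ I, z i = y i) ∧ ∀ j ∉ I, bl I A y j = 2 ^ e * z j) ∧
      (¬ nf e I A y → ∀ i ∈ I, rd z i = 0) := by
  have hw : tw e I A y ≠ 0 := by
    intro h0
    have h1 : ∀ i ∈ I, y i = 0 := by
      intro i hi
      have := congrFun h0 i
      simp only [tw, if_pos hi, Pi.zero_apply, mul_eq_zero] at this
      rcases this with h | h
      · exact absurd h (pow_ne_zero _ two_ne)
      · exact h
    have h2 : ∀ j ∉ I, y j = 0 := by
      intro j hj
      have := congrFun h0 j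
      simp only [tw, if_neg hj, Pi.zero_apply, bl] at this
      rw [Finset.sum_eq_zero (fun l hl => by rw [h1 l hl, mul_zero]), sub_zero] at this
      exact this
    apply hy
    funext i
    by_cases hi : i ∈ I
    · simp [rd, h1 i hi]
    · simp [rd, h2 i hi]
  obtain ⟨a, z, hz, hz0⟩ := prim _ hw
  refine ⟨a, z, hz, hz0, ?_, ?_⟩
  · intro hn
    obtain ⟨i0, hi0, hyi0⟩ := hI hn
    have hdiv : ∀ i, ∃ t, tw e I A y i = 2 ^ e * t := by
      intro i
      by_cases hi : i ∈ I
      · exact ⟨y i, by simp [tw, if_pos hi]⟩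
      · obtain ⟨t, ht⟩ := hn i hi
        exact ⟨t, by simp [tw, if_neg hi, ht]⟩
    obtain ⟨i1, hi1⟩ := Function.ne_iff.1 hz0
    obtain ⟨t, ht⟩ := hdiv i1
    have hae : a = e := by
      rcases lt_trichotomy a e with h | h | h
      · exfalso
        apply hi1
        have h3 : z i1 = 2 ^ (e - a) * t := by
          apply pow_cancel (n := a)
          rw [← hz i1, ht, ← mul_assoc, ← pow_add, Nat.add_sub_cancel' h.le]
        show PadicInt.toZMod (z i1) = 0
        rw [h3]
        exact toZ_two_pow_mul (by omega) _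
      · exact h
      · exfalso
        apply hyi0
        have h3 : y i0 = 2 ^ (a - e) * z i0 := by
          apply pow_cancel (n := e)
          have h4 := hz i0
          simp only [tw, if_pos hi0] at h4
          rw [h4, ← mul_assoc, ← pow_add, Nat.add_sub_cancel' h.le]
        show PadicInt.toZMod (y i0) = 0
        rw [h3]
        exact toZ_two_pow_mul (by omega) _
    subst hae
    constructor
    · intro i hi
      have h4 := hz i
      simp only [tw, if_pos hi] at h4
      exact (pow_cancel h4).symm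
    · intro j hj
      have h4 := hz j
      simp only [tw, if_neg hj] at h4
      exact h4
  · intro hn i hi
    have hae : a < e := by
      by_contra hcon
      push Not at hcon
      apply hn
      intro j hj
      have h4 := hz j
      simp only [tw, if_neg hj] at h4
      rw [h4]
      exact Dvd.dvd.mul_right (pow_dvd_pow _ hcon) _
    have h3 : z i = 2 ^ (e - a) * y i := by
      apply pow_cancel (n := a)
      rw [← hz i, ← mul_assoc, ← pow_add, Nat.add_sub_cancel' hae.le]
      simp only [tw, if_pos hi]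
    show PadicInt.toZMod (z i) = 0
    rw [h3]
    exact toZ_two_pow_mul (by omega) _

/-- new realisation from a lattice change -/
theorem tw_zero_iff (e a : ℕ) (I : Finset ι) (A : ι → ι → ℤ_[2]) (x y z : ι → ℤ_[2])
    (hz : ∀ i, tw e I A y i = 2 ^ a * z i) :
    ∑ i, tx e I A x i * z i = 0 ↔ ∑ i, x i * y i = 0 := by
  have h1 : 2 ^ a * ∑ i, tx e I A x i * z i = 2 ^ e * ∑ i, x i * y i := by
    rw [← tx_tw e I A x y, Finset.mul_sum]
    refine Finset.sum_congr rfl fun i _ => ?_
    rw [hz i]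
    ring
  constructor
  · intro h
    rw [h, mul_zero] at h1
    exact (mul_eq_zero.1 h1.symm).resolve_left (pow_ne_zero _ two_ne)
  · intro h
    rw [h, mul_zero] at h1
    exact (mul_eq_zero.1 h1).resolve_left (pow_ne_zero _ two_ne)

end

end Pool.Agent.N524
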